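import Mathlib

/-!
Definitions for the Ramsey upper density of infinite graph factors.
-/

open Filter
open scoped ENNReal NNReal

namespace Pool.Agent.RamseyFactor

/-- Upper density of a set of natural numbers (with respect to the initial segments
`{0, ..., t - 1}`). -/
noncomputable def upperDensity (S : Set ℕ) : ℝ :=
  limsup (fun t : ℕ => ((S ∩ Set.Iio t).ncard : ℝ) / t) atTop

/-- The Ramsey upper density of a graph `H`. A colouring of the edges of the complete graph on the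
naturals is given by the graph `G` of red edges; the blue edges are the edges of `Gᶜ`. -/
noncomputable def rho {W : Type*} (H : SimpleGraph W) : ℝ :=
  sSup {l : ℝ | ∀ G : SimpleGraph ℕ, ∃ φ : W → ℕ, Function.Injective φ ∧
    ((∀ u v, H.Adj u v → G.Adj (φ u) (φ v)) ∨ (∀ u v, H.Adj u v → Gᶜ.Adj (φ u) (φ v))) ∧
    l ≤ upperDensity (Set.range φ)}

/-- The disjoint union of countably infinitely many copies of `F`. -/
def omegaCopies {V : Type*} (F : SimpleGraph V) : SimpleGraph (ℕ × V) where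
  Adj p q := p.1 = q.1 ∧ F.Adj p.2 q.2
  symm := ⟨fun _ _ h => ⟨h.1.symm, h.2.symm⟩⟩
  loopless := ⟨fun _ h => F.loopless.irrefl _ h.2⟩

/-- The set of vertices adjacent to at least one vertex of `I`. -/
def nbhd {V : Type*} (F : SimpleGraph V) (I : Set V) : Set V := {v | ∃ u ∈ I, F.Adj u v}

/-- The expansion `m(F)`: the minimum of `|N(I)| / |I|` over nonempty independent sets `I`. -/
noncomputable def mExp {V : Type*} (F : SimpleGraph V) : ℝ :=
  sInf {x : ℝ | ∃ I : Set V, I.Nonempty ∧ F.IsIndepSet I ∧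
    x = ((nbhd F I).ncard : ℝ) / (I.ncard : ℝ)}

/-- `Γ_γ(g, t) = min {x ≥ 0 : γ x + g x ≥ t}`, with value `∞` when there is no such `x`. -/
noncomputable def Gam (γ : ℝ) (g : ℝ≥0 → ℝ) (t : ℝ) : ℝ≥0∞ :=
  ⨅ (x : ℝ≥0) (_ : t ≤ γ * x + g x), (x : ℝ≥0∞)

/-- `h(γ)`: the infimum over all `1`-Lipschitz `g` with `g 0 = 0` of
`limsup (Γ_γ(g, t) + Γ_γ(-g, t)) / t`. -/
noncomputable def hfun (γ : ℝ) : ℝ≥0∞ :=
  ⨅ (g : ℝ≥0 → ℝ) (_ : LipschitzWith 1 g) (_ : g 0 = 0),
    limsup (fun t : ℝ => (Gam γ g t + Gam γ (fun x => - g x) t) / ENNReal.ofReal t) atTop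

/-- `2 l / (1 + l)^2 * h((l - 1) / (l + 1)) + 2 l / (1 + l)`. -/
noncomputable def kfun (l : ℝ) : ℝ≥0∞ :=
  ENNReal.ofReal (2 * l / (1 + l) ^ 2) * hfun ((l - 1) / (l + 1)) + ENNReal.ofReal (2 * l / (1 + l))

/-- The function `f`. -/
noncomputable def ffun (l : ℝ) : ℝ := if l = 0 then 1 else 1 - ((kfun l)⁻¹).toReal

end Pool.Agent.RamseyFactor
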