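import Mathlib
import Pool.Agent.Work.MP_8cf4b7_co.Defs

/-!
The finite Ramsey theorem for two colours, and the notion of a good set of vertices.
-/

open Filter
open scoped ENNReal NNReal

namespace Pool.Agent.RamseyFactor

/-- Finite Ramsey theorem. -/
theorem ramsey (p q : ℕ) : ∃ N : ℕ, ∀ (G : SimpleGraph ℕ) (S : Finset ℕ), N ≤ S.card →
    (∃ K ⊆ S, K.card = p ∧ G.IsClique (K : Set ℕ)) ∨
    (∃ K ⊆ S, K.card = q ∧ Gᶜ.IsClique (K : Set ℕ)) := by
  classical
  induction p generalizing q with
  | zero =>
    refine ⟨0, fun G S _ => Or.inl ⟨∅, by simp, by simp, by simp⟩⟩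
  | succ p ihp =>
    induction q with
    | zero => exact ⟨0, fun G S _ => Or.inr ⟨∅, by simp, by simp, by simp⟩⟩
    | succ q ihq =>
      obtain ⟨N1, h1⟩ := ihp (q + 1)
      obtain ⟨N2, h2⟩ := ihq
      refine ⟨N1 + N2 + 1, fun G S hS => ?_⟩
      have hne : S.Nonempty := by
        rw [← Finset.card_pos]; omega
      obtain ⟨v, hv⟩ := hne
      set A := (S.erase v).filter (fun w => G.Adj v w) with hA
      set B := (S.erase v).filter (fun w => ¬ G.Adj v w) with hB
      have hAB : A.card + B.card = (S.erase v).card :=
        Finset.card_filter_add_card_filter_not _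
      rw [Finset.card_erase_of_mem hv] at hAB
      by_cases hcase : N1 ≤ A.card
      · rcases h1 G A hcase with ⟨K, hK, hc, hcl⟩ | ⟨K, hK, hc, hcl⟩
        · left
          have hvK : v ∉ K := fun h => by
            have := hK h
            simp [hA] at this
          refine ⟨insert v K, ?_, ?_, ?_⟩
          · intro w hw
            rcases Finset.mem_insert.mp hw with rfl | hw
            · exact hv
            · exact (Finset.mem_erase.mp (Finset.mem_filter.mp (hK hw)).1).2
          · rw [Finset.card_insert_of_notMem hvK, hc]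
          · rw [Finset.coe_insert, SimpleGraph.isClique_insert]
            exact ⟨hcl, fun w hw _ => (Finset.mem_filter.mp (hK hw)).2⟩
        · right
          refine ⟨K, ?_, hc, hcl⟩
          intro w hw
          exact (Finset.mem_erase.mp (Finset.mem_filter.mp (hK hw)).1).2
      · have hcase2 : N2 ≤ B.card := by omega
        rcases h2 G B hcase2 with ⟨K, hK, hc, hcl⟩ | ⟨K, hK, hc, hcl⟩
        · left
          refine ⟨K, ?_, hc, hcl⟩
          intro w hw
          exact (Finset.mem_erase.mp (Finset.mem_filter.mp (hK hw)).1).2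
        · right
          have hvK : v ∉ K := fun h => by
            have := hK h
            simp [hB] at this
          refine ⟨insert v K, ?_, ?_, ?_⟩
          · intro w hw
            rcases Finset.mem_insert.mp hw with rfl | hw
            · exact hv
            · exact (Finset.mem_erase.mp (Finset.mem_filter.mp (hK hw)).1).2
          · rw [Finset.card_insert_of_notMem hvK, hc]
          · rw [Finset.coe_insert, SimpleGraph.isClique_insert]
            refine ⟨hcl, fun w hw hne => ?_⟩
            rw [SimpleGraph.compl_adj]
            exact ⟨hne, (Finset.mem_filter.mp (hK hw)).2⟩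

/-- `A` is good in colour `G`: the common `G`-neighbourhood of `A` contains `G`-cliques of size
`l` arbitrarily far. -/
def Good (G : SimpleGraph ℕ) (l : ℕ) (A : Finset ℕ) : Prop :=
  ∀ T : ℕ, ∃ K : Finset ℕ, K.card = l ∧ (∀ x ∈ K, T < x) ∧ G.IsClique (K : Set ℕ) ∧
    ∀ x ∈ K, ∀ v ∈ A, G.Adj v x

/-- Number of edges of `G` between two sets. -/
noncomputable def ecount (G : SimpleGraph ℕ) (X Y : Finset ℕ) : ℕ := by
  classical
  exact ((X ×ˢ Y).filter (fun p => G.Adj p.1 p.2)).card

end Pool.Agent.RamseyFactor
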