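import Mathlib
import Pool.Agent.Work.MP_8cf4b7_co.Ramsey

/-!
Asymptotic Hall theorem for packings of pairs of sets, via Szemerédi regularity.
-/

open Finset

namespace Pool.Agent.RamseyFactor

namespace AsympHallAux

/-- The regularity lemma for finite sets of naturals. -/
lemma reg (ε : ℝ) (hε : 0 < ε) : ∃ M : ℕ, 0 < M ∧ ∀ (G : SimpleGraph ℕ) (V : Finset ℕ),
    M ≤ V.card → ∃ parts : Finset (Finset ℕ), 0 < parts.card ∧ parts.card ≤ M ∧
      (∀ p ∈ parts, p ⊆ V) ∧ (∀ x ∈ V, ∃ p ∈ parts, x ∈ p) ∧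
      (parts : Set (Finset ℕ)).PairwiseDisjoint id ∧
      (∀ p ∈ parts, V.card / parts.card ≤ p.card ∧ p.card ≤ V.card / parts.card + 1) ∧
      ∃ Gd : Finset ℕ → Finset ℕ → Prop,
        (∀ p ∈ parts, ∀ q ∈ parts, Gd p q → ∀ A ⊆ p, ∀ B ⊆ q,
          ε * p.card ≤ A.card → ε * q.card ≤ B.card →
            ε * (A.card * B.card) ≤ ecount G A B) ∧
        ∀ W : Finset (ℕ × ℕ), (∀ xy ∈ W, xy.1 ∈ V ∧ xy.2 ∈ V ∧ G.Adj xy.1 xy.2 ∧
          ¬ ∃ p ∈ parts, ∃ q ∈ parts, Gd p q ∧ xy.1 ∈ p ∧ xy.2 ∈ q) →
          (W.card : ℝ) ≤ 16 * ε * (V.card : ℝ) ^ 2 := by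
  classical
  set ε₀ : ℝ := 8 * ε with hε₀
  have hε₀pos : 0 < ε₀ := by positivity
  set l : ℕ := ⌈4 / ε₀⌉₊ with hl
  refine ⟨SzemerediRegularity.bound (ε₀ / 8) l, SzemerediRegularity.bound_pos _ _, ?_⟩
  intro G V hV
  have hlV : l ≤ Fintype.card {x // x ∈ V} := by
    rw [Fintype.card_coe]
    exact (SzemerediRegularity.le_bound _ _).trans hV
  have hVpos : 0 < V.card := lt_of_lt_of_le (SzemerediRegularity.bound_pos _ _) hV
  have : Nonempty {x // x ∈ V} := by
    obtain ⟨x, hx⟩ := Finset.card_pos.mp hVpos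
    exact ⟨⟨x, hx⟩⟩
  set H : SimpleGraph {x // x ∈ V} := G.comap Subtype.val with hH
  obtain ⟨P, hP₁, hP₂, hP₃, hP₄⟩ := szemeredi_regularity H (by positivity : 0 < ε₀ / 8) hlV
  set e : Finset {x // x ∈ V} ↪ Finset ℕ :=
    ⟨fun s => s.map (Function.Embedding.subtype _), Finset.map_injective _⟩ with he
  have hecard : ∀ s, (e s).card = s.card := fun s => Finset.card_map _
  have hcardV : (Finset.univ : Finset {x // x ∈ V}).card = V.card := by
    rw [Finset.card_univ, Fintype.card_coe]
  refine ⟨P.parts.map e, ?_, ?_, ?_, ?_, ?_, ?_, ?_⟩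
  · rw [Finset.card_map]
    exact (P.parts_nonempty Finset.univ_nonempty.ne_empty).card_pos
  · rw [Finset.card_map]
    exact hP₃
  · intro p hp
    rw [Finset.mem_map] at hp
    obtain ⟨s, _, rfl⟩ := hp
    intro x hx
    simp only [he, Function.Embedding.coeFn_mk, Finset.mem_map] at hx
    obtain ⟨y, _, rfl⟩ := hx
    exact y.2
  · intro x hx
    obtain ⟨s, hs, hxs⟩ := P.exists_mem (Finset.mem_univ (⟨x, hx⟩ : {x // x ∈ V}))
    refine ⟨e s, Finset.mem_map_of_mem _ hs, ?_⟩
    simp only [he, Function.Embedding.coeFn_mk, Finset.mem_map]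
    exact ⟨⟨x, hx⟩, hxs, rfl⟩
  · intro p hp q hq hpq
    simp only [Finset.coe_map, Set.mem_image, Finset.mem_coe] at hp hq
    obtain ⟨s, hs, rfl⟩ := hp
    obtain ⟨t, ht, rfl⟩ := hq
    have hst : s ≠ t := fun h => hpq (by rw [h])
    have := P.disjoint hs ht hst
    simp only [Function.onFun, id]
    simp only [he, Function.Embedding.coeFn_mk]
    rw [Finset.disjoint_map]
    exact this
  · intro p hp
    rw [Finset.mem_map] at hp
    obtain ⟨s, hs, rfl⟩ := hp
    rw [Finset.card_map, hecard, ← hcardV]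
    exact ⟨hP₁.average_le_card_part hs, hP₁.card_part_le_average_add_one hs⟩
  · refine ⟨fun p q => ∃ s t, s ∈ P.parts ∧ t ∈ P.parts ∧ p = e s ∧ q = e t ∧ s ≠ t ∧
      H.IsUniform (ε₀ / 8) s t ∧ ε₀ / 4 ≤ H.edgeDensity s t, ?_, ?_⟩
    · rintro p hp q hq ⟨s, t, hs, ht, rfl, rfl, hst, hunif, hdens⟩ A hA B hB hcA hcB
      -- pull back A and B
      obtain ⟨A', hA', rfl⟩ : ∃ A' ⊆ s, e A' = A := by
        simp only [he, Function.Embedding.coeFn_mk] at hA ⊢
        obtain ⟨A', hA', h⟩ := Finset.subset_map_iff.mp hA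
        exact ⟨A', hA', h.symm⟩
      obtain ⟨B', hB', rfl⟩ : ∃ B' ⊆ t, e B' = B := by
        simp only [he, Function.Embedding.coeFn_mk] at hB ⊢
        obtain ⟨B', hB', h⟩ := Finset.subset_map_iff.mp hB
        exact ⟨B', hB', h.symm⟩
      rw [hecard] at hcA hcB
      rw [hecard] at hcA hcB
      have h88 : ε₀ / 8 = ε := by rw [hε₀]; ring
      have h84 : ε₀ / 4 = 2 * ε := by rw [hε₀]; ring
      rw [h88] at hunif
      rw [h84] at hdens
      have hu := hunif hA' hB' (by rw [mul_comm]; exact hcA) (by rw [mul_comm]; exact hcB)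
      have hd : ε ≤ (H.edgeDensity A' B' : ℝ) := by
        have := (abs_lt.mp hu).1
        linarith
      have hcount : (ecount G (e A') (e B') : ℝ) = (H.edgeDensity A' B' : ℝ) *
          (A'.card * B'.card) := by
        have h1 : ecount G (e A') (e B') = (H.interedges A' B').card := by
          unfold ecount
          symm
          apply Finset.card_bij (fun (xy : {x // x ∈ V} × {x // x ∈ V}) _ =>
            ((xy.1 : ℕ), (xy.2 : ℕ)))
          · rintro ⟨x, y⟩ hxy
            rw [SimpleGraph.mem_interedges_iff] at hxy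
            simp only [he, Function.Embedding.coeFn_mk, Finset.mem_filter, Finset.mem_product,
              Finset.mem_map, Function.Embedding.subtype_apply]
            exact ⟨⟨⟨x, hxy.1, rfl⟩, ⟨y, hxy.2.1, rfl⟩⟩, hxy.2.2⟩
          · rintro ⟨x, y⟩ _ ⟨x', y'⟩ _ h
            simp only [Prod.mk.injEq] at h
            exact Prod.ext (Subtype.ext h.1) (Subtype.ext h.2)
          · rintro ⟨x, y⟩ hxy
            simp only [he, Function.Embedding.coeFn_mk, Finset.mem_filter, Finset.mem_product,
              Finset.mem_map, Function.Embedding.subtype_apply] at hxy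
            obtain ⟨⟨⟨x', hx', rfl⟩, ⟨y', hy', rfl⟩⟩, hadj⟩ := hxy
            refine ⟨(x', y'), ?_, rfl⟩
            rw [SimpleGraph.mem_interedges_iff]
            exact ⟨hx', hy', hadj⟩
        rw [h1, SimpleGraph.edgeDensity_def]
        push_cast
        by_cases h0 : (A'.card : ℝ) * B'.card = 0
        · have hz : (H.interedges A' B').card ≤ 0 := by
            have := Rel.card_interedges_le_mul H.Adj A' B'
            have h0' : A'.card * B'.card = 0 := by exact_mod_cast h0
            rw [h0'] at this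
            exact this
          have hz' : (H.interedges A' B').card = 0 := Nat.le_zero.mp hz
          rw [hz', h0]
          simp
        · rw [div_mul_cancel₀ _ h0]
      rw [hcount, hecard, hecard]
      gcongr
    · intro W hW
      have hcut := SimpleGraph.regularityReduced_edges_card_aux (G := H) hε₀pos hP₁ hP₄
        ((Nat.le_ceil _).trans (by exact_mod_cast hP₂))
      -- count ordered pairs
      set R := H.regularityReduced P (ε₀ / 8) (ε₀ / 4) with hR
      have hRle : R ≤ H := SimpleGraph.regularityReduced_le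
      set S : Finset ({x // x ∈ V} × {x // x ∈ V}) :=
        (univ ×ˢ univ).filter fun xy => H.Adj xy.1 xy.2 ∧ ¬ R.Adj xy.1 xy.2 with hS
      have hScard : (S.card : ℝ) = 2 * (#H.edgeFinset - #R.edgeFinset : ℝ) := by
        rw [hS, univ_product_univ, mul_sub, filter_and_not, cast_card_sdiff]
        · have h1 := SimpleGraph.two_mul_card_edgeFinset H
          have h2 := SimpleGraph.two_mul_card_edgeFinset R
          have h1' : (2 : ℝ) * #H.edgeFinset = #({xy : {x // x ∈ V} × {x // x ∈ V} | H.Adj xy.1 xy.2} : Finset _) := by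
            exact_mod_cast h1
          have h2' : (2 : ℝ) * #R.edgeFinset = #({xy : {x // x ∈ V} × {x // x ∈ V} | R.Adj xy.1 xy.2} : Finset _) := by
            exact_mod_cast h2
          rw [h1', h2']
        · intro xy hxy
          rw [Finset.mem_filter] at hxy ⊢
          exact ⟨hxy.1, hRle hxy.2⟩
      have hle : W.card ≤ S.card := by
        apply Finset.card_le_card_of_surjOn (fun (xy : {x // x ∈ V} × {x // x ∈ V}) =>
            ((xy.1 : ℕ), (xy.2 : ℕ)))
        rintro ⟨x, y⟩ hxy
        obtain ⟨hx, hy, hadj, hno⟩ := hW (x, y) hxy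
        simp only at hx hy hadj hno
        refine ⟨(⟨x, hx⟩, ⟨y, hy⟩), ?_, rfl⟩
        simp only [hS, Finset.coe_filter, Set.mem_ofPred_eq, Finset.mem_product, Finset.mem_univ,
          true_and]
        refine ⟨hadj, fun hRadj => hno ?_⟩
        rw [hR, SimpleGraph.regularityReduced_adj] at hRadj
        obtain ⟨_, U, hU, U', hU', hxU, hyU', hne, hun, hde⟩ := hRadj
        refine ⟨e U, Finset.mem_map_of_mem _ hU, e U', Finset.mem_map_of_mem _ hU',
          ⟨U, U', hU, hU', rfl, rfl, hne, hun, hde⟩, ?_, ?_⟩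
        · simp only [he, Function.Embedding.coeFn_mk, Finset.mem_map]
          exact ⟨_, hxU, rfl⟩
        · simp only [he, Function.Embedding.coeFn_mk, Finset.mem_map]
          exact ⟨_, hyU', rfl⟩
      have hc : (Fintype.card {x // x ∈ V} : ℝ) = V.card := by rw [Fintype.card_coe]
      calc (W.card : ℝ) ≤ S.card := by exact_mod_cast hle
        _ = 2 * (#H.edgeFinset - #R.edgeFinset : ℝ) := hScard
        _ ≤ 2 * ε₀ * ((Fintype.card {x // x ∈ V} ^ 2 : ℕ) : ℝ) := hcut.le
        _ = 16 * ε * (V.card : ℝ) ^ 2 := by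
          push_cast
          rw [hc, hε₀]
          ring

/-- Cutting a set into units of equal size. -/
lemma units (w : ℕ) (hw : 0 < w) (Z : Finset ℕ) : ∃ U : Finset (Finset ℕ),
    (∀ A ∈ U, A ⊆ Z ∧ A.card = w) ∧ (U : Set (Finset ℕ)).PairwiseDisjoint id ∧
      (Z \ U.biUnion id).card < w := by
  classical
  induction hn : Z.card using Nat.strong_induction_on generalizing Z with
  | _ n ih =>
    subst hn
    by_cases h : Z.card < w
    · exact ⟨∅, by simp, by simp, by simpa using h⟩
    · push Not at h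
      obtain ⟨A, hAZ, hA⟩ := Finset.exists_subset_card_eq h
      have hlt : (Z \ A).card < Z.card := by
        rw [Finset.card_sdiff_of_subset hAZ]; omega
      obtain ⟨U, hU1, hU2, hU3⟩ := ih _ hlt (Z \ A) rfl
      have hAne : A.Nonempty := by rw [← Finset.card_pos]; omega
      refine ⟨insert A U, ?_, ?_, ?_⟩
      · intro B hB
        rcases Finset.mem_insert.mp hB with rfl | hB
        · exact ⟨hAZ, hA⟩
        · exact ⟨(hU1 B hB).1.trans Finset.sdiff_subset, (hU1 B hB).2⟩
      · rw [Finset.coe_insert]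
        rw [Set.pairwiseDisjoint_insert]
        refine ⟨hU2, fun B hB _ => ?_⟩
        simp only [id]
        exact Finset.disjoint_of_subset_right (hU1 B hB).1 Finset.disjoint_sdiff
      · rw [Finset.biUnion_insert, id, ← Finset.sup_eq_union, ← sdiff_sdiff_left]
        exact hU3

/-- Greedy packing inside a pair of units. -/
lemma greedy (a c u t : ℕ) (htu : t ≤ u) (P : Finset ℕ → Finset ℕ → Prop)
    (hP : ∀ A C, P A C → A.card = a ∧ C.card = c) (A B : Finset ℕ) (hA : A.card = a * u)
    (hB : B.card = c * u)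
    (H : ∀ A' ⊆ A, ∀ B' ⊆ B, a * t ≤ A'.card → c * t ≤ B'.card →
      ∃ A₀ ⊆ A', ∃ C₀ ⊆ B', P A₀ C₀) (hd : Disjoint A B) (hc : 0 < c) :
    ∀ m : ℕ, m ≤ u - t → ∃ Fm : Finset (Finset ℕ × Finset ℕ),
      (∀ p ∈ Fm, p.1 ⊆ A ∧ p.2 ⊆ B ∧ P p.1 p.2) ∧
      (Fm : Set (Finset ℕ × Finset ℕ)).PairwiseDisjoint (fun p => p.1 ∪ p.2) ∧ Fm.card = m := by
  classical
  intro m
  induction m with
  | zero => exact fun _ => ⟨∅, by simp, by simp, by simp⟩
  | succ m ih =>
    intro hm
    obtain ⟨Fm, h1, h2, h3⟩ := ih (by omega)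
    set A' := A \ Fm.biUnion Prod.fst with hA'
    set B' := B \ Fm.biUnion Prod.snd with hB'
    have hcA : (Fm.biUnion Prod.fst).card ≤ m * a := by
      rw [← h3]
      exact Finset.card_biUnion_le_card_mul _ _ _ fun p hp => (hP _ _ (h1 p hp).2.2).1.le
    have hcB : (Fm.biUnion Prod.snd).card ≤ m * c := by
      rw [← h3]
      exact Finset.card_biUnion_le_card_mul _ _ _ fun p hp => (hP _ _ (h1 p hp).2.2).2.le
    have hmt : m + t ≤ u := by omega
    have hAle : a * t ≤ A'.card := by
      have := Finset.le_card_sdiff (Fm.biUnion Prod.fst) A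
      rw [← hA'] at this
      have h4 : a * t + m * a ≤ A.card := by
        rw [hA]; nlinarith
      omega
    have hBle : c * t ≤ B'.card := by
      have := Finset.le_card_sdiff (Fm.biUnion Prod.snd) B
      rw [← hB'] at this
      have h4 : c * t + m * c ≤ B.card := by
        rw [hB]; nlinarith
      omega
    obtain ⟨A₀, hA₀, C₀, hC₀, hPAC⟩ := H A' Finset.sdiff_subset B' Finset.sdiff_subset hAle hBle
    have hAd : ∀ p ∈ Fm, Disjoint A₀ p.1 := by
      intro p hp
      refine Finset.disjoint_of_subset_left hA₀ ?_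
      refine Finset.disjoint_of_subset_right (Finset.subset_biUnion_of_mem Prod.fst hp) ?_
      exact Finset.sdiff_disjoint
    have hCd : ∀ p ∈ Fm, Disjoint C₀ p.2 := by
      intro p hp
      refine Finset.disjoint_of_subset_left hC₀ ?_
      refine Finset.disjoint_of_subset_right (Finset.subset_biUnion_of_mem Prod.snd hp) ?_
      exact Finset.sdiff_disjoint
    have hA₀A : A₀ ⊆ A := hA₀.trans Finset.sdiff_subset
    have hC₀B : C₀ ⊆ B := hC₀.trans Finset.sdiff_subset
    have hnot : (A₀, C₀) ∉ Fm := by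
      intro hmem
      have h5 := hCd _ hmem
      simp only [disjoint_self, Finset.bot_eq_empty] at h5
      have h6 := (hP _ _ hPAC).2
      rw [h5, Finset.card_empty] at h6
      omega
    refine ⟨insert (A₀, C₀) Fm, ?_, ?_, ?_⟩
    · intro p hp
      rcases Finset.mem_insert.mp hp with rfl | hp
      · exact ⟨hA₀A, hC₀B, hPAC⟩
      · exact h1 p hp
    · rw [Finset.coe_insert, Set.pairwiseDisjoint_insert]
      refine ⟨h2, fun p hp _ => ?_⟩
      have hp' : p ∈ Fm := hp
      simp only [Finset.disjoint_union_left, Finset.disjoint_union_right]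
      refine ⟨⟨hAd p hp', ?_⟩, ⟨?_, hCd p hp'⟩⟩
      · exact Finset.disjoint_of_subset_left hC₀B
          (Finset.disjoint_of_subset_right (h1 p hp').1 hd.symm)
      · exact Finset.disjoint_of_subset_left hA₀A
          (Finset.disjoint_of_subset_right (h1 p hp').2.1 hd)
    · rw [Finset.card_insert_of_notMem hnot, h3]

/-- Deficiency version of Hall's theorem. -/
lemma hall_def {α β : Type} [DecidableEq α] [DecidableEq β] (SY : Finset α) (N : α → Finset β)
    (D : ℕ) :
    (∃ Mt : Finset (α × β), (∀ p ∈ Mt, p.1 ∈ SY ∧ p.2 ∈ N p.1) ∧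
      (∀ p ∈ Mt, ∀ q ∈ Mt, p.1 = q.1 → p = q) ∧ (∀ p ∈ Mt, ∀ q ∈ Mt, p.2 = q.2 → p = q) ∧
      SY.card ≤ Mt.card + D) ∨
    (∃ S ⊆ SY, (S.biUnion N).card + D < S.card) := by
  classical
  by_cases hall : ∀ S : Finset {x // x ∈ SY}, S.card ≤ (S.biUnion fun x =>
      (N x.1).map Function.Embedding.inl ∪
        (Finset.univ : Finset (Fin D)).map Function.Embedding.inr : Finset (β ⊕ Fin D)).card
  · left
    obtain ⟨g, hg, hgm⟩ := (Finset.all_card_le_biUnion_card_iff_exists_injective _).mp hall
    set Mt : Finset (α × β) := (SY ×ˢ SY.biUnion N).filter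
      (fun p => ∃ h : p.1 ∈ SY, g ⟨p.1, h⟩ = Sum.inl p.2) with hMt
    have hmem : ∀ x b, (x, b) ∈ Mt ↔ ∃ h : x ∈ SY, g ⟨x, h⟩ = Sum.inl b := by
      intro x b
      rw [hMt, Finset.mem_filter, Finset.mem_product, Finset.mem_biUnion]
      constructor
      · exact fun h => h.2
      · rintro ⟨h, hb⟩
        refine ⟨⟨h, x, h, ?_⟩, h, hb⟩
        have := hgm ⟨x, h⟩
        rw [hb] at this
        simpa using this
    have hN : ∀ x b, (x, b) ∈ Mt → b ∈ N x := by
      intro x b hxb
      obtain ⟨h, hb⟩ := (hmem x b).mp hxb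
      have := hgm ⟨x, h⟩
      rw [hb] at this
      simpa using this
    refine ⟨Mt, ?_, ?_, ?_, ?_⟩
    · rintro ⟨x, b⟩ hp
      exact ⟨((hmem x b).mp hp).1, hN x b hp⟩
    · rintro ⟨x, b⟩ hp ⟨x', b'⟩ hq hxx
      simp only at hxx
      subst hxx
      obtain ⟨h, hb⟩ := (hmem x b).mp hp
      obtain ⟨h', hb'⟩ := (hmem x b').mp hq
      rw [hb] at hb'
      rw [Sum.inl.inj hb']
    · rintro ⟨x, b⟩ hp ⟨x', b'⟩ hq hbb
      simp only at hbb
      subst hbb
      obtain ⟨h, hb⟩ := (hmem x b).mp hp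
      obtain ⟨h', hb'⟩ := (hmem x' b).mp hq
      have := hg (hb.trans hb'.symm)
      rw [Subtype.mk.injEq] at this
      rw [this]
    · have key : SY.attach.card ≤ (Mt.disjSum (Finset.univ : Finset (Fin D))).card := by
        apply Finset.card_le_card_of_injOn (fun x => Sum.map (fun b => (x.1, b)) id (g x))
        · intro x _
          rw [Finset.mem_coe]
          cases hx : g x with
          | inl b =>
            simp only [hx, Sum.map_inl]
            rw [Finset.inl_mem_disjSum]
            exact (hmem x.1 b).mpr ⟨x.2, hx⟩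
          | inr j => simp [hx]
        · intro x _ y _ hxy
          cases hx : g x with
          | inl b =>
            cases hy : g y with
            | inl b' =>
              simp only [hx, hy, Sum.map_inl, Sum.inl.injEq, Prod.mk.injEq] at hxy
              exact Subtype.ext hxy.1
            | inr j => simp [hx, hy] at hxy
          | inr j =>
            cases hy : g y with
            | inl b' => simp [hx, hy] at hxy
            | inr j' =>
              simp only [hx, hy, Sum.map_inr, id, Sum.inr.injEq] at hxy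
              subst hxy
              exact hg (hx.trans hy.symm)
      rw [Finset.card_attach, Finset.card_disjSum, Finset.card_univ, Fintype.card_fin] at key
      exact key
  · right
    push Not at hall
    obtain ⟨S, hS⟩ := hall
    have hSne : S.Nonempty := by
      rw [← Finset.card_pos]; omega
    obtain ⟨x₀, hx₀⟩ := hSne
    set S' : Finset α := S.map (Function.Embedding.subtype _) with hS'
    refine ⟨S', ?_, ?_⟩
    · intro x hx
      rw [hS', Finset.mem_map] at hx
      obtain ⟨y, _, rfl⟩ := hx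
      exact y.2
    · have hle : (S'.biUnion N).card + D ≤ (S.biUnion fun x =>
          (N x.1).map Function.Embedding.inl ∪
          (Finset.univ : Finset (Fin D)).map Function.Embedding.inr : Finset (β ⊕ Fin D)).card := by
        have h1 : (S'.biUnion N).card + D =
            ((S'.biUnion N).disjSum (Finset.univ : Finset (Fin D))).card := by
          rw [Finset.card_disjSum, Finset.card_univ, Fintype.card_fin]
        rw [h1]
        apply Finset.card_le_card
        intro z hz
        rw [Finset.mem_biUnion]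
        cases z with
        | inl b =>
          rw [Finset.inl_mem_disjSum, Finset.mem_biUnion] at hz
          obtain ⟨x, hx, hb⟩ := hz
          rw [hS', Finset.mem_map] at hx
          obtain ⟨y, hy, rfl⟩ := hx
          refine ⟨y, hy, ?_⟩
          simpa using hb
        | inr j =>
          exact ⟨x₀, hx₀, by simp⟩
      have h2 : S'.card = S.card := Finset.card_map _
      omega

/-- Units inside the parts of a partition. -/
lemma units_parts (w : ℕ) (hw : 0 < w) (parts : Finset (Finset ℕ))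
    (hdis : (parts : Set (Finset ℕ)).PairwiseDisjoint id) (X : Finset ℕ)
    (hcov : ∀ x ∈ X, ∃ p ∈ parts, x ∈ p) : ∃ U : Finset (Finset ℕ),
      (∀ A ∈ U, A ⊆ X ∧ A.card = w ∧ ∃ p ∈ parts, A ⊆ p) ∧
      (U : Set (Finset ℕ)).PairwiseDisjoint id ∧
      (X \ U.biUnion id).card ≤ parts.card * w := by
  classical
  choose Ux h1 h2 h3 using fun p : Finset ℕ => units w hw (p ∩ X)
  refine ⟨parts.biUnion Ux, ?_, ?_, ?_⟩
  · intro A hA
    rw [Finset.mem_biUnion] at hA
    obtain ⟨p, hp, hA⟩ := hA
    have := h1 p A hA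
    exact ⟨this.1.trans Finset.inter_subset_right, this.2, p, hp,
      this.1.trans Finset.inter_subset_left⟩
  · intro A hA B hB hAB
    rw [Finset.mem_coe, Finset.mem_biUnion] at hA hB
    obtain ⟨p, hp, hA⟩ := hA
    obtain ⟨q, hq, hB⟩ := hB
    by_cases hpq : p = q
    · subst hpq
      exact h2 p hA hB hAB
    · have := hdis hp hq hpq
      exact Finset.disjoint_of_subset_left ((h1 p A hA).1.trans Finset.inter_subset_left)
        (Finset.disjoint_of_subset_right ((h1 q B hB).1.trans Finset.inter_subset_left) this)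
  · have hsub : X \ (parts.biUnion Ux).biUnion id ⊆
        parts.biUnion (fun p => (p ∩ X) \ (Ux p).biUnion id) := by
      intro x hx
      rw [Finset.mem_sdiff, Finset.mem_biUnion] at hx
      obtain ⟨hxX, hx⟩ := hx
      obtain ⟨p, hp, hxp⟩ := hcov x hxX
      rw [Finset.mem_biUnion]
      refine ⟨p, hp, ?_⟩
      rw [Finset.mem_sdiff, Finset.mem_inter, Finset.mem_biUnion]
      refine ⟨⟨hxp, hxX⟩, fun ⟨A, hA, hxA⟩ => hx ⟨A, ?_, hxA⟩⟩
      exact Finset.mem_biUnion.mpr ⟨p, hp, hA⟩
    refine (Finset.card_le_card hsub).trans ?_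
    exact Finset.card_biUnion_le_card_mul _ _ _ fun p _ => (h3 p).le

end AsympHallAux

open AsympHallAux in
theorem asympHall (a c : ℕ) (ha : 0 < a) (hc : 0 < c) (δ : ℝ) (hδ : 0 < δ) :
    ∃ η : ℝ, 0 < η ∧ ∃ n₀ : ℕ, ∀ n ≥ n₀, ∀ (G : SimpleGraph ℕ) (X Y : Finset ℕ),
      Disjoint X Y → X.card + Y.card ≤ n → ∀ P : Finset ℕ → Finset ℕ → Prop,
      (∀ A C, P A C → A.card = a ∧ C.card = c) →
      (∀ X₀ ⊆ X, ∀ Y₀ ⊆ Y, η * (n : ℝ) ^ 2 ≤ (ecount G X₀ Y₀ : ℝ) →
        ∃ A ⊆ X₀, ∃ C ⊆ Y₀, P A C) →
      ∀ d : ℝ, 0 ≤ d →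
      (∃ Fm : Finset (Finset ℕ × Finset ℕ), (∀ p ∈ Fm, p.1 ⊆ X ∧ p.2 ⊆ Y ∧ P p.1 p.2) ∧
        ((Fm : Set (Finset ℕ × Finset ℕ)).PairwiseDisjoint (fun p => p.1 ∪ p.2)) ∧
        (Y.card : ℝ) - d - δ * n ≤ c * Fm.card) ∨
      (∃ X' ⊆ X, ∃ Y' ⊆ Y, d ≤ (Y'.card : ℝ) - (c / a : ℝ) * X'.card ∧
        (ecount G (X \ X') Y' : ℝ) ≤ δ * (n : ℝ) ^ 2) := by
  classical
  -- parameters
  set q : ℕ := ⌈(2 * c + 2 * a + 40) / δ⌉₊ + 8 with hq
  have hq8 : (8 : ℝ) ≤ q := by rw [hq]; push_cast; linarith [Nat.cast_nonneg (α := ℝ) ⌈(2 * (c:ℝ) + 2 * a + 40) / δ⌉₊]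
  have hqpos : (0 : ℝ) < q := by linarith
  have hqδ : (2 * c + 2 * a + 40 : ℝ) ≤ δ * q := by
    have h1 : (2 * c + 2 * a + 40 : ℝ) / δ ≤ ⌈(2 * (c:ℝ) + 2 * a + 40) / δ⌉₊ := Nat.le_ceil _
    have h2 : (2 * c + 2 * a + 40 : ℝ) / δ ≤ q := by
      rw [hq]; push_cast; linarith
    rw [div_le_iff₀ hδ] at h2
    linarith
  set ε : ℝ := 1 / (q : ℝ) ^ 2 with hε
  have hεpos : 0 < ε := by positivity
  have hεq : ε * (q : ℝ) ^ 2 = 1 := by rw [hε]; field_simp
  obtain ⟨M, hM, hreg⟩ := reg ε hεpos
  have hMr : (0 : ℝ) < M := by exact_mod_cast hM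
  set η : ℝ := ε ^ 3 * δ ^ 2 / (M : ℝ) ^ 2 with hη
  refine ⟨η, by positivity, ⌈2 * M * (q : ℝ) ^ 2 / δ⌉₊, ?_⟩
  intro n hn G X Y hXY hcard P hP hdense d hd
  have hn' : 2 * M * (q : ℝ) ^ 2 ≤ δ * n := by
    have h1 : 2 * M * (q : ℝ) ^ 2 / δ ≤ n := (Nat.le_ceil _).trans (by exact_mod_cast hn)
    rw [div_le_iff₀ hδ] at h1
    linarith
  by_cases hYsmall : (Y.card : ℝ) ≤ δ * n
  · left
    refine ⟨∅, by simp, by simp, ?_⟩
    simp only [Finset.card_empty, Nat.cast_zero, mul_zero]
    linarith
  push Not at hYsmall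
  set V := X ∪ Y with hV
  have hVcard : V.card = X.card + Y.card := Finset.card_union_of_disjoint hXY
  set N := V.card with hN
  have hNn : (N : ℝ) ≤ n := by rw [hVcard]; exact_mod_cast hcard
  have hNδ : δ * n < N := by
    rw [hVcard]; push_cast
    linarith [Nat.cast_nonneg (α := ℝ) X.card]
  have hNM : (2 * M * (q : ℝ) ^ 2 : ℝ) ≤ N := by linarith
  have hMN : M ≤ N := by
    have hq1 : (1 : ℝ) ≤ (q : ℝ) ^ 2 := one_le_pow₀ (by linarith)
    have h1 : (M : ℝ) ≤ N := by
      calc (M : ℝ) = M * 1 := by ring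
        _ ≤ M * (2 * (q : ℝ) ^ 2) := by gcongr; linarith
        _ ≤ N := by linarith
    exact_mod_cast h1
  obtain ⟨parts, hk0, hkM, hpV, hpcov, hpdis, hpcard, Gd, hGd, hrem⟩ := hreg G V hMN
  set k := parts.card with hk
  set s := N / k with hs
  have hkr : (0 : ℝ) < k := by exact_mod_cast hk0
  have hks : k * s ≤ N := Nat.mul_div_le N k
  have hks' : N < k * (s + 1) := by
    have := Nat.lt_mul_div_succ N hk0
    simpa [hs] using this
  have hs1 : (N : ℝ) / M ≤ s + 1 := by
    have h1 : (N : ℝ) < k * (s + 1) := by exact_mod_cast hks'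
    rw [div_le_iff₀ hMr]
    have h2 : (k : ℝ) ≤ M := by exact_mod_cast hkM
    calc (N : ℝ) ≤ k * (s + 1) := h1.le
      _ ≤ M * (s + 1) := by gcongr
      _ = (s + 1) * M := by ring
  have hs2 : 2 * (q : ℝ) ^ 2 ≤ s + 1 := by
    refine le_trans ?_ hs1
    rw [le_div_iff₀ hMr]
    linarith
  have hqq : (q : ℝ) ≤ (q : ℝ) ^ 2 := by
    calc (q : ℝ) = q * 1 := by ring
      _ ≤ q * q := by gcongr; linarith
      _ = (q : ℝ) ^ 2 := by ring
  have hsr : (q : ℝ) ^ 2 ≤ s := by linarith
  have hqn : 0 < q := by exact_mod_cast hqpos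
  set u := s / q with hu
  have hu1 : q * u ≤ s := Nat.mul_div_le s q
  have hu2 : s < q * (u + 1) := by
    have := Nat.lt_mul_div_succ s hqn
    simpa [hu] using this
  have hu1r : (q : ℝ) * u ≤ s := by exact_mod_cast hu1
  have hu2r : (s : ℝ) < q * (u + 1) := by exact_mod_cast hu2
  have hupos : 0 < u := by
    rw [hu]
    apply Nat.div_pos _ hqn
    have : (q : ℝ) ≤ s := hqq.trans hsr
    exact_mod_cast this
  have hur : (0 : ℝ) < u := by exact_mod_cast hupos
  set t := ⌈ε * (s + 1)⌉₊ with ht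
  have ht1 : ε * (s + 1) ≤ t := Nat.le_ceil _
  have hεs : 2 ≤ ε * (s + 1) := by
    calc (2 : ℝ) = ε * (2 * (q : ℝ) ^ 2) := by linarith [hεq]
      _ ≤ ε * (s + 1) := by gcongr
  have ht2 : (t : ℝ) ≤ 2 * (ε * (s + 1)) := by
    have := Nat.ceil_lt_add_one (by positivity : 0 ≤ ε * ((s : ℝ) + 1))
    linarith
  have htu : (t : ℝ) * q ≤ 8 * u := by
    have h1 : ε * ((s : ℝ) + 1) * (q : ℝ) ^ 2 = (s : ℝ) + 1 := by
      calc ε * ((s : ℝ) + 1) * (q : ℝ) ^ 2 = (ε * (q : ℝ) ^ 2) * ((s : ℝ) + 1) := by ring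
        _ = (s : ℝ) + 1 := by rw [hεq]; ring
    have h2 : (t : ℝ) * q * q ≤ 2 * (s + 1) := by
      calc (t : ℝ) * q * q = t * (q : ℝ) ^ 2 := by ring
        _ ≤ 2 * (ε * (s + 1)) * (q : ℝ) ^ 2 := by gcongr
        _ = 2 * (s + 1) := by rw [mul_assoc 2, h1]
    have h3 : 2 * ((s : ℝ) + 1) ≤ 8 * u * q := by
      have hs8 : 8 * (q : ℝ) ≤ s := by
        refine le_trans ?_ hsr
        calc 8 * (q : ℝ) ≤ q * q := by gcongr
          _ = (q : ℝ) ^ 2 := by ring
      have e1 : (q : ℝ) * (u + 1) = q * u + q := by ring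
      have e2 : 8 * (u : ℝ) * q = 8 * (q * u) := by ring
      linarith
    have h4 : (t : ℝ) * q * q ≤ 8 * u * q := h2.trans h3
    exact le_of_mul_le_mul_right h4 hqpos
  have htu' : t ≤ u := by
    have h1 : (t : ℝ) * 8 ≤ t * q := by gcongr
    have : (t : ℝ) ≤ u := by linarith
    exact_mod_cast this
  have htpos : 0 < t := by
    have : (0 : ℝ) < t := by linarith
    exact_mod_cast this
  have hXV : X ⊆ V := Finset.subset_union_left
  have hYV : Y ⊆ V := Finset.subset_union_right
  obtain ⟨UX, hUX1, hUX2, hUX3⟩ := units_parts (a * u) (by positivity) parts hpdis X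
    (fun x hx => hpcov x (hXV hx))
  obtain ⟨UY, hUY1, hUY2, hUY3⟩ := units_parts (c * u) (by positivity) parts hpdis Y
    (fun x hx => hpcov x (hYV hx))
  set Nb : Finset ℕ → Finset (Finset ℕ) := fun B => UX.filter (fun A =>
    ∃ p ∈ parts, ∃ p' ∈ parts, Gd p p' ∧ A ⊆ p ∧ B ⊆ p') with hNb
  set D := ⌈d / (c * u)⌉₊ with hD
  have hcr : (0 : ℝ) < c := by exact_mod_cast hc
  have har : (0 : ℝ) < a := by exact_mod_cast ha
  have hD1 : d ≤ c * u * D := by
    have := Nat.le_ceil (d / (c * u : ℝ))
    rw [div_le_iff₀ (by positivity)] at this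
    linarith
  have hD2 : (c * u : ℝ) * D ≤ d + c * u := by
    have := Nat.ceil_lt_add_one (by positivity : 0 ≤ d / (c * u : ℝ))
    have h2 : (D : ℝ) ≤ d / (c * u) + 1 := by rw [hD]; exact this.le
    calc (c * u : ℝ) * D ≤ (c * u) * (d / (c * u) + 1) := by gcongr
      _ = d + c * u := by field_simp
  have hku : (k : ℝ) * u * q ≤ n := by
    have h1 : (k : ℝ) * s ≤ N := by exact_mod_cast hks
    calc (k : ℝ) * u * q = k * (q * u) := by ring
      _ ≤ k * s := by gcongr
      _ ≤ n := h1.trans hNn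
  have hu_n : (u : ℝ) * q ≤ n := by
    have hk1 : (1 : ℝ) ≤ k := by exact_mod_cast hk0
    calc (u : ℝ) * q = 1 * (u * q) := by ring
      _ ≤ k * (u * q) := by gcongr
      _ = k * u * q := by ring
      _ ≤ n := hku
  have hnr : (0 : ℝ) ≤ n := Nat.cast_nonneg n
  rcases hall_def UY Nb D with ⟨Mt, hM1, hM2, hM3, hM4⟩ | ⟨S, hS1, hS2⟩
  · left
    have hF : ∀ p ∈ Mt, ∃ Fm : Finset (Finset ℕ × Finset ℕ),
        (∀ r ∈ Fm, r.1 ⊆ p.2 ∧ r.2 ⊆ p.1 ∧ P r.1 r.2) ∧
        (Fm : Set (Finset ℕ × Finset ℕ)).PairwiseDisjoint (fun r => r.1 ∪ r.2) ∧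
        Fm.card = u - t := by
      rintro ⟨B, A⟩ hp
      obtain ⟨hB, hA⟩ := hM1 _ hp
      simp only at hB hA
      rw [hNb, Finset.mem_filter] at hA
      obtain ⟨hA, p, hpp, p', hpp', hgd, hAp, hBp'⟩ := hA
      obtain ⟨hAX, hAc, _⟩ := hUX1 A hA
      obtain ⟨hBY, hBc, _⟩ := hUY1 B hB
      refine greedy a c u t htu' P hP A B hAc hBc ?_
        (Finset.disjoint_of_subset_left hAX (Finset.disjoint_of_subset_right hBY hXY)) hc
        (u - t) le_rfl
      intro A' hA' B' hB' hcA' hcB'
      apply hdense A' (hA'.trans hAX) B' (hB'.trans hBY)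
      have hpc : (p.card : ℝ) ≤ s + 1 := by exact_mod_cast (hpcard p hpp).2
      have hpc' : (p'.card : ℝ) ≤ s + 1 := by exact_mod_cast (hpcard p' hpp').2
      have h1 : (t : ℝ) ≤ A'.card := by
        have : t ≤ a * t := Nat.le_mul_of_pos_left t ha
        exact_mod_cast this.trans hcA'
      have h2 : (t : ℝ) ≤ B'.card := by
        have : t ≤ c * t := Nat.le_mul_of_pos_left t hc
        exact_mod_cast this.trans hcB'
      have h3 := hGd p hpp p' hpp' hgd A' (hA'.trans hAp) B' (hB'.trans hBp')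
        (by
          calc ε * (p.card : ℝ) ≤ ε * (s + 1) := by gcongr
            _ ≤ A'.card := ht1.trans h1)
        (by
          calc ε * (p'.card : ℝ) ≤ ε * (s + 1) := by gcongr
            _ ≤ B'.card := ht1.trans h2)
      refine le_trans ?_ h3
      have h4 : δ * n / M ≤ s + 1 := le_trans (by gcongr) hs1
      have h5 : ε * (δ * n / M) ≤ t := le_trans (by gcongr) ht1
      have h6 : 0 ≤ ε * (δ * n / M) := by positivity
      calc η * (n : ℝ) ^ 2 = ε * ((ε * (δ * n / M)) * (ε * (δ * n / M))) := by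
            rw [hη]; field_simp
        _ ≤ ε * (A'.card * B'.card) := by
            gcongr
            · exact h5.trans h1
            · exact h5.trans h2
    choose! F hF1 hF2 hF3 using hF
    have hne2 : ∀ r : Finset ℕ × Finset ℕ, P r.1 r.2 → r.2.Nonempty := by
      intro r hr
      rw [← Finset.card_pos, (hP _ _ hr).2]
      exact hc
    have hdisB : ∀ p ∈ Mt, ∀ p' ∈ Mt, p ≠ p' → Disjoint p.1 p'.1 := by
      intro p hp p' hp' hne
      exact hUY2 (hM1 p hp).1 (hM1 p' hp').1 (fun h => hne (hM2 p hp p' hp' h))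
    have hdisA : ∀ p ∈ Mt, ∀ p' ∈ Mt, p ≠ p' → Disjoint p.2 p'.2 := by
      intro p hp p' hp' hne
      have h1 := (hM1 p hp).2
      have h2 := (hM1 p' hp').2
      rw [hNb, Finset.mem_filter] at h1 h2
      exact hUX2 h1.1 h2.1 (fun h => hne (hM3 p hp p' hp' h))
    have hAX : ∀ p ∈ Mt, p.2 ⊆ X := by
      intro p hp
      have h1 := (hM1 p hp).2
      rw [hNb, Finset.mem_filter] at h1
      exact (hUX1 _ h1.1).1
    have hBY : ∀ p ∈ Mt, p.1 ⊆ Y := fun p hp => (hUY1 _ (hM1 p hp).1).1
    refine ⟨Mt.biUnion F, ?_, ?_, ?_⟩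
    · intro r hr
      rw [Finset.mem_biUnion] at hr
      obtain ⟨p, hp, hr⟩ := hr
      have := hF1 p hp r hr
      exact ⟨this.1.trans (hAX p hp), this.2.1.trans (hBY p hp), this.2.2⟩
    · intro r hr r' hr' hne
      rw [Finset.mem_coe, Finset.mem_biUnion] at hr hr'
      obtain ⟨p, hp, hr⟩ := hr
      obtain ⟨p', hp', hr'⟩ := hr'
      by_cases hpp : p = p'
      · subst hpp
        exact hF2 p hp hr hr' hne
      · have h1 := hF1 p hp r hr
        have h2 := hF1 p' hp' r' hr'
        simp only [Function.onFun, Finset.disjoint_union_left, Finset.disjoint_union_right]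
        refine ⟨⟨?_, ?_⟩, ⟨?_, ?_⟩⟩
        · exact Finset.disjoint_of_subset_left h1.1
            (Finset.disjoint_of_subset_right h2.1 (hdisA p hp p' hp' hpp))
        · exact Finset.disjoint_of_subset_left (h1.2.1.trans (hBY p hp))
            (Finset.disjoint_of_subset_right (h2.1.trans (hAX p' hp')) hXY.symm)
        · exact Finset.disjoint_of_subset_left (h1.1.trans (hAX p hp))
            (Finset.disjoint_of_subset_right (h2.2.1.trans (hBY p' hp')) hXY)
        · exact Finset.disjoint_of_subset_left h1.2.1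
            (Finset.disjoint_of_subset_right h2.2.1 (hdisB p hp p' hp' hpp))
    · have hcardF : (Mt.biUnion F).card = Mt.card * (u - t) := by
        rw [Finset.card_biUnion]
        · rw [Finset.sum_congr rfl hF3, Finset.sum_const, smul_eq_mul]
        · intro p hp p' hp' hne
          change Disjoint (F p) (F p')
          rw [Finset.disjoint_left]
          intro r hr hr'
          have h1 := hF1 p hp r hr
          have h2 := hF1 p' hp' r hr'
          obtain ⟨x, hx⟩ := hne2 r h1.2.2
          exact (Finset.disjoint_left.mp (hdisB p hp p' hp' hne)) (h1.2.1 hx) (h2.2.1 hx)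
      rw [hcardF]
      push_cast [Nat.cast_sub htu']
      -- sizes
      have hYle : (Y.card : ℝ) ≤ c * u * UY.card + k * (c * u) := by
        have h1 : Y.card ≤ (UY.biUnion id).card + (Y \ UY.biUnion id).card := by
          have h := Finset.card_le_card (show Y ⊆ UY.biUnion id ∪ (Y \ UY.biUnion id) by
            intro x hx
            rw [Finset.mem_union, Finset.mem_sdiff]
            by_cases h : x ∈ UY.biUnion id
            · exact Or.inl h
            · exact Or.inr ⟨hx, h⟩)
          exact h.trans (Finset.card_union_le _ _)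
        have h2 : (UY.biUnion id).card ≤ UY.card * (c * u) :=
          Finset.card_biUnion_le_card_mul _ _ _ fun B hB => (hUY1 B hB).2.1.le
        have h3 : Y.card ≤ UY.card * (c * u) + k * (c * u) := h1.trans (add_le_add h2 hUY3)
        have h4 : (Y.card : ℝ) ≤ UY.card * (c * u) + k * (c * u) := by exact_mod_cast h3
        linarith
      have hMtY : (c * u : ℝ) * Mt.card ≤ n := by
        have h1 : (Mt.image Prod.fst).card = Mt.card := by
          apply Finset.card_image_of_injOn
          intro p hp p' hp' h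
          exact hM2 p hp p' hp' h
        have h2 : ((Mt.image Prod.fst).biUnion id).card = (Mt.image Prod.fst).card * (c * u) := by
          rw [Finset.card_biUnion]
          · rw [Finset.sum_congr rfl (fun B hB => ?_), Finset.sum_const, smul_eq_mul]
            rw [Finset.mem_image] at hB
            obtain ⟨p, hp, rfl⟩ := hB
            exact (hUY1 _ (hM1 p hp).1).2.1
          · intro B hB B' hB' hne
            rw [Finset.mem_coe, Finset.mem_image] at hB hB'
            obtain ⟨p, hp, rfl⟩ := hB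
            obtain ⟨p', hp', rfl⟩ := hB'
            exact hUY2 (hM1 p hp).1 (hM1 p' hp').1 hne
        have h3 : ((Mt.image Prod.fst).biUnion id) ⊆ Y := by
          intro x hx
          rw [Finset.mem_biUnion] at hx
          obtain ⟨B, hB, hx⟩ := hx
          rw [Finset.mem_image] at hB
          obtain ⟨p, hp, rfl⟩ := hB
          exact hBY p hp hx
        have h4 := Finset.card_le_card h3
        rw [h2, h1] at h4
        have h5 : Mt.card * (c * u) ≤ n := by omega
        have h6 : (Mt.card : ℝ) * (c * u) ≤ n := by exact_mod_cast h5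
        linarith
      have hM4r : (UY.card : ℝ) ≤ Mt.card + D := by exact_mod_cast hM4
      have e1 : (c * u : ℝ) * UY.card ≤ c * u * Mt.card + (d + c * u) := by
        calc (c * u : ℝ) * UY.card ≤ (c * u) * (Mt.card + D) := by gcongr
          _ = c * u * Mt.card + c * u * D := by ring
          _ ≤ c * u * Mt.card + (d + c * u) := by gcongr
      -- error terms, multiplied by q
      have e2 : (c * Mt.card * t : ℝ) * q ≤ 8 * n := by
        calc (c * Mt.card * t : ℝ) * q = c * Mt.card * (t * q) := by ring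
          _ ≤ c * Mt.card * (8 * u) := by gcongr
          _ = 8 * (c * u * Mt.card) := by ring
          _ ≤ 8 * n := by gcongr
      have e3 : (k * (c * u) : ℝ) * q ≤ c * n := by
        calc (k * (c * u) : ℝ) * q = c * (k * u * q) := by ring
          _ ≤ c * n := by gcongr
      have e4 : (c * u : ℝ) * q ≤ c * n := by
        calc (c * u : ℝ) * q = c * (u * q) := by ring
          _ ≤ c * n := by gcongr
      have e5 : ((c * Mt.card * t : ℝ) + k * (c * u) + c * u) * q ≤ δ * n * q := by
        calc ((c * Mt.card * t : ℝ) + k * (c * u) + c * u) * q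
            = (c * Mt.card * t : ℝ) * q + (k * (c * u) : ℝ) * q + (c * u : ℝ) * q := by ring
          _ ≤ 8 * n + c * n + c * n := by gcongr
          _ = (8 + 2 * c) * n := by ring
          _ ≤ (δ * q) * n := by
              gcongr
              linarith
          _ = δ * n * q := by ring
      have e6 := le_of_mul_le_mul_right e5 hqpos
      have e7 : (c : ℝ) * (Mt.card * (u - t)) = c * u * Mt.card - c * Mt.card * t := by ring
      rw [e7]
      linarith
  · right
    have hXc : ∀ T : Finset (Finset ℕ), T ⊆ UX → (T.biUnion id).card = T.card * (a * u) := by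
      intro T hT
      rw [Finset.card_biUnion]
      · rw [Finset.sum_congr rfl (fun A hA => ?_), Finset.sum_const, smul_eq_mul]
        exact (hUX1 A (hT hA)).2.1
      · intro A hA A' hA' hne
        exact hUX2 (hT hA) (hT hA') hne
    have hYc : ∀ T : Finset (Finset ℕ), T ⊆ UY → (T.biUnion id).card = T.card * (c * u) := by
      intro T hT
      rw [Finset.card_biUnion]
      · rw [Finset.sum_congr rfl (fun A hA => ?_), Finset.sum_const, smul_eq_mul]
        exact (hUY1 A (hT hA)).2.1
      · intro A hA A' hA' hne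
        exact hUY2 (hT hA) (hT hA') hne
    have hNS : S.biUnion Nb ⊆ UX := by
      intro A hA
      rw [Finset.mem_biUnion] at hA
      obtain ⟨B, _, hA⟩ := hA
      exact (Finset.mem_filter.mp hA).1
    refine ⟨(S.biUnion Nb).biUnion id, ?_, S.biUnion id, ?_, ?_, ?_⟩
    · intro x hx
      rw [Finset.mem_biUnion] at hx
      obtain ⟨A, hA, hx⟩ := hx
      exact (hUX1 A (hNS hA)).1 hx
    · intro x hx
      rw [Finset.mem_biUnion] at hx
      obtain ⟨B, hB, hx⟩ := hx
      exact (hUY1 B (hS1 hB)).1 hx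
    · rw [hXc _ hNS, hYc _ hS1]
      push_cast
      have h1 : ((S.biUnion Nb).card : ℝ) + D ≤ S.card := by exact_mod_cast hS2.le
      have h2 : (c / a : ℝ) * ((S.biUnion Nb).card * (a * u)) = c * u * (S.biUnion Nb).card := by
        field_simp
      rw [h2]
      calc d ≤ c * u * D := hD1
        _ ≤ c * u * (S.card - (S.biUnion Nb).card) := by
            gcongr
            linarith
        _ = S.card * (c * u) - c * u * (S.biUnion Nb).card := by ring
    · set X' := (S.biUnion Nb).biUnion id with hX'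
      set Y' := S.biUnion id with hY'
      set L := X \ UX.biUnion id with hL
      set E := ((X \ X') ×ˢ Y').filter (fun p => G.Adj p.1 p.2) with hE
      have hec : ecount G (X \ X') Y' = E.card := by
        unfold ecount
        rw [hE]
      set W := E.filter (fun xy => xy.1 ∉ L) with hW
      have hEsub : E ⊆ (L ×ˢ Y) ∪ W := by
        intro xy hxy
        rw [Finset.mem_union]
        by_cases hl : xy.1 ∈ L
        · left
          rw [Finset.mem_product]
          refine ⟨hl, ?_⟩
          rw [hE, Finset.mem_filter, Finset.mem_product] at hxy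
          have := hxy.1.2
          rw [hY', Finset.mem_biUnion] at this
          obtain ⟨B, hB, hx⟩ := this
          exact (hUY1 B (hS1 hB)).1 hx
        · right
          rw [hW, Finset.mem_filter]
          exact ⟨hxy, hl⟩
      have hWc := hrem W (by
        intro xy hxy
        rw [hW, Finset.mem_filter, hE, Finset.mem_filter, Finset.mem_product] at hxy
        obtain ⟨⟨⟨hx, hy⟩, hadj⟩, hxL⟩ := hxy
        rw [Finset.mem_sdiff] at hx
        have hyB := hy
        rw [hY', Finset.mem_biUnion] at hyB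
        obtain ⟨B, hB, hyB⟩ := hyB
        simp only [id] at hyB
        have hxA : xy.1 ∈ UX.biUnion id := by
          by_contra hcon
          exact hxL (Finset.mem_sdiff.mpr ⟨hx.1, hcon⟩)
        rw [Finset.mem_biUnion] at hxA
        obtain ⟨A, hA, hxA⟩ := hxA
        simp only [id] at hxA
        refine ⟨hXV hx.1, hYV ((hUY1 B (hS1 hB)).1 hyB), hadj, ?_⟩
        rintro ⟨p, hp, p', hp', hgd, hxp, hyp'⟩
        obtain ⟨_, _, p₁, hp₁, hAp₁⟩ := hUX1 A hA
        obtain ⟨_, _, p₂, hp₂, hBp₂⟩ := hUY1 B (hS1 hB)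
        have e1 : p₁ = p := by
          by_contra hne
          exact (Finset.disjoint_left.mp (hpdis hp₁ hp hne)) (hAp₁ hxA) hxp
        have e2 : p₂ = p' := by
          by_contra hne
          exact (Finset.disjoint_left.mp (hpdis hp₂ hp' hne)) (hBp₂ hyB) hyp'
        subst e1
        subst e2
        apply hx.2
        rw [hX', Finset.mem_biUnion]
        refine ⟨A, ?_, hxA⟩
        rw [Finset.mem_biUnion]
        refine ⟨B, hB, ?_⟩
        rw [hNb, Finset.mem_filter]
        exact ⟨hA, p₁, hp, p₂, hp', hgd, hAp₁, hBp₂⟩)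
      rw [hec]
      have h1 : E.card ≤ L.card * Y.card + W.card := by
        refine (Finset.card_le_card hEsub).trans ((Finset.card_union_le _ _).trans ?_)
        rw [Finset.card_product]
      have h2 : (L.card : ℝ) * q ≤ a * n := by
        have : (L.card : ℝ) ≤ k * (a * u) := by exact_mod_cast hUX3
        calc (L.card : ℝ) * q ≤ k * (a * u) * q := by gcongr
          _ = a * (k * u * q) := by ring
          _ ≤ a * n := by gcongr
      have hYn : (Y.card : ℝ) ≤ n := by
        have : Y.card ≤ n := by omega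
        exact_mod_cast this
      have h3 : (E.card : ℝ) ≤ L.card * Y.card + 16 * ε * (N : ℝ) ^ 2 := by
        have : (E.card : ℝ) ≤ L.card * Y.card + W.card := by exact_mod_cast h1
        linarith
      have h4 : (L.card * Y.card : ℝ) * q ≤ a * n * n := by
        calc (L.card * Y.card : ℝ) * q = (L.card * q) * Y.card := by ring
          _ ≤ (a * n) * n := by gcongr
      have h5 : 16 * ε * (N : ℝ) ^ 2 * q ≤ 2 * n * n := by
        have hεq' : ε * q ≤ 1 / 8 := by
          have h7 : ε * q * q = 1 := by rw [← hεq]; ring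
          have h8 : ε * q * 8 ≤ ε * q * q := by gcongr
          linarith
        calc 16 * ε * (N : ℝ) ^ 2 * q = 16 * (ε * q) * (N : ℝ) ^ 2 := by ring
          _ ≤ 16 * (1 / 8) * (n : ℝ) ^ 2 := by gcongr
          _ = 2 * n * n := by ring
      have h6 : (E.card : ℝ) * q ≤ (δ * (n : ℝ) ^ 2) * q := by
        calc (E.card : ℝ) * q ≤ (L.card * Y.card + 16 * ε * (N : ℝ) ^ 2) * q := by gcongr
          _ = (L.card * Y.card : ℝ) * q + 16 * ε * (N : ℝ) ^ 2 * q := by ring
          _ ≤ a * n * n + 2 * n * n := by gcongr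
          _ = (a + 2) * (n : ℝ) ^ 2 := by ring
          _ ≤ (δ * q) * (n : ℝ) ^ 2 := by
              gcongr
              linarith
          _ = (δ * (n : ℝ) ^ 2) * q := by ring
      exact le_of_mul_le_mul_right h6 hqpos

end Pool.Agent.RamseyFactor
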