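import Mathlib
import Pool.Agent.Work.MP_8cf4b7_co.Ramsey

/-!
Complete bipartite subgraphs in dense bipartite graphs.
-/

open Filter
open scoped ENNReal NNReal

namespace Pool.Agent.RamseyFactor

open Classical in
lemma ecount_eq_sum_right (G : SimpleGraph ℕ) (X Y : Finset ℕ) :
    ecount G X Y = ∑ y ∈ Y, (X.filter (fun x => G.Adj x y)).card := by
  unfold ecount
  rw [Finset.card_filter, Finset.sum_product_right]
  apply Finset.sum_congr rfl
  intro y _
  rw [Finset.card_filter]

open Classical in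
lemma ecount_eq_sum_left (G : SimpleGraph ℕ) (X Y : Finset ℕ) :
    ecount G X Y = ∑ x ∈ X, (Y.filter (fun y => G.Adj x y)).card := by
  unfold ecount
  rw [Finset.card_filter, Finset.sum_product]
  apply Finset.sum_congr rfl
  intro y _
  rw [Finset.card_filter]

lemma ecount_mono {G : SimpleGraph ℕ} {X X' Y Y' : Finset ℕ} (hX : X ⊆ X') (hY : Y ⊆ Y') :
    ecount G X Y ≤ ecount G X' Y' := by
  classical
  unfold ecount
  apply Finset.card_le_card
  exact Finset.filter_subset_filter _ (Finset.product_subset_product hX hY)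

/-- Every pair of disjoint sets: red and blue edges between them are all pairs. -/
lemma ecount_add_compl (G : SimpleGraph ℕ) {X Y : Finset ℕ} (h : Disjoint X Y) :
    ecount G X Y + ecount Gᶜ X Y = X.card * Y.card := by
  classical
  unfold ecount
  rw [← Finset.card_product, ← Finset.card_filter_add_card_filter_not (s := X ×ˢ Y)
    (fun p : ℕ × ℕ => G.Adj p.1 p.2)]
  congr 1
  congr 1
  ext ⟨x, y⟩
  simp only [Finset.mem_filter, Finset.mem_product, SimpleGraph.compl_adj]
  constructor
  · exact fun h => ⟨h.1, h.2.2⟩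
  · rintro ⟨hp, h'⟩
    refine ⟨hp, ?_, h'⟩
    rintro rfl
    exact Finset.disjoint_left.mp h hp.1 hp.2

lemma ecount_comm (G : SimpleGraph ℕ) (X Y : Finset ℕ) : ecount G X Y = ecount G Y X := by
  classical
  rw [ecount_eq_sum_left, ecount_eq_sum_right]
  apply Finset.sum_congr rfl
  intro x _
  simp only [G.adj_comm]

open Classical in
lemma kst_aux (G : SimpleGraph ℕ) (X Y : Finset ℕ) (n : ℕ) (hX : X.card ≤ n) (hY : Y.Nonempty)
    (θ : ℝ) (hθ : 0 < θ) (hdeg : ∀ y ∈ Y, θ * n ≤ ((X.filter (fun x => G.Adj x y)).card : ℝ)) :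
    ∀ m : ℕ, (m : ℝ) ≤ θ * n / 2 → ∃ A ⊆ X, A.card = m ∧ ∃ Y' ⊆ Y,
      (θ / 2) ^ m * (Y.card : ℝ) ≤ (Y'.card : ℝ) ∧ ∀ x ∈ A, ∀ y ∈ Y', G.Adj x y := by
  intro m
  induction m with
  | zero =>
    intro _
    exact ⟨∅, by simp, by simp, Y, subset_rfl, by simp, by simp⟩
  | succ m ih =>
    intro hm
    push_cast at hm
    obtain ⟨A, hA, hAc, Y', hY', hc, hadj⟩ := ih (by linarith)
    have hYpos : (0 : ℝ) < Y.card := by exact_mod_cast hY.card_pos
    have hY'pos : (0 : ℝ) < Y'.card := lt_of_lt_of_le (by positivity) hc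
    have hn : (0 : ℝ) < n := by
      by_contra h
      have : (n : ℝ) = 0 := le_antisymm (not_lt.mp h) (Nat.cast_nonneg n)
      rw [this] at hm
      have : (0 : ℝ) ≤ m := Nat.cast_nonneg m
      linarith
    -- degrees to `X \ A`
    have hd : ∀ y ∈ Y', θ * n / 2 ≤ (((X \ A).filter (fun x => G.Adj x y)).card : ℝ) := by
      intro y hy
      have h1 := hdeg y (hY' hy)
      have h2 : (X.filter (fun x => G.Adj x y)).card ≤
          ((X \ A).filter (fun x => G.Adj x y)).card + A.card := by
        rw [← Finset.card_sdiff_add_card_eq_card (s := (X.filter (fun x => G.Adj x y)) ∩ A)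
          (t := X.filter (fun x => G.Adj x y)) Finset.inter_subset_left]
        apply add_le_add
        · apply Finset.card_le_card
          intro x hx
          simp only [Finset.mem_sdiff, Finset.mem_filter, Finset.mem_inter] at hx ⊢
          tauto
        · exact Finset.card_le_card Finset.inter_subset_right
      have h3 : ((X.filter (fun x => G.Adj x y)).card : ℝ) ≤
          ((X \ A).filter (fun x => G.Adj x y)).card + A.card := by exact_mod_cast h2
      rw [hAc] at h3
      linarith
    have hsum : (θ * n / 2) * Y'.card ≤ (ecount G (X \ A) Y' : ℝ) := by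
      rw [ecount_eq_sum_right]
      push_cast
      calc (θ * n / 2) * Y'.card = ∑ y ∈ Y', θ * n / 2 := by
            rw [Finset.sum_const, nsmul_eq_mul, mul_comm]
        _ ≤ _ := Finset.sum_le_sum hd
    obtain ⟨x, hx, hxd⟩ : ∃ x ∈ X \ A, θ / 2 * Y'.card ≤
        ((Y'.filter (fun y => G.Adj x y)).card : ℝ) := by
      by_contra hcon
      push Not at hcon
      rw [ecount_eq_sum_left] at hsum
      push_cast at hsum
      have hne : (X \ A).Nonempty := by
        by_contra hne
        rw [Finset.not_nonempty_iff_eq_empty] at hne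
        rw [hne, Finset.sum_empty] at hsum
        have : 0 < (θ * n / 2) * Y'.card := by positivity
        linarith
      have h4 : ∑ x ∈ X \ A, ((Y'.filter (fun y => G.Adj x y)).card : ℝ) <
          ∑ x ∈ X \ A, θ / 2 * (Y'.card : ℝ) := Finset.sum_lt_sum_of_nonempty hne hcon
      rw [Finset.sum_const, nsmul_eq_mul] at h4
      have h5 : (((X \ A).card : ℕ) : ℝ) ≤ n := by
        exact_mod_cast (Finset.card_le_card Finset.sdiff_subset).trans hX
      have h6 : ((X \ A).card : ℝ) * (θ / 2 * Y'.card) ≤ n * (θ / 2 * Y'.card) :=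
        mul_le_mul_of_nonneg_right h5 (by positivity)
      have h7 : (n : ℝ) * (θ / 2 * Y'.card) = θ * n / 2 * Y'.card := by ring
      linarith
    rw [Finset.mem_sdiff] at hx
    refine ⟨insert x A, ?_, ?_, Y'.filter (fun y => G.Adj x y), ?_, ?_, ?_⟩
    · exact Finset.insert_subset hx.1 hA
    · rw [Finset.card_insert_of_notMem hx.2, hAc]
    · exact (Finset.filter_subset _ _).trans hY'
    · calc (θ / 2) ^ (m + 1) * (Y.card : ℝ) = θ / 2 * ((θ / 2) ^ m * Y.card) := by ring
        _ ≤ θ / 2 * Y'.card := mul_le_mul_of_nonneg_left hc (by positivity)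
        _ ≤ _ := hxd
    · intro z hz y hy
      rw [Finset.mem_filter] at hy
      rcases Finset.mem_insert.mp hz with rfl | hz
      · exact hy.2
      · exact hadj z hz y hy.1

/-- A dense bipartite graph contains a complete bipartite graph. -/
theorem kst (M c : ℕ) (η : ℝ) (hη : 0 < η) : ∃ n₀ : ℕ, ∀ n ≥ n₀, ∀ (G : SimpleGraph ℕ)
    (X Y : Finset ℕ), X.card ≤ n → Y.card ≤ n → η * (n : ℝ) ^ 2 ≤ (ecount G X Y : ℝ) →
    ∃ A ⊆ X, A.card = M ∧ ∃ C ⊆ Y, C.card = c ∧ ∀ x ∈ A, ∀ y ∈ C, G.Adj x y := by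
  classical
  obtain ⟨n1, hn1⟩ := exists_nat_gt ((4 * M + 4) / η)
  obtain ⟨n2, hn2⟩ := exists_nat_gt ((c : ℝ) / ((η / 4) ^ M * (η / 2)))
  refine ⟨max n1 n2, fun n hn G X Y hX hY he => ?_⟩
  have hn1' : (4 * M + 4) / η < n := hn1.trans_le (by exact_mod_cast (le_max_left _ _).trans hn)
  have hn2' : (c : ℝ) / ((η / 4) ^ M * (η / 2)) < n :=
    hn2.trans_le (by exact_mod_cast (le_max_right _ _).trans hn)
  rw [div_lt_iff₀ hη] at hn1'
  rw [div_lt_iff₀ (by positivity)] at hn2'
  have hMn : (0 : ℝ) ≤ M := Nat.cast_nonneg M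
  have hnpos : (0 : ℝ) < n := by
    by_contra h
    have : (n : ℝ) = 0 := le_antisymm (not_lt.mp h) (Nat.cast_nonneg n)
    rw [this] at hn1'
    linarith
  set Y1 := Y.filter (fun y => η / 2 * n ≤ ((X.filter (fun x => G.Adj x y)).card : ℝ)) with hY1
  have hcount : (ecount G X Y : ℝ) ≤ Y1.card * n + n * (η / 2 * n) := by
    rw [ecount_eq_sum_right]
    push_cast
    rw [← Finset.sum_filter_add_sum_filter_not Y
      (fun y => η / 2 * n ≤ ((X.filter (fun x => G.Adj x y)).card : ℝ))]
    apply add_le_add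
    · calc _ ≤ ∑ y ∈ Y1, (n : ℝ) := by
            apply Finset.sum_le_sum
            intro y _
            exact_mod_cast (Finset.card_filter_le _ _).trans hX
        _ = Y1.card * n := by rw [Finset.sum_const, nsmul_eq_mul]
    · calc _ ≤ ∑ y ∈ Y.filter (fun y => ¬ (η / 2 * n ≤
            ((X.filter (fun x => G.Adj x y)).card : ℝ))), η / 2 * n := by
            apply Finset.sum_le_sum
            intro y hy
            exact (not_le.mp (Finset.mem_filter.mp hy).2).le
        _ = (Y.filter (fun y => ¬ (η / 2 * n ≤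
            ((X.filter (fun x => G.Adj x y)).card : ℝ)))).card * (η / 2 * n) := by
            rw [Finset.sum_const, nsmul_eq_mul]
        _ ≤ n * (η / 2 * n) := by
            apply mul_le_mul_of_nonneg_right _ (by positivity)
            exact_mod_cast (Finset.card_filter_le _ _).trans hY
  have hY1c : η / 2 * n ≤ Y1.card := by
    have h1 : η / 2 * n * n ≤ Y1.card * n := by nlinarith
    exact le_of_mul_le_mul_right h1 hnpos
  have hY1ne : Y1.Nonempty := by
    rw [← Finset.card_pos]
    have : (0 : ℝ) < Y1.card := lt_of_lt_of_le (by positivity) hY1c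
    exact_mod_cast this
  obtain ⟨A, hA, hAc, Y', hY', hc, hadj⟩ := kst_aux G X Y1 n hX hY1ne (η / 2) (by positivity)
    (fun y hy => (Finset.mem_filter.mp hy).2) M (by linarith)
  have hcY' : c ≤ Y'.card := by
    have h1 : (c : ℝ) ≤ Y'.card := by
      calc (c : ℝ) ≤ n * ((η / 4) ^ M * (η / 2)) := hn2'.le
        _ = (η / 2 / 2) ^ M * (η / 2 * n) := by
          rw [show η / 2 / 2 = η / 4 by ring]
          ring
        _ ≤ (η / 2 / 2) ^ M * Y1.card := mul_le_mul_of_nonneg_left hY1c (by positivity)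
        _ ≤ Y'.card := hc
    exact_mod_cast h1
  obtain ⟨C, hC, hCc⟩ := Finset.exists_subset_card_eq hcY'
  exact ⟨A, hA, hAc, C, hC.trans (hY'.trans (Finset.filter_subset _ _)), hCc,
    fun x hx y hy => hadj x hx y (hC hy)⟩

end Pool.Agent.RamseyFactor
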