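import Mathlib
import Pool.Agent.Work.MP_8cf4b7_co.Defs

/-!
The optimisation problem: compactness and the path construction.
-/

open Filter Topology
open scoped ENNReal NNReal

namespace Pool.Agent.RamseyFactor

/-- Compactness: if `θ < h(γ)` then every path violates the bound `θ` on a bounded window. -/
theorem compact_h (γ θ : ℝ) (hθ : 0 ≤ θ) (h : ENNReal.ofReal θ < hfun γ) :
    ∃ K : ℝ, 1 ≤ K ∧ ∃ ε : ℝ, 0 < ε ∧ ∀ g : ℝ≥0 → ℝ, LipschitzWith 1 g → g 0 = 0 →
      ∃ τ : ℝ, 1 ≤ τ ∧ τ ≤ K ∧ ∀ x y : ℝ≥0, τ ≤ γ * x + g x → τ ≤ γ * y - g y →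
        θ * τ + ε < x + y := by
  by_contra hcon
  push Not at hcon
  have h1 : ∀ j : ℕ, ∃ g : ℝ≥0 → ℝ, LipschitzWith 1 g ∧ g 0 = 0 ∧ ∀ τ : ℝ, 1 ≤ τ → τ ≤ j + 1 →
      ∃ x y : ℝ≥0, τ ≤ γ * x + g x ∧ τ ≤ γ * y - g y ∧ (x : ℝ) + y ≤ θ * τ + 1 / ((j : ℝ) + 1) := by
    intro j
    have hj : (0 : ℝ) ≤ j := Nat.cast_nonneg j
    obtain ⟨g, hg1, hg2, hg3⟩ := hcon ((j : ℝ) + 1) (by linarith) (1 / ((j : ℝ) + 1)) (by positivity)
    exact ⟨g, hg1, hg2, hg3⟩
  choose gs hgL hg0 hgτ using h1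
  set U : Ultrafilter ℕ := hyperfilter ℕ with hU
  have hUle : (U : Filter ℕ) ≤ atTop := Nat.hyperfilter_le_atTop
  -- bounds
  have hbd : ∀ j x, |gs j x| ≤ x := by
    intro j x
    have := (hgL j).dist_le_mul x 0
    rw [hg0, Real.dist_eq, sub_zero, NNReal.dist_eq] at this
    simpa using this
  have hlim : ∀ x : ℝ≥0, ∃ z : ℝ, Tendsto (fun j => gs j x) U (𝓝 z) := by
    intro x
    have hK : IsCompact (Set.Icc (-(x : ℝ)) x) := isCompact_Icc
    have h2 : ((U.map (fun j => gs j x) : Ultrafilter ℝ) : Filter ℝ) ≤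
        𝓟 (Set.Icc (-(x : ℝ)) x) := by
      rw [Ultrafilter.coe_map, le_principal_iff, mem_map]
      apply Filter.univ_mem'
      intro j
      exact abs_le.mp (hbd j x)
    obtain ⟨z, _, hz⟩ := hK.ultrafilter_le_nhds _ h2
    exact ⟨z, hz⟩
  choose g hg using hlim
  have hgLip : LipschitzWith 1 g := by
    apply LipschitzWith.of_dist_le_mul
    intro x y
    have h2 : Tendsto (fun j => dist (gs j x) (gs j y)) U (𝓝 (dist (g x) (g y))) :=
      (hg x).dist (hg y)
    exact le_of_tendsto h2 (Eventually.of_forall fun j => (hgL j).dist_le_mul x y)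
  have hg00 : g 0 = 0 := by
    have h2 : Tendsto (fun j => gs j 0) U (𝓝 0) := by
      simp only [hg0]
      exact tendsto_const_nhds
    exact tendsto_nhds_unique (hg 0) h2
  have hdiv : Tendsto (fun j : ℕ => 1 / ((j : ℝ) + 1)) U (𝓝 0) :=
    tendsto_one_div_add_atTop_nhds_zero_nat.mono_left hUle
  have key : ∀ τ : ℝ, 1 ≤ τ → ∃ x y : ℝ≥0, τ ≤ γ * x + g x ∧ τ ≤ γ * y - g y ∧
      (x : ℝ) + y ≤ θ * τ := by
    intro τ hτ
    have hev : ∀ᶠ j : ℕ in U, τ ≤ (j : ℝ) + 1 := by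
      apply hUle
      obtain ⟨N, hN⟩ := exists_nat_ge τ
      filter_upwards [eventually_ge_atTop N] with j hj
      have : (N : ℝ) ≤ j := by exact_mod_cast hj
      linarith
    have hch : ∀ j : ℕ, ∃ x y : ℝ≥0, τ ≤ (j : ℝ) + 1 → (τ ≤ γ * x + gs j x ∧
        τ ≤ γ * y - gs j y ∧ (x : ℝ) + y ≤ θ * τ + 1 / ((j : ℝ) + 1)) := by
      intro j
      by_cases hj : τ ≤ (j : ℝ) + 1
      · obtain ⟨x, y, h3⟩ := hgτ j τ hτ hj
        exact ⟨x, y, fun _ => h3⟩
      · exact ⟨0, 0, fun h => absurd h hj⟩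
    choose xs ys hxy using hch
    -- limits
    have hB : ∀ᶠ j : ℕ in U, (xs j : ℝ) + ys j ≤ θ * τ + 1 := by
      filter_upwards [hev] with j hj
      refine (hxy j hj).2.2.trans ?_
      have : 1 / ((j : ℝ) + 1) ≤ 1 := by
        rw [div_le_one (by positivity)]
        have : (0 : ℝ) ≤ j := Nat.cast_nonneg j
        linarith
      linarith
    have hlim2 : ∀ zs : ℕ → ℝ≥0, (∀ᶠ j : ℕ in U, (zs j : ℝ) ≤ θ * τ + 1) →
        ∃ z : ℝ≥0, Tendsto zs U (𝓝 z) := by
      intro zs hzs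
      have hK : IsCompact (Set.Icc (0 : ℝ≥0) (θ * τ + 1).toNNReal) := isCompact_Icc
      have h2 : ((U.map zs : Ultrafilter ℝ≥0) : Filter ℝ≥0) ≤
          𝓟 (Set.Icc (0 : ℝ≥0) (θ * τ + 1).toNNReal) := by
        rw [Ultrafilter.coe_map, le_principal_iff, mem_map]
        filter_upwards [hzs] with j hj
        refine ⟨zero_le, ?_⟩
        exact NNReal.le_toNNReal_of_coe_le hj
      obtain ⟨z, _, hz⟩ := hK.ultrafilter_le_nhds _ h2
      exact ⟨z, hz⟩
    obtain ⟨x, hx⟩ := hlim2 xs (by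
      filter_upwards [hB] with j hj
      have : (0 : ℝ) ≤ ys j := NNReal.coe_nonneg _
      linarith)
    obtain ⟨y, hy⟩ := hlim2 ys (by
      filter_upwards [hB] with j hj
      have : (0 : ℝ) ≤ xs j := NNReal.coe_nonneg _
      linarith)
    have hconv : ∀ (zs : ℕ → ℝ≥0) (z : ℝ≥0), Tendsto zs U (𝓝 z) →
        Tendsto (fun j => gs j (zs j)) U (𝓝 (g z)) := by
      intro zs z hz
      have h3 : Tendsto (fun j => dist (zs j) z) U (𝓝 0) := tendsto_iff_dist_tendsto_zero.mp hz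
      have h4 : Tendsto (fun j => dist (gs j z) (g z)) U (𝓝 0) :=
        tendsto_iff_dist_tendsto_zero.mp (hg z)
      have h5 : Tendsto (fun j => dist (zs j) z + dist (gs j z) (g z)) U (𝓝 0) := by
        have := h3.add h4
        rwa [add_zero] at this
      apply tendsto_iff_dist_tendsto_zero.mpr
      refine squeeze_zero (fun j => dist_nonneg) (fun j => ?_) h5
      refine (dist_triangle _ (gs j z) _).trans ?_
      have := (hgL j).dist_le_mul (zs j) z
      rw [NNReal.coe_one, one_mul] at this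
      linarith
    have hxc : Tendsto (fun j => (xs j : ℝ)) U (𝓝 (x : ℝ)) := (NNReal.tendsto_coe.mpr hx)
    have hyc : Tendsto (fun j => (ys j : ℝ)) U (𝓝 (y : ℝ)) := (NNReal.tendsto_coe.mpr hy)
    refine ⟨x, y, ?_, ?_, ?_⟩
    · refine ge_of_tendsto ((hxc.const_mul γ).add (hconv xs x hx)) ?_
      filter_upwards [hev] with j hj
      exact (hxy j hj).1
    · refine ge_of_tendsto ((hyc.const_mul γ).sub (hconv ys y hy)) ?_
      filter_upwards [hev] with j hj
      exact (hxy j hj).2.1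
    · have h6 : Tendsto (fun j : ℕ => θ * τ + 1 / ((j : ℝ) + 1)) U (𝓝 (θ * τ + 0)) :=
        hdiv.const_add _
      rw [add_zero] at h6
      refine le_of_tendsto_of_tendsto (hxc.add hyc) h6 ?_
      filter_upwards [hev] with j hj
      exact (hxy j hj).2.2
  -- conclusion
  have hle : hfun γ ≤ ENNReal.ofReal θ := by
    unfold hfun
    refine iInf_le_of_le g (iInf_le_of_le hgLip (iInf_le_of_le hg00 ?_))
    apply limsup_le_of_le (by isBoundedDefault)
    filter_upwards [eventually_ge_atTop (1 : ℝ)] with t ht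
    obtain ⟨x, y, h2, h3, h4⟩ := key t ht
    have h5 : Gam γ g t ≤ (x : ℝ≥0∞) := iInf_le_of_le x (iInf_le_of_le h2 le_rfl)
    have h6 : Gam γ (fun x => - g x) t ≤ (y : ℝ≥0∞) :=
      iInf_le_of_le y (iInf_le_of_le (by linarith) le_rfl)
    rw [ENNReal.div_le_iff_le_mul (Or.inl (by
      rw [Ne, ENNReal.ofReal_eq_zero]; linarith)) (Or.inl ENNReal.ofReal_ne_top),
      ← ENNReal.ofReal_mul hθ]
    refine (add_le_add h5 h6).trans ?_
    rw [← ENNReal.coe_add, ← ENNReal.ofReal_coe_nnreal]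
    apply ENNReal.ofReal_le_ofReal
    push_cast
    exact h4
  exact absurd h (not_lt.mpr hle)

/-- Scaled version of compactness. -/
theorem compact_h_scaled (γ θ : ℝ) (hθ : 0 ≤ θ) (h : ENNReal.ofReal θ < hfun γ) :
    ∃ K : ℝ, 1 ≤ K ∧ ∃ ε : ℝ, 0 < ε ∧ ∀ c : ℝ≥0, 0 < c → ∀ g : ℝ≥0 → ℝ, LipschitzWith 1 g →
      g 0 = 0 → ∃ τ : ℝ, c ≤ τ ∧ τ ≤ K * c ∧ ∀ x y : ℝ≥0, τ ≤ γ * x + g x → τ ≤ γ * y - g y →
        θ * τ + ε * c < x + y := by
  obtain ⟨K, hK, ε, hε, H⟩ := compact_h γ θ hθ h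
  refine ⟨K, hK, ε, hε, fun c hc g hg hg0 => ?_⟩
  have hc' : (0 : ℝ) < c := by exact_mod_cast hc
  set g' : ℝ≥0 → ℝ := fun x => g (c * x) / c with hg'
  have hL : LipschitzWith 1 g' := by
    apply LipschitzWith.of_dist_le_mul
    intro x y
    have h1 := hg.dist_le_mul (c * x) (c * y)
    rw [NNReal.coe_one, one_mul] at h1 ⊢
    rw [hg', Real.dist_eq, ← sub_div, abs_div, abs_of_pos hc', div_le_iff₀ hc']
    rw [Real.dist_eq] at h1
    refine h1.trans (le_of_eq ?_)
    rw [NNReal.dist_eq, NNReal.dist_eq, NNReal.coe_mul, NNReal.coe_mul, ← mul_sub, abs_mul,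
      abs_of_pos hc', mul_comm]
  have h0 : g' 0 = 0 := by simp [hg', hg0]
  obtain ⟨τ, h1, h2, h3⟩ := H g' hL h0
  refine ⟨c * τ, by nlinarith, by nlinarith, fun x y hx hy => ?_⟩
  have hcc : c * (x / c) = x := by
    rw [mul_div_assoc', mul_div_cancel_left₀ _ hc.ne']
  have hcc' : c * (y / c) = y := by
    rw [mul_div_assoc', mul_div_cancel_left₀ _ hc.ne']
  have h4 := h3 (x / c) (y / c) (by
    simp only [hg', hcc]
    rw [NNReal.coe_div, mul_div_assoc', ← add_div, le_div_iff₀ hc', mul_comm]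
    exact hx) (by
    simp only [hg', hcc']
    rw [NNReal.coe_div, mul_div_assoc', ← sub_div, le_div_iff₀ hc', mul_comm]
    exact hy)
  rw [NNReal.coe_div, NNReal.coe_div, ← add_div, lt_div_iff₀ hc'] at h4
  linarith

/-- The staircase path: smallest monotone path above finitely many quadrants. -/
lemma exists_stair (S : Finset ℕ) (b r : ℕ → ℝ) (hr : ∀ s ∈ S, 0 ≤ r s) :
    ∃ B : ℝ≥0 → ℝ, B 0 = 0 ∧ (∀ x y : ℝ≥0, x ≤ y → B x ≤ B y ∧ B y ≤ B x + ((y : ℝ) - x)) ∧
      (∀ s ∈ S, ∀ x : ℝ≥0, min (b s) (x - r s) ≤ B x) ∧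
      (∀ x : ℝ≥0, ∀ z : ℝ, 0 ≤ z → (∀ s ∈ S, min (b s) (x - r s) ≤ z) → B x ≤ z) := by
  classical
  induction S using Finset.induction_on with
  | empty =>
    refine ⟨fun _ => 0, rfl, fun x y hxy => ⟨le_rfl, ?_⟩, by simp, fun x z hz _ => hz⟩
    have : (x : ℝ) ≤ y := by exact_mod_cast hxy
    linarith
  | insert s S hs ih =>
    obtain ⟨B, hB0, hBm, hBs, hBz⟩ := ih (fun t ht => hr t (Finset.mem_insert_of_mem ht))
    refine ⟨fun x => max (B x) (min (b s) (x - r s)), ?_, ?_, ?_, ?_⟩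
    · simp only [hB0]
      have := hr s (Finset.mem_insert_self _ _)
      apply max_eq_left
      refine (min_le_right _ _).trans ?_
      rw [NNReal.coe_zero]
      linarith
    · intro x y hxy
      have hxy' : (x : ℝ) ≤ y := by exact_mod_cast hxy
      obtain ⟨h1, h2⟩ := hBm x y hxy
      constructor
      · apply max_le_max h1
        apply min_le_min le_rfl
        linarith
      · apply max_le
        · have := le_max_left (B x) (min (b s) (x - r s))
          linarith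
        · have h3 := le_max_right (B x) (min (b s) (x - r s))
          have h4 : min (b s) ((y : ℝ) - r s) ≤ min (b s) (x - r s) + ((y : ℝ) - x) := by
            rcases min_cases (b s) ((x : ℝ) - r s) with ⟨h5, _⟩ | ⟨h5, _⟩
            · rw [h5]
              refine (min_le_left _ _).trans ?_
              linarith
            · rw [h5]
              refine (min_le_right _ _).trans ?_
              linarith
          linarith
    · intro t ht x
      rcases Finset.mem_insert.mp ht with rfl | ht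
      · exact le_max_right _ _
      · exact (hBs t ht x).trans (le_max_left _ _)
    · intro x z hz hall
      apply max_le
      · exact hBz x z hz (fun t ht => hall t (Finset.mem_insert_of_mem ht))
      · exact hall s (Finset.mem_insert_self _ _)

/-- The optimisation lemma. -/
theorem optim (l κ : ℝ) (hl : 0 < l) (hκ : 0 < κ) (h : ENNReal.ofReal κ < kfun l) :
    ∃ K : ℝ, 1 < K ∧ ∃ η : ℝ, 0 < η ∧ ∃ n₀ : ℕ, ∀ n : ℕ, n₀ ≤ n → ∀ r b ρ β : ℕ → ℝ,
      (∀ s, 0 ≤ r s ∧ 0 ≤ b s ∧ 0 ≤ ρ s ∧ 0 ≤ β s) →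
      (∀ s : ℕ, (n : ℝ) / K ≤ s → s ≤ n → b s + ρ s ≤ s ∧ s / κ ≤ b s - r s / l ∧
        s / κ ≤ ρ s - β s / l) →
      (∀ s t : ℕ, (n : ℝ) / K ≤ s → s ≤ n → (n : ℝ) / K ≤ t → t ≤ n →
        b s ≤ β t + η * n ∨ ρ t ≤ r s + η * n) → False := by
  classical
  set θ := ((1 + l) * κ - 2 * l) * (1 + l) / (2 * l) with hθdef
  have hκθ : κ = 2 * l / (1 + l) ^ 2 * θ + 2 * l / (1 + l) := by
    rw [hθdef]
    field_simp
    ring
  by_cases hθ : θ < 0
  · -- `κ < 2 l / (1 + l) < 2`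
    refine ⟨2, by norm_num, 1, one_pos, 1, fun n hn r b ρ β hpos hwin _ => ?_⟩
    have hn' : (1 : ℝ) ≤ n := by exact_mod_cast hn
    obtain ⟨h1, h2, h3⟩ := hwin n (by linarith) le_rfl
    obtain ⟨p1, p2, p3, p4⟩ := hpos n
    have hκ2 : κ < 2 := by
      have e1 : 2 * l / (1 + l) ^ 2 * θ < 0 := mul_neg_of_pos_of_neg (by positivity) hθ
      have e2 : 2 * l / (1 + l) < 2 := by
        rw [div_lt_iff₀ (by positivity)]
        linarith
      linarith
    have e3 : 0 ≤ r n / l := div_nonneg p1 hl.le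
    have e4 : 0 ≤ β n / l := div_nonneg p4 hl.le
    have e5 : (n : ℝ) / κ * 2 ≤ n := by linarith
    have e6 : (n : ℝ) / κ * κ = n := by field_simp
    have e7 : 0 < (n : ℝ) / κ := by positivity
    nlinarith
  push Not at hθ
  have hθh : ENNReal.ofReal θ < hfun ((l - 1) / (l + 1)) := by
    by_contra hcon
    push Not at hcon
    apply absurd h (not_lt.mpr _)
    unfold kfun
    calc ENNReal.ofReal (2 * l / (1 + l) ^ 2) * hfun ((l - 1) / (l + 1)) +
        ENNReal.ofReal (2 * l / (1 + l)) ≤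
        ENNReal.ofReal (2 * l / (1 + l) ^ 2) * ENNReal.ofReal θ +
          ENNReal.ofReal (2 * l / (1 + l)) := by gcongr
      _ = ENNReal.ofReal κ := by
          rw [← ENNReal.ofReal_mul (by positivity), ← ENNReal.ofReal_add (by positivity)
            (by positivity), ← hκθ]
  obtain ⟨K₁, hK₁, ε, hε, H⟩ := compact_h_scaled _ θ hθ hθh
  set γ := (l - 1) / (l + 1) with hγ
  -- constants
  set c₁ : ℝ := l / (κ * (1 + l) * K₁) with hc₁
  have hc₁pos : 0 < c₁ := by positivity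
  set C : ℝ := 2 * θ / (1 + l) + 2 with hC
  have hCpos : 0 < C := by positivity
  set η : ℝ := min (l / (4 * κ)) (ε * c₁ / (2 * C)) with hη
  have hηpos : 0 < η := lt_min (by positivity) (by positivity)
  have hη1 : κ * η / l ≤ 1 / 4 := by
    have : η ≤ l / (4 * κ) := min_le_left _ _
    rw [div_le_iff₀ hl]
    calc κ * η ≤ κ * (l / (4 * κ)) := mul_le_mul_of_nonneg_left this hκ.le
      _ = 1 / 4 * l := by field_simp
  have hη2 : C * η ≤ ε * c₁ / 2 := by
    have : η ≤ ε * c₁ / (2 * C) := min_le_right _ _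
    calc C * η ≤ C * (ε * c₁ / (2 * C)) := mul_le_mul_of_nonneg_left this hCpos.le
      _ = ε * c₁ / 2 := by field_simp
  obtain ⟨n₁, hn₁⟩ := exists_nat_ge (2 * (θ * (2 * l / ((1 + l) * κ))) / (ε * c₁))
  refine ⟨2 * K₁, by linarith, η, hηpos, max n₁ 4, ?_⟩
  intro n hn r b ρ β hpos hwin hcross
  have hn4 : (4 : ℝ) ≤ n := by exact_mod_cast (le_max_right _ _).trans hn
  have hnpos : (0 : ℝ) < n := by linarith
  have hn1' : θ * (2 * l / ((1 + l) * κ)) ≤ ε * c₁ * n / 2 := by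
    have h1 : 2 * (θ * (2 * l / ((1 + l) * κ))) / (ε * c₁) ≤ n :=
      hn₁.trans (by exact_mod_cast (le_max_left _ _).trans hn)
    rw [div_le_iff₀ (by positivity)] at h1
    linarith
  set S : Finset ℕ := (Finset.range (n + 1)).filter (fun s => (n : ℝ) / (2 * K₁) ≤ (s : ℝ)) with hS
  have hSmem : ∀ s, s ∈ S ↔ (s ≤ n ∧ (n : ℝ) / (2 * K₁) ≤ (s : ℝ)) := by
    intro s
    simp [hS, Finset.mem_filter, Nat.lt_succ_iff]
  obtain ⟨B, hB0, hBm, hBs, hBz⟩ := exists_stair S b (fun s => r s + η * n)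
    (fun s _ => add_nonneg (hpos s).1 (by positivity))
  set g : ℝ≥0 → ℝ := fun x => x - 2 * B x with hg
  have hgL : LipschitzWith 1 g := by
    apply LipschitzWith.of_dist_le_mul
    have key : ∀ x y : ℝ≥0, x ≤ y → dist (g x) (g y) ≤ (y : ℝ) - x := by
      intro x y hxy
      obtain ⟨h1, h2⟩ := hBm x y hxy
      have hxy' : (x : ℝ) ≤ y := by exact_mod_cast hxy
      rw [Real.dist_eq, abs_le]
      simp only [hg]
      constructor <;> linarith
    intro x y
    rw [NNReal.coe_one, one_mul, NNReal.dist_eq]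
    rcases le_total x y with hxy | hxy
    · refine (key x y hxy).trans ?_
      rw [abs_sub_comm]
      exact le_abs_self _
    · rw [dist_comm]
      exact (key y x hxy).trans (le_abs_self _)
  have hg0 : g 0 = 0 := by simp [hg, hB0]
  have hc : (0 : ℝ≥0) < (c₁ * n).toNNReal := by
    rw [Real.toNNReal_pos]; positivity
  have hcc : (((c₁ * n).toNNReal : ℝ≥0) : ℝ) = c₁ * n := Real.coe_toNNReal _ (by positivity)
  obtain ⟨τ, hτ1, hτ2, hτ⟩ := H _ hc g hgL hg0
  rw [hcc] at hτ1 hτ2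
  -- choice of `s`
  set s₀ : ℝ := κ * ((1 + l) * τ / (2 * l) + η * n / l) with hs₀
  have hτpos : 0 < τ := lt_of_lt_of_le (by positivity) hτ1
  have hs₀pos : 0 ≤ s₀ := by positivity
  set s := ⌈s₀⌉₊ with hs
  have hs1 : s₀ ≤ s := Nat.le_ceil _
  have hs2 : (s : ℝ) < s₀ + 1 := Nat.ceil_lt_add_one hs₀pos
  have hs₀up : s₀ ≤ n / 2 + n / 4 := by
    have h1 : κ * ((1 + l) * τ / (2 * l)) ≤ n / 2 := by
      calc κ * ((1 + l) * τ / (2 * l)) ≤ κ * ((1 + l) * (K₁ * (c₁ * n)) / (2 * l)) := by gcongr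
        _ = n / 2 := by
          rw [hc₁]
          field_simp
    have h2 : κ * (η * n / l) ≤ n / 4 := by
      calc κ * (η * n / l) = κ * η / l * n := by ring
        _ ≤ 1 / 4 * n := by gcongr
        _ = n / 4 := by ring
    rw [hs₀, mul_add]
    linarith
  have hsn : s ≤ n := by
    have h1 : (s : ℝ) ≤ n := by linarith
    exact_mod_cast h1
  have hs₀low : (n : ℝ) / (2 * K₁) ≤ s₀ := by
    calc (n : ℝ) / (2 * K₁) = κ * ((1 + l) * (c₁ * n) / (2 * l)) := by
          rw [hc₁]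
          field_simp
      _ ≤ κ * ((1 + l) * τ / (2 * l)) := by gcongr
      _ ≤ s₀ := by
          rw [hs₀]
          apply mul_le_mul_of_nonneg_left _ hκ.le
          have : 0 ≤ η * n / l := by positivity
          linarith
  have hslow : (n : ℝ) / (2 * K₁) ≤ s := hs₀low.trans hs1
  have hsS : s ∈ S := (hSmem s).mpr ⟨hsn, hslow⟩
  obtain ⟨w1, w2, w3⟩ := hwin s hslow hsn
  obtain ⟨p1, p2, p3, p4⟩ := hpos s
  -- the time value
  set τs : ℝ := 2 * l / (1 + l) * (s / κ - η * n / l) with hτs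
  have hττs : τ ≤ τs := by
    have h1 : (1 + l) * τ / (2 * l) + η * n / l ≤ s / κ := by
      rw [le_div_iff₀ hκ, mul_comm]
      exact hs1
    calc τ = 2 * l / (1 + l) * ((1 + l) * τ / (2 * l)) := by field_simp
      _ ≤ 2 * l / (1 + l) * (s / κ - η * n / l) := by
          apply mul_le_mul_of_nonneg_left _ (by positivity)
          linarith
  have hτsτ : τs ≤ τ + 2 * l / ((1 + l) * κ) := by
    have h1 : s / κ ≤ (1 + l) * τ / (2 * l) + η * n / l + 1 / κ := by
      rw [div_le_iff₀ hκ]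
      calc (s : ℝ) ≤ s₀ + 1 := hs2.le
        _ = ((1 + l) * τ / (2 * l) + η * n / l + 1 / κ) * κ := by
          rw [hs₀]
          field_simp
    calc τs ≤ 2 * l / (1 + l) * ((1 + l) * τ / (2 * l) + 1 / κ) := by
          rw [hτs]
          apply mul_le_mul_of_nonneg_left _ (by positivity)
          linarith
      _ = τ + 2 * l / ((1 + l) * κ) := by field_simp
  -- points
  have idm : ∀ x : ℝ≥0, γ * x - g x = 2 * l / (1 + l) * (B x - (x - B x) / l) := by
    intro x
    simp only [hg, hγ]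
    have : l + 1 ≠ 0 := by positivity
    field_simp
    ring
  have idp : ∀ x : ℝ≥0, γ * x + g x = 2 * l / (1 + l) * ((x - B x) - B x / l) := by
    intro x
    simp only [hg, hγ]
    have : l + 1 ≠ 0 := by positivity
    field_simp
    ring
  set xs : ℝ≥0 := (b s + (r s + η * n)).toNNReal with hxs
  have hxs' : (xs : ℝ) = b s + (r s + η * n) := Real.coe_toNNReal _ (by positivity)
  set ys : ℝ≥0 := (ρ s + β s + η * n).toNNReal with hys
  have hys' : (ys : ℝ) = ρ s + β s + η * n := Real.coe_toNNReal _ (by positivity)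
  have hBx : b s ≤ B xs := by
    have := hBs s hsS xs
    rw [hxs'] at this
    simpa using this
  have hBy : B ys ≤ β s + η * n := by
    apply hBz ys _ (by positivity)
    intro t ht
    obtain ⟨ht1, ht2⟩ := (hSmem t).mp ht
    rw [hys']
    rcases hcross t s ht2 ht1 hslow hsn with h1 | h1
    · exact (min_le_left _ _).trans h1
    · refine (min_le_right _ _).trans ?_
      linarith
  have hx : τ ≤ γ * xs - g xs := by
    refine hττs.trans ?_
    rw [idm, hτs]
    apply mul_le_mul_of_nonneg_left _ (by positivity)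
    have h1 : ((xs : ℝ) - B xs) / l ≤ (r s + η * n) / l := by
      apply div_le_div_of_nonneg_right _ hl.le
      rw [hxs']
      linarith
    rw [add_div] at h1
    linarith
  have hy : τ ≤ γ * ys + g ys := by
    refine hττs.trans ?_
    rw [idp, hτs]
    apply mul_le_mul_of_nonneg_left _ (by positivity)
    have h1 : B ys / l ≤ (β s + η * n) / l := div_le_div_of_nonneg_right hBy hl.le
    rw [add_div] at h1
    have h2 : ρ s ≤ ys - B ys := by
      rw [hys']
      linarith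
    linarith
  have hfin := hτ ys xs hy hx
  rw [hcc, hxs', hys'] at hfin
  -- final contradiction
  have f1 : r s ≤ l * (b s - s / κ) := by
    have h1 : r s / l ≤ b s - s / κ := by linarith
    rw [div_le_iff₀ hl] at h1
    linarith
  have f2 : β s ≤ l * (ρ s - s / κ) := by
    have h1 : β s / l ≤ ρ s - s / κ := by linarith
    rw [div_le_iff₀ hl] at h1
    linarith
  have f3 : (1 + l) * (s : ℝ) - 2 * l * (s / κ) = θ * (2 * l / (1 + l) * (s / κ)) := by
    rw [hθdef]
    field_simp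
  have f4 : 2 * l / (1 + l) * (s / κ) = τs + 2 * η * n / (1 + l) := by
    rw [hτs]
    field_simp
    ring
  have f5 : ρ s + β s + η * n + (b s + (r s + η * n)) ≤ θ * τs + C * η * n := by
    have h1 : ρ s + β s + η * n + (b s + (r s + η * n)) ≤
        (1 + l) * (b s + ρ s) - 2 * l * (s / κ) + 2 * η * n := by linarith
    have h2 : (1 + l) * (b s + ρ s) ≤ (1 + l) * s := mul_le_mul_of_nonneg_left w1 (by positivity)
    have h3 : θ * (τs + 2 * η * n / (1 + l)) + 2 * η * n = θ * τs + C * η * n := by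
      rw [hC]
      ring
    rw [f4] at f3
    linarith
  have f6 : θ * τs ≤ θ * τ + θ * (2 * l / ((1 + l) * κ)) := by
    rw [← mul_add]
    exact mul_le_mul_of_nonneg_left hτsτ hθ
  have f7 : C * η * n ≤ ε * c₁ / 2 * n := mul_le_mul_of_nonneg_right hη2 hnpos.le
  have f8 : ε * (c₁ * n) = ε * c₁ / 2 * n + ε * c₁ * n / 2 := by ring
  linarith

end Pool.Agent.RamseyFactor
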