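import Mathlib
import Pool.Agent.Work.MP_8cf4b7_co.Ramsey

/-!
Seeds: finite sets which extend to monochromatic copies of `F` whose other vertices are far away.
-/

open Filter
open scoped ENNReal NNReal

namespace Pool.Agent.RamseyFactor

variable {V : Type*}

/-- `S` is a seed for `F` in colour `G`. -/
def IsSeed (F : SimpleGraph V) (G : SimpleGraph ℕ) (S : Finset ℕ) : Prop :=
  ∀ T : ℕ, ∃ φ : V → ℕ, Function.Injective φ ∧ (∀ u v, F.Adj u v → G.Adj (φ u) (φ v)) ∧
    (∀ x ∈ S, ∃ v, φ v = x) ∧ ∀ v, φ v ∈ S ∨ T < φ v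

section

variable [Fintype V]

/-- A good vertex is a seed. -/
lemma isSeed_singleton [Nonempty V] (F : SimpleGraph V) {G : SimpleGraph ℕ} {v : ℕ}
    (h : Good G (Fintype.card V) {v}) : IsSeed F G {v} := by
  classical
  intro T
  obtain ⟨K, hK, hKT, hcl, hadj⟩ := h (max T v)
  obtain ⟨v0⟩ := ‹Nonempty V›
  have e : V ≃ K := Fintype.equivOfCardEq (by rw [Fintype.card_coe, hK])
  have hadj' : ∀ u, G.Adj v (e u : ℕ) := fun u => hadj _ (e u).2 v (Finset.mem_singleton_self _)
  have hne : ∀ u, (e u : ℕ) ≠ v := fun u => (hadj' u).ne'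
  have hinj : ∀ u w, (e u : ℕ) = e w → u = w := fun u w h => e.injective (Subtype.ext h)
  have hcl' : ∀ u w, u ≠ w → G.Adj (e u) (e w) := fun u w huw =>
    hcl (e u).2 (e w).2 (fun h => huw (hinj u w h))
  refine ⟨fun u => if u = v0 then v else e u, ?_, ?_, ?_, ?_⟩
  · intro u w huw
    simp only at huw
    split_ifs at huw with h1 h2 h2
    · rw [h1, h2]
    · exact absurd huw.symm (hne w)
    · exact absurd huw (hne u)
    · exact hinj u w huw
  · intro u w huw
    simp only
    split_ifs with h1 h2 h2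
    · rw [h1, h2] at huw
      exact absurd huw (F.loopless.irrefl _)
    · exact hadj' w
    · exact (hadj' u).symm
    · exact hcl' u w huw.ne
  · intro x hx
    rw [Finset.mem_singleton] at hx
    exact ⟨v0, by simp [hx]⟩
  · intro u
    simp only
    split_ifs with h1
    · exact Or.inl (Finset.mem_singleton_self _)
    · exact Or.inr ((le_max_left T v).trans_lt (hKT _ (e u).2))

/-- A monochromatic clique with as many vertices as `F` is a seed. -/
lemma isSeed_clique (F : SimpleGraph V) {G : SimpleGraph ℕ} {S : Finset ℕ}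
    (hS : S.card = Fintype.card V) (h : G.IsClique (S : Set ℕ)) : IsSeed F G S := by
  classical
  intro T
  have e : V ≃ S := Fintype.equivOfCardEq (by rw [Fintype.card_coe, hS])
  have hinj : ∀ u w, (e u : ℕ) = e w → u = w := fun u w h => e.injective (Subtype.ext h)
  refine ⟨fun u => e u, fun u w huw => hinj u w huw, ?_, ?_, fun u => Or.inl (e u).2⟩
  · intro u w huw
    exact h (e u).2 (e w).2 (fun h => huw.ne (hinj u w h))
  · intro x hx
    exact ⟨e.symm ⟨x, hx⟩, by simp⟩

/-- The main seeds: `I` embeds in `C`, `N(I)` in the good clique `A`, the rest is far away. -/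
lemma isSeed_pair (F : SimpleGraph V) {G : SimpleGraph ℕ} {I NI : Finset V}
    (hI : ∀ u ∈ I, ∀ v ∈ I, ¬ F.Adj u v) (hNI : ∀ v, v ∈ NI ↔ ∃ u ∈ I, F.Adj u v)
    {A C : Finset ℕ} (hA : A.card = NI.card) (hC : C.card = I.card)
    (hcl : G.IsClique (A : Set ℕ)) (hgood : Good G (Fintype.card V) A)
    (hAC : ∀ x ∈ A, ∀ y ∈ C, G.Adj x y) : IsSeed F G (A ∪ C) := by
  classical
  intro T
  set B := max T ((A ∪ C).sup id) with hB
  obtain ⟨K, hK, hKT, hKcl, hKadj⟩ := hgood B
  have hdisj : ∀ v, v ∈ I → v ∉ NI := by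
    intro v hv hv'
    obtain ⟨u, hu, huv⟩ := (hNI v).mp hv'
    exact hI u hu v hv huv
  have eI : I ≃ C := Fintype.equivOfCardEq (by rw [Fintype.card_coe, Fintype.card_coe, hC])
  have eN : NI ≃ A := Fintype.equivOfCardEq (by rw [Fintype.card_coe, Fintype.card_coe, hA])
  have e : V ≃ K := Fintype.equivOfCardEq (by rw [Fintype.card_coe, hK])
  have hsup : ∀ x ∈ A ∪ C, x ≤ B := fun x hx => (Finset.le_sup (f := id) hx).trans (le_max_right _ _)
  have hKnot : ∀ u, (e u : ℕ) ∉ A ∪ C := fun u hu => by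
    have h1 := hsup _ hu
    have h2 := hKT _ (e u).2
    omega
  have hACd : ∀ x ∈ A, x ∉ C := fun x hx hx' => (hAC x hx x hx').ne rfl
  set φ : V → ℕ := fun v => if h : v ∈ I then (eI ⟨v, h⟩ : ℕ) else
    if h' : v ∈ NI then (eN ⟨v, h'⟩ : ℕ) else e v with hφ
  have φI : ∀ v (h : v ∈ I), φ v = eI ⟨v, h⟩ := fun v h => by simp only [hφ, dif_pos h]
  have φN : ∀ v (h' : v ∈ NI), φ v = eN ⟨v, h'⟩ := fun v h' => by
    have h : v ∉ I := fun h => hdisj v h h'
    simp only [hφ, dif_neg h, dif_pos h']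
  have φR : ∀ v, v ∉ I → v ∉ NI → φ v = e v := fun v h h' => by
    simp only [hφ, dif_neg h, dif_neg h']
  have mI : ∀ v, v ∈ I → φ v ∈ C := fun v h => by rw [φI v h]; exact (eI ⟨v, h⟩).2
  have mN : ∀ v, v ∈ NI → φ v ∈ A := fun v h => by rw [φN v h]; exact (eN ⟨v, h⟩).2
  have mR : ∀ v, v ∉ I → v ∉ NI → φ v ∈ K := fun v h h' => by rw [φR v h h']; exact (e v).2
  have mR' : ∀ v, v ∉ I → v ∉ NI → φ v ∉ A ∪ C := fun v h h' => by rw [φR v h h']; exact hKnot v
  have hinj : Function.Injective φ := by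
    intro u w huw
    by_cases hu : u ∈ I
    · have h1 := mI u hu
      by_cases hw : w ∈ I
      · rw [φI u hu, φI w hw] at huw
        have := eI.injective (Subtype.ext huw)
        exact congrArg Subtype.val this
      · by_cases hw' : w ∈ NI
        · exact absurd (huw ▸ h1) (hACd _ (mN w hw'))
        · exact absurd (Finset.mem_union_right A (huw ▸ h1)) (mR' w hw hw')
    · by_cases hu' : u ∈ NI
      · have h1 := mN u hu'
        by_cases hw : w ∈ I
        · exact absurd (mI w hw) (hACd _ (huw ▸ h1))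
        · by_cases hw' : w ∈ NI
          · rw [φN u hu', φN w hw'] at huw
            have := eN.injective (Subtype.ext huw)
            exact congrArg Subtype.val this
          · exact absurd (Finset.mem_union_left C (huw ▸ h1)) (mR' w hw hw')
      · have h1 := mR' u hu hu'
        by_cases hw : w ∈ I
        · exact absurd (Finset.mem_union_right A (mI w hw)) (huw ▸ h1)
        · by_cases hw' : w ∈ NI
          · exact absurd (Finset.mem_union_left C (mN w hw')) (huw ▸ h1)
          · rw [φR u hu hu', φR w hw hw'] at huw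
            exact e.injective (Subtype.ext huw)
  have hne : ∀ u w, u ≠ w → φ u ≠ φ w := fun u w h h' => h (hinj h')
  refine ⟨φ, hinj, ?_, ?_, ?_⟩
  · -- homomorphism; symmetric cases
    have key : ∀ u w, F.Adj u w → u ∈ I → G.Adj (φ u) (φ w) := by
      intro u w huw hu
      have hw : w ∈ NI := (hNI w).mpr ⟨u, hu, huw⟩
      exact (hAC _ (mN w hw) _ (mI u hu)).symm
    intro u w huw
    by_cases hu : u ∈ I
    · exact key u w huw hu
    by_cases hw : w ∈ I
    · exact (key w u huw.symm hw).symm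
    by_cases hu' : u ∈ NI
    · by_cases hw' : w ∈ NI
      · exact hcl (mN u hu') (mN w hw') (hne u w huw.ne)
      · exact (hKadj _ (mR w hw hw') _ (mN u hu'))
    · by_cases hw' : w ∈ NI
      · exact (hKadj _ (mR u hu hu') _ (mN w hw')).symm
      · exact hKcl (mR u hu hu') (mR w hw hw') (hne u w huw.ne)
  · intro x hx
    rcases Finset.mem_union.mp hx with hx | hx
    · refine ⟨(eN.symm ⟨x, hx⟩ : V), ?_⟩
      rw [φN _ (eN.symm ⟨x, hx⟩).2]
      simp
    · refine ⟨(eI.symm ⟨x, hx⟩ : V), ?_⟩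
      rw [φI _ (eI.symm ⟨x, hx⟩).2]
      simp
  · intro v
    by_cases hv : v ∈ I
    · exact Or.inl (Finset.mem_union_right _ (mI v hv))
    · by_cases hv' : v ∈ NI
      · exact Or.inl (Finset.mem_union_left _ (mN v hv'))
      · right
        exact (le_max_left T _).trans_lt (hKT _ (mR v hv hv'))

/-- Simultaneous extension of disjoint seeds. -/
lemma seeds_extend (F : SimpleGraph V) (G : SimpleGraph ℕ) (Sd : Finset (Finset ℕ))
    (hdisj : (Sd : Set (Finset ℕ)).PairwiseDisjoint id) (hseed : ∀ S ∈ Sd, IsSeed F G S) (T : ℕ) :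
    ∃ φ : Finset ℕ → V → ℕ, (∀ S ∈ Sd, ∀ u v, F.Adj u v → G.Adj (φ S u) (φ S v)) ∧
      (∀ S ∈ Sd, ∀ S' ∈ Sd, ∀ v v', φ S v = φ S' v' → S = S' ∧ v = v') ∧
      (∀ S ∈ Sd, ∀ x ∈ S, ∃ v, φ S v = x) ∧ ∀ S ∈ Sd, ∀ v, φ S v ∈ S ∨ T < φ S v := by
  classical
  induction Sd using Finset.induction_on generalizing T with
  | empty => exact ⟨fun _ _ => 0, by simp, by simp, by simp, by simp⟩
  | insert S Sd hS ih =>
    have hdisj' : (Sd : Set (Finset ℕ)).PairwiseDisjoint id :=
      hdisj.subset (by rw [Finset.coe_insert]; exact Set.subset_insert _ _)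
    obtain ⟨φ, h1, h2, h3, h4⟩ := ih hdisj' (fun S' hS' => hseed S' (Finset.mem_insert_of_mem hS'))
      (max T (S.sup id))
    obtain ⟨ψ, k1, k2, k3, k4⟩ := hseed S (Finset.mem_insert_self _ _)
      (max T (Sd.sup (fun S' => Finset.univ.sup (φ S'))))
    have hSsup : ∀ x ∈ S, x ≤ S.sup id := fun x hx => Finset.le_sup (f := id) hx
    have hφsup : ∀ S' ∈ Sd, ∀ v, φ S' v ≤ Sd.sup (fun S' => Finset.univ.sup (φ S')) := by
      intro S' hS' v
      exact (Finset.le_sup (f := φ S') (Finset.mem_univ v)).trans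
        (Finset.le_sup (f := fun S' => Finset.univ.sup (φ S')) hS')
    have hcross : ∀ S' ∈ Sd, ∀ v v', φ S' v ≠ ψ v' := by
      intro S' hS' v v' heq
      rcases k4 v' with hv' | hv'
      · rcases h4 S' hS' v with hv | hv
        · have hd := hdisj (Finset.mem_coe.mpr (Finset.mem_insert_self S Sd))
            (Finset.mem_coe.mpr (Finset.mem_insert_of_mem hS')) (fun h => hS (h ▸ hS'))
          exact Finset.disjoint_left.mp hd hv' (heq ▸ hv)
        · have h5 := hSsup _ hv'
          have h6 := le_max_right T (S.sup id)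
          omega
      · have h5 := hφsup S' hS' v
        have h6 := le_max_right T (Sd.sup (fun S' => Finset.univ.sup (φ S')))
        omega
    have hval : ∀ S' ∈ Sd, S' ≠ S := fun S' hS' h => hS (h ▸ hS')
    refine ⟨Function.update φ S ψ, ?_, ?_, ?_, ?_⟩
    · intro S' hS' u v huv
      rcases Finset.mem_insert.mp hS' with rfl | hS'
      · rw [Function.update_self]
        exact k2 u v huv
      · rw [Function.update_of_ne (hval S' hS')]
        exact h1 S' hS' u v huv
    · intro S' hS' S'' hS'' v v' heq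
      rcases Finset.mem_insert.mp hS' with e1 | m1
      · rcases Finset.mem_insert.mp hS'' with e2 | m2
        · rw [e1, e2, Function.update_self] at heq
          exact ⟨e1.trans e2.symm, k1 heq⟩
        · rw [e1, Function.update_self, Function.update_of_ne (hval S'' m2)] at heq
          exact absurd heq.symm (hcross S'' m2 v' v)
      · rcases Finset.mem_insert.mp hS'' with e2 | m2
        · rw [e2, Function.update_self, Function.update_of_ne (hval S' m1)] at heq
          exact absurd heq (hcross S' m1 v v')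
        · rw [Function.update_of_ne (hval S' m1), Function.update_of_ne (hval S'' m2)] at heq
          exact h2 S' m1 S'' m2 v v' heq
    · intro S' hS' x hx
      rcases Finset.mem_insert.mp hS' with rfl | hS'
      · rw [Function.update_self]
        exact k3 x hx
      · rw [Function.update_of_ne (hval S' hS')]
        exact h3 S' hS' x hx
    · intro S' hS' v
      rcases Finset.mem_insert.mp hS' with rfl | hS'
      · rw [Function.update_self]
        rcases k4 v with h | h
        · exact Or.inl h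
        · exact Or.inr ((le_max_left _ _).trans_lt h)
      · rw [Function.update_of_ne (hval S' hS')]
        rcases h4 S' hS' v with h | h
        · exact Or.inl h
        · exact Or.inr ((le_max_left _ _).trans_lt h)

end

/-- Density bound helper. -/
lemma ratio_le_one (S : Set ℕ) (t : ℕ) : ((S ∩ Set.Iio t).ncard : ℝ) / t ≤ 1 := by
  have h1 : (S ∩ Set.Iio t).ncard ≤ t := by
    calc (S ∩ Set.Iio t).ncard ≤ (Set.Iio t).ncard :=
          Set.ncard_le_ncard Set.inter_subset_right (Set.finite_Iio t)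
      _ = t := by
          rw [← Finset.coe_range, Set.ncard_coe_finset, Finset.card_range]
  rcases Nat.eq_zero_or_pos t with rfl | ht
  · simp
  · rw [div_le_one (by exact_mod_cast ht)]
    exact_mod_cast h1

lemma upperDensity_le_one (S : Set ℕ) : upperDensity S ≤ 1 := by
  unfold upperDensity
  apply limsup_le_of_le
  · refine ⟨0, ?_⟩
    intro a ha
    obtain ⟨n, hn⟩ := (eventually_map.mp ha).exists
    exact le_trans (by positivity) hn
  · exact Eventually.of_forall (fun t => ratio_le_one S t)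

lemma le_upperDensity {S : Set ℕ} {r : ℝ}
    (h : ∀ T : ℕ, ∃ t > T, r * t ≤ ((S ∩ Set.Iio t).ncard : ℝ)) : r ≤ upperDensity S := by
  unfold upperDensity
  apply le_limsup_of_frequently_le
  · rw [frequently_atTop]
    intro T
    obtain ⟨t, ht, h1⟩ := h T
    refine ⟨t, ht.le, ?_⟩
    rw [le_div_iff₀ (by exact_mod_cast (Nat.zero_le T).trans_lt ht)]
    exact h1
  · exact isBoundedUnder_of ⟨1, fun t => ratio_le_one S t⟩

/-- Assembling infinitely many finite families. -/
theorem assemble [Fintype V] [Nonempty V] (F : SimpleGraph V) (G : SimpleGraph ℕ) (r : ℝ)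
    (h : ∀ T : ℕ, ∃ t > T, ∃ Sd : Finset (Finset ℕ), Sd.Nonempty ∧
      (Sd : Set (Finset ℕ)).PairwiseDisjoint id ∧ (∀ S ∈ Sd, IsSeed F G S ∧ ∀ x ∈ S, T < x) ∧
      r * t ≤ (((Sd.biUnion id) ∩ Finset.range t).card : ℝ)) :
    ∃ φ : ℕ × V → ℕ, Function.Injective φ ∧
      (∀ u v, (omegaCopies F).Adj u v → G.Adj (φ u) (φ v)) ∧
      r ≤ upperDensity (Set.range φ) := by
  classical
  -- one step
  have step : ∀ T : ℕ, ∃ (M : ℕ) (t : ℕ) (Sd : Finset (Finset ℕ)) (φ : Finset ℕ → V → ℕ),
      T < t ∧ t ≤ M ∧ Sd.Nonempty ∧ (∀ S ∈ Sd, ∀ u v, F.Adj u v → G.Adj (φ S u) (φ S v)) ∧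
      (∀ S ∈ Sd, ∀ S' ∈ Sd, ∀ v v', φ S v = φ S' v' → S = S' ∧ v = v') ∧
      (∀ S ∈ Sd, ∀ v, T < φ S v ∧ φ S v ≤ M) ∧
      r * t ≤ (({x | ∃ S ∈ Sd, ∃ v, φ S v = x} ∩ Set.Iio t).ncard : ℝ) := by
    intro T
    obtain ⟨t, ht, Sd, hne, hd, hS, hr⟩ := h T
    obtain ⟨φ, h1, h2, h3, h4⟩ := seeds_extend F G Sd hd (fun S hS' => (hS S hS').1) T
    refine ⟨max t (Sd.sup (fun S' => Finset.univ.sup (φ S'))), t, Sd, φ, ht, le_max_left _ _, hne,
      h1, h2, ?_, ?_⟩
    · intro S hS' v
      constructor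
      · rcases h4 S hS' v with h | h
        · exact (hS S hS').2 _ h
        · exact h
      · exact ((Finset.le_sup (f := φ S) (Finset.mem_univ v)).trans
          (Finset.le_sup (f := fun S' => Finset.univ.sup (φ S')) hS')).trans (le_max_right _ _)
    · refine hr.trans ?_
      rw [← Set.ncard_coe_finset]
      have : (((Sd.biUnion id ∩ Finset.range t : Finset ℕ) : Set ℕ)).ncard ≤
          ({x | ∃ S ∈ Sd, ∃ v, φ S v = x} ∩ Set.Iio t).ncard := by
        apply Set.ncard_le_ncard _ ((Set.finite_Iio t).subset Set.inter_subset_right)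
        intro x hx
        simp only [Finset.coe_inter, Set.mem_inter_iff, Finset.mem_coe, Finset.mem_biUnion, id,
          Finset.mem_range] at hx
        obtain ⟨⟨S, hS1, hS2⟩, hx2⟩ := hx
        exact ⟨⟨S, hS1, h3 S hS1 x hS2⟩, hx2⟩
      exact_mod_cast this
  choose M t Sd φ s1 s2 s3 s4 s5 s6 s7 using step
  -- the sequence of bounds
  let Tq : ℕ → ℕ := fun i => Nat.rec 0 (fun _ T => M T) i
  have hTq : ∀ i, Tq (i + 1) = M (Tq i) := fun i => rfl
  have hlt : ∀ i, Tq i < Tq (i + 1) := fun i => by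
    rw [hTq]
    exact (s1 _).trans_le (s2 _)
  have hmono : StrictMono Tq := strictMono_nat_of_lt_succ hlt
  -- the index set
  let Ix := Σ i : ℕ, {S : Finset ℕ // S ∈ Sd (Tq i)}
  have hcount : Countable Ix := inferInstance
  have hinf : Infinite Ix := by
    have hf : Function.Injective (fun i : ℕ => (⟨i, ⟨(s3 (Tq i)).choose, (s3 (Tq i)).choose_spec⟩⟩ :
        Ix)) := by
      intro i j hij
      exact congrArg Sigma.fst hij
    exact Infinite.of_injective _ hf
  obtain ⟨e⟩ : Nonempty (ℕ ≃ Ix) := nonempty_equiv_of_countable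
  let Φ : ℕ × V → ℕ := fun p => φ (Tq (e p.1).1) (e p.1).2.1 p.2
  have hrange : ∀ (i : ℕ) (S : {S : Finset ℕ // S ∈ Sd (Tq i)}) (v : V),
      Tq i < φ (Tq i) S.1 v ∧ φ (Tq i) S.1 v ≤ Tq (i + 1) := fun i S v => by
    rw [hTq]
    exact s6 (Tq i) S.1 S.2 v
  have hΦinj : Function.Injective Φ := by
    rintro ⟨n, v⟩ ⟨n', v'⟩ heq
    simp only [Φ] at heq
    rcases hx : e n with ⟨i, S⟩
    rcases hx' : e n' with ⟨i', S'⟩
    rw [hx, hx'] at heq
    simp only at heq
    have h1 := hrange i S v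
    have h2 := hrange i' S' v'
    have hii : i = i' := by
      rcases lt_trichotomy i i' with hlt' | rfl | hlt'
      · have : Tq (i + 1) ≤ Tq i' := hmono.monotone hlt'
        omega
      · rfl
      · have : Tq (i' + 1) ≤ Tq i := hmono.monotone hlt'
        omega
    subst hii
    obtain ⟨h3, h4⟩ := s5 (Tq i) S.1 S.2 S'.1 S'.2 v v' heq
    have h5 : S = S' := Subtype.ext h3
    subst h5
    have h6 : n = n' := e.injective (by rw [hx, hx'])
    rw [h6, h4]
  refine ⟨Φ, hΦinj, ?_, ?_⟩
  · rintro ⟨n, u⟩ ⟨n', v⟩ ⟨h1, h2⟩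
    simp only at h1
    subst h1
    exact s4 _ _ (e n).2.2 _ _ h2
  · apply le_upperDensity
    intro T
    obtain ⟨i, hi⟩ : ∃ i, T < Tq i := ⟨T + 1, (Nat.lt_succ_self T).trans_le hmono.le_apply⟩
    refine ⟨t (Tq i), hi.trans (s1 _), (s7 (Tq i)).trans ?_⟩
    have : ({x | ∃ S ∈ Sd (Tq i), ∃ v, φ (Tq i) S v = x} ∩ Set.Iio (t (Tq i))).ncard ≤
        (Set.range Φ ∩ Set.Iio (t (Tq i))).ncard := by
      apply Set.ncard_le_ncard _ ((Set.finite_Iio _).subset Set.inter_subset_right)
      rintro x ⟨⟨S, hS, v, hv⟩, hx⟩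
      refine ⟨⟨(e.symm ⟨i, ⟨S, hS⟩⟩, v), ?_⟩, hx⟩
      simp only [Φ]
      rw [Equiv.apply_symm_apply]
      exact hv
    exact_mod_cast this

end Pool.Agent.RamseyFactor
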