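import Mathlib
import Pool.Agent.Work.MP_8cf4b7_co.Ramsey

/-!
Structure lemmas for two-colourings of the complete graph on the naturals.
-/

open Filter
open scoped ENNReal NNReal

namespace Pool.Agent.RamseyFactor

namespace Structure

/-- A uniform bound over a finite set of monotone conditions. -/
theorem unif {α : Type*} (s : Finset α) (P : α → ℕ → Prop)
    (mono : ∀ a t t', t ≤ t' → P a t → P a t') (h : ∀ a ∈ s, ∃ t, P a t) :
    ∃ t, ∀ a ∈ s, P a t := by
  classical
  induction s using Finset.induction_on with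
  | empty => exact ⟨0, by simp⟩
  | insert b s hb ih =>
    obtain ⟨t1, h1⟩ := ih (fun a ha => h a (Finset.mem_insert_of_mem ha))
    obtain ⟨t2, h2⟩ := h b (Finset.mem_insert_self _ _)
    refine ⟨max t1 t2, fun a ha => ?_⟩
    rcases Finset.mem_insert.mp ha with rfl | ha
    · exact mono _ _ _ (le_max_right _ _) h2
    · exact mono _ _ _ (le_max_left _ _) (h1 a ha)

/-- No clique of size `l` in the common neighbourhood of `A` beyond `T`. -/
def NoK (H : SimpleGraph ℕ) (l : ℕ) (A : Finset ℕ) (T : ℕ) : Prop :=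
  ∀ K : Finset ℕ, K.card = l → (∀ x ∈ K, T < x) → H.IsClique (K : Set ℕ) →
    ¬ ∀ x ∈ K, ∀ v ∈ A, H.Adj v x

theorem not_good {H : SimpleGraph ℕ} {l : ℕ} {A : Finset ℕ} (h : ¬ Good H l A) :
    ∃ T, NoK H l A T := by
  unfold Good at h
  push Not at h
  obtain ⟨T, hT⟩ := h
  refine ⟨T, fun K hc hK hcl hall => ?_⟩
  obtain ⟨x, hx, v, hv, hn⟩ := hT K hc hK hcl
  exact hn (hall x hx v hv)

theorem noK_mono (H : SimpleGraph ℕ) (l : ℕ) (A : Finset ℕ) (t t' : ℕ) (h : t ≤ t')
    (hn : NoK H l A t) : NoK H l A t' :=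
  fun K hc hK hcl => hn K hc (fun x hx => lt_of_le_of_lt h (hK x hx)) hcl

/-- A set without large cliques in both colours is bounded. -/
theorem bounded_of_noclique (G : SimpleGraph ℕ) (p q : ℕ) (Z : Set ℕ)
    (h1 : ∀ K : Finset ℕ, (∀ x ∈ K, x ∈ Z) → K.card = p → ¬ G.IsClique (K : Set ℕ))
    (h2 : ∀ K : Finset ℕ, (∀ x ∈ K, x ∈ Z) → K.card = q → ¬ Gᶜ.IsClique (K : Set ℕ)) :
    ∃ T, ∀ w ∈ Z, w ≤ T := by
  obtain ⟨N, hN⟩ := ramsey p q
  have hfin : Z.Finite := by
    by_contra hinf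
    have hinf : Z.Infinite := hinf
    obtain ⟨S, hS, hc⟩ := hinf.exists_subset_card_eq N
    rcases hN G S hc.ge with ⟨K, hK, hKc, hcl⟩ | ⟨K, hK, hKc, hcl⟩
    · exact h1 K (fun x hx => hS (hK hx)) hKc hcl
    · exact h2 K (fun x hx => hS (hK hx)) hKc hcl
  obtain ⟨T, hT⟩ := hfin.bddAbove
  exact ⟨T, fun w hw => hT hw⟩

/-- Greedy construction of a clique. -/
theorem greedy (H : SimpleGraph ℕ) (Q : Set ℕ) (hQ : ∀ T, ∃ w ∈ Q, T < w)
    (h : ∀ u ∈ Q, ∃ T', ∀ w ∈ Q, T' < w → H.Adj u w) (k : ℕ) :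
    ∃ K : Finset ℕ, (∀ x ∈ K, x ∈ Q) ∧ K.card = k ∧ H.IsClique (K : Set ℕ) := by
  classical
  induction k with
  | zero => exact ⟨∅, by simp, by simp, by simp⟩
  | succ k ih =>
    obtain ⟨K, hK, hc, hcl⟩ := ih
    obtain ⟨T, hT⟩ := unif K (fun u T' => u ≤ T' ∧ ∀ w ∈ Q, T' < w → H.Adj u w)
      (fun u t t' htt' hh => ⟨hh.1.trans htt', fun w hw hlt => hh.2 w hw (lt_of_le_of_lt htt' hlt)⟩)
      (fun u hu => by
        obtain ⟨T', hT'⟩ := h u (hK u hu)
        exact ⟨max u T', le_max_left _ _, fun w hw hlt =>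
          hT' w hw (lt_of_le_of_lt (le_max_right _ _) hlt)⟩)
    obtain ⟨w, hw, hTw⟩ := hQ T
    have hwK : w ∉ K := fun hh => absurd (hT w hh).1 (not_le.mpr hTw)
    refine ⟨insert w K, ?_, ?_, ?_⟩
    · intro x hx
      rcases Finset.mem_insert.mp hx with rfl | hx
      · exact hw
      · exact hK x hx
    · rw [Finset.card_insert_of_notMem hwK, hc]
    · rw [Finset.coe_insert, SimpleGraph.isClique_insert]
      exact ⟨hcl, fun x hx _ => ((hT x hx).2 w hw hTw).symm⟩

/-- The one-sided step of `claim1`. -/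
theorem step (G : SimpleGraph ℕ) (l : ℕ) (P W : Set ℕ)
    (hP : ∀ v ∈ P, ∃ T, NoK G l {v} T)
    (hW : ∀ K : Finset ℕ, (∀ x ∈ K, x ∈ W) → K.card = l → ¬ Gᶜ.IsClique (K : Set ℕ))
    (hPW : ∀ T, ∃ w ∈ P ∩ W, T < w) : False := by
  obtain ⟨K, hK, hc, hcl⟩ := greedy Gᶜ (P ∩ W) hPW (fun u hu => by
    obtain ⟨T, hT⟩ := hP u hu.1
    obtain ⟨T', hT'⟩ := bounded_of_noclique G l l {w | w ∈ W ∧ T < w ∧ G.Adj u w}
      (fun K hK hc hcl => hT K hc (fun x hx => (hK x hx).2.1) hcl
        (fun x hx v hv => by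
          rw [Finset.mem_singleton] at hv
          subst hv
          exact (hK x hx).2.2))
      (fun K hK hc hcl => hW K (fun x hx => (hK x hx).1) hc hcl)
    refine ⟨max (max T T') u, fun w hw hlt => ?_⟩
    rw [SimpleGraph.compl_adj]
    have h1 : T < w := lt_of_le_of_lt ((le_max_left _ _).trans (le_max_left _ _)) hlt
    have h2 : T' < w := lt_of_le_of_lt ((le_max_right _ _).trans (le_max_left _ _)) hlt
    have h3 : u < w := lt_of_le_of_lt (le_max_right _ _) hlt
    refine ⟨h3.ne, fun hadj => ?_⟩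
    exact absurd (hT' w ⟨hw.2, h1, hadj⟩) (not_le.mpr h2)) l
  exact hW K (fun x hx => (hK x hx).2) hc hcl

end Structure

open Structure

theorem claim1 (G : SimpleGraph ℕ) (l : ℕ) :
    ∃ T : ℕ, ∀ v, T < v → Good G l {v} ∨ Good Gᶜ l {v} := by
  by_contra hcon
  push Not at hcon
  obtain ⟨v0, -, hv1, hv2⟩ := hcon 0
  obtain ⟨T1, hT1⟩ := not_good hv1
  obtain ⟨T2, hT2⟩ := not_good hv2
  set T0 := max T1 T2 with hT0
  set P : Set ℕ := {v | ¬ Good G l {v} ∧ ¬ Good Gᶜ l {v}} with hPdef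
  by_cases hcase : ∀ T, ∃ w ∈ P ∩ {w | T0 < w ∧ Gᶜ.Adj v0 w}, T < w
  · refine step G l P {w | T0 < w ∧ Gᶜ.Adj v0 w} (fun v hv => not_good hv.1) ?_ hcase
    intro K hK hc hcl
    refine hT2 K hc (fun x hx => lt_of_le_of_lt (le_max_right _ _) (hK x hx).1) hcl ?_
    intro x hx v hv
    rw [Finset.mem_singleton] at hv
    subst hv
    exact (hK x hx).2
  · push Not at hcase
    obtain ⟨T3, hT3⟩ := hcase
    refine step Gᶜ l P {w | T0 < w ∧ G.Adj v0 w} (fun v hv => not_good hv.2) ?_ ?_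
    · intro K hK hc hcl
      rw [compl_compl] at hcl
      refine hT1 K hc (fun x hx => lt_of_le_of_lt (le_max_left _ _) (hK x hx).1) hcl ?_
      intro x hx v hv
      rw [Finset.mem_singleton] at hv
      subst hv
      exact (hK x hx).2
    · intro T
      obtain ⟨w, hw, hw1, hw2⟩ := hcon (max (max T T0) (max T3 v0))
      have h1 : T < w := lt_of_le_of_lt ((le_max_left _ _).trans (le_max_left _ _)) hw
      have h2 : T0 < w := lt_of_le_of_lt ((le_max_right _ _).trans (le_max_left _ _)) hw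
      have h3 : T3 < w := lt_of_le_of_lt ((le_max_left _ _).trans (le_max_right _ _)) hw
      have h4 : v0 < w := lt_of_le_of_lt ((le_max_right _ _).trans (le_max_right _ _)) hw
      refine ⟨w, ⟨⟨hw1, hw2⟩, h2, ?_⟩, h1⟩
      by_contra hadj
      have := hT3 w ⟨⟨hw1, hw2⟩, h2, by rw [SimpleGraph.compl_adj]; exact ⟨h4.ne, hadj⟩⟩
      omega

namespace Structure

/-- The red neighbours of `w` in `S`. -/
noncomputable def rn (G : SimpleGraph ℕ) (S : Finset ℕ) (w : ℕ) : Finset ℕ := by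
  classical
  exact S.filter (fun s => G.Adj s w)

theorem mem_rn {G : SimpleGraph ℕ} {S : Finset ℕ} {w s : ℕ} :
    s ∈ rn G S w ↔ s ∈ S ∧ G.Adj s w := by
  classical
  unfold rn
  rw [Finset.mem_filter]

/-- Pigeonhole: a set of vertices with many red neighbours in `S` has no large red clique. -/
theorem noclique_Z (G : SimpleGraph ℕ) (l a T : ℕ) (S : Finset ℕ)
    (hA : ∀ A ⊆ S, A.card = a → NoK G l A T) (K : Finset ℕ)
    (hK : ∀ x ∈ K, T < x ∧ a ≤ (rn G S x).card)
    (hc : (S.card.choose a) * (l - 1) < K.card) : ¬ G.IsClique (K : Set ℕ) := by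
  classical
  intro hcl
  have hex : ∀ x, ∃ A : Finset ℕ, x ∈ K → (A ⊆ rn G S x ∧ A.card = a) := by
    intro x
    by_cases hx : x ∈ K
    · obtain ⟨A, hA1, hA2⟩ := Finset.exists_subset_card_eq (hK x hx).2
      exact ⟨A, fun _ => ⟨hA1, hA2⟩⟩
    · exact ⟨∅, fun h => absurd h hx⟩
  choose f hf using hex
  have hmaps : ∀ x ∈ K, f x ∈ S.powersetCard a := by
    intro x hx
    rw [Finset.mem_powersetCard]
    exact ⟨fun y hy => (mem_rn.mp ((hf x hx).1 hy)).1, (hf x hx).2⟩
  obtain ⟨A, hAm, hAc⟩ := Finset.exists_lt_card_fiber_of_mul_lt_card_of_maps_to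
    (f := f) (s := K) (t := S.powersetCard a) (n := l - 1) hmaps
    (by rw [Finset.card_powersetCard]; exact hc)
  rw [Finset.mem_powersetCard] at hAm
  have hle : l ≤ (K.filter (fun x => f x = A)).card := by omega
  obtain ⟨K', hK', hK'c⟩ := Finset.exists_subset_card_eq hle
  refine hA A hAm.1 hAm.2 K' hK'c ?_ ?_ ?_
  · intro x hx
    exact (hK x (Finset.mem_filter.mp (hK' hx)).1).1
  · intro x hx y hy hne
    exact hcl (Finset.mem_filter.mp (hK' hx)).1 (Finset.mem_filter.mp (hK' hy)).1 hne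
  · intro x hx v hv
    obtain ⟨hxK, hfx⟩ := Finset.mem_filter.mp (hK' hx)
    have := (hf x hxK).1 (by rw [hfx]; exact hv)
    exact (mem_rn.mp this).2

/-- Pigeonhole: a set of vertices with few red neighbours in `S` has no large blue clique. -/
theorem noclique_W (G : SimpleGraph ℕ) (l a T : ℕ) (S : Finset ℕ) (hS : ∀ v ∈ S, v ≤ T)
    (ha : a ≤ S.card)
    (hA : ∀ v ∈ S, NoK Gᶜ l {v} T) (K : Finset ℕ)
    (hK : ∀ x ∈ K, T < x ∧ (rn G S x).card < a)
    (hc : a * (l - 1) < K.card) : ¬ Gᶜ.IsClique (K : Set ℕ) := by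
  classical
  intro hcl
  obtain ⟨B, hB, hBc⟩ := Finset.exists_subset_card_eq ha
  have hex : ∀ x, ∃ v : ℕ, x ∈ K → (v ∈ B ∧ ¬ G.Adj v x) := by
    intro x
    by_cases hx : x ∈ K
    · by_contra hcon
      push Not at hcon
      have hsub : B ⊆ rn G S x := fun v hv => mem_rn.mpr ⟨hB hv, (hcon v).2 hv⟩
      have := Finset.card_le_card hsub
      have := (hK x hx).2
      omega
    · exact ⟨0, fun h => absurd h hx⟩
  choose f hf using hex
  obtain ⟨v, hvm, hvc⟩ := Finset.exists_lt_card_fiber_of_mul_lt_card_of_maps_to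
    (f := f) (s := K) (t := B) (n := l - 1) (fun x hx => (hf x hx).1)
    (by rw [hBc]; exact hc)
  have hle : l ≤ (K.filter (fun x => f x = v)).card := by omega
  obtain ⟨K', hK', hK'c⟩ := Finset.exists_subset_card_eq hle
  refine hA v (hB hvm) K' hK'c ?_ ?_ ?_
  · intro x hx
    exact (hK x (Finset.mem_filter.mp (hK' hx)).1).1
  · intro x hx y hy hne
    exact hcl (Finset.mem_filter.mp (hK' hx)).1 (Finset.mem_filter.mp (hK' hy)).1 hne
  · intro x hx u hu
    rw [Finset.mem_singleton] at hu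
    subst hu
    obtain ⟨hxK, hfx⟩ := Finset.mem_filter.mp (hK' hx)
    rw [SimpleGraph.compl_adj]
    refine ⟨?_, ?_⟩
    · have h1 := hS u (hB hvm)
      have h2 := (hK x hxK).1
      omega
    · have := (hf x hxK).2
      rwa [hfx] at this

end Structure

theorem claim2 (l a : ℕ) : ∃ L : ℕ, ∀ G : SimpleGraph ℕ, ∃ T : ℕ, ∀ S : Finset ℕ,
    (∀ v ∈ S, T < v ∧ ¬ Good Gᶜ l {v}) → G.IsClique (S : Set ℕ) → L ≤ S.card →
    ∃ A ⊆ S, A.card = a ∧ Good G l A := by
  classical
  set k' := a * (l - 1) + 1 with hk'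
  set L0 := k' * a + 1 with hL0
  set l' := L0.choose a * (l - 1) + 1 with hl'
  refine ⟨L0 + l', fun G => ?_⟩
  by_contra hcon
  push Not at hcon
  -- the uniform threshold of a bad set
  have hthr : ∀ S : Finset ℕ, (∀ v ∈ S, ¬ Good Gᶜ l {v}) →
      (∀ A ⊆ S, A.card = a → ¬ Good G l A) →
      ∃ T, (∀ v ∈ S, v ≤ T) ∧ (∀ A ⊆ S, A.card = a → NoK G l A T) ∧
        (∀ v ∈ S, NoK Gᶜ l {v} T) := by
    intro S h1 h2
    obtain ⟨t1, ht1⟩ := unif S (fun v t => v ≤ t) (fun v t t' h hh => hh.trans h)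
      (fun v _ => ⟨v, le_rfl⟩)
    obtain ⟨t2, ht2⟩ := unif (S.powersetCard a) (fun A t => NoK G l A t)
      (fun A t t' h hh => noK_mono G l A t t' h hh)
      (fun A hA => by
        rw [Finset.mem_powersetCard] at hA
        exact not_good (h2 A hA.1 hA.2))
    obtain ⟨t3, ht3⟩ := unif S (fun v t => NoK Gᶜ l {v} t)
      (fun v t t' h hh => noK_mono Gᶜ l {v} t t' h hh)
      (fun v hv => not_good (h1 v hv))
    refine ⟨max t1 (max t2 t3), fun v hv => (ht1 v hv).trans (le_max_left _ _),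
      fun A hA hc => noK_mono _ _ _ _ _ ((le_max_left _ _).trans (le_max_right _ _))
        (ht2 A (Finset.mem_powersetCard.mpr ⟨hA, hc⟩)),
      fun v hv => noK_mono _ _ _ _ _ ((le_max_right _ _).trans (le_max_right _ _)) (ht3 v hv)⟩
  -- the first bad set
  obtain ⟨S1, hS1a, hS1b, hS1c, hS1d⟩ := hcon 0
  obtain ⟨S10, hS10, hS10c⟩ := Finset.exists_subset_card_eq (s := S1) (n := L0) (by omega)
  obtain ⟨T1, hT1a, hT1b, hT1c⟩ := hthr S10 (fun v hv => (hS1a v (hS10 hv)).2)
    (fun A hA hc => hS1d A (hA.trans hS10) hc)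
  have haL0 : a ≤ L0 := by
    have : a * 1 ≤ a * k' := Nat.mul_le_mul_left a (by omega)
    rw [hL0, mul_comm k' a]
    omega
  set W : Set ℕ := {w | T1 < w ∧ (rn G S10 w).card < a} with hW
  have hWno : ∀ K : Finset ℕ, (∀ x ∈ K, x ∈ W) → K.card = k' → ¬ Gᶜ.IsClique (K : Set ℕ) := by
    intro K hK hc
    exact noclique_W G l a T1 S10 hT1a (by rw [hS10c]; exact haL0) hT1c K hK (by omega)
  -- the induction
  have hind : ∀ k ≤ k', ∀ T, ∃ K : Finset ℕ, K.card = k ∧ (∀ x ∈ K, T < x ∧ x ∈ W) ∧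
      Gᶜ.IsClique (K : Set ℕ) := by
    intro k
    induction k with
    | zero => exact fun _ T => ⟨∅, by simp, by simp, by simp⟩
    | succ k ih =>
      intro hk T
      obtain ⟨S, hSa, hSb, hSc, hSd⟩ := hcon (max T T1)
      -- many vertices of `S` are in `W`
      have hsplit : (S.filter (fun w => w ∈ W)).card + (S.filter (fun w => ¬ w ∈ W)).card
          = S.card := Finset.card_filter_add_card_filter_not _
      have hZ : (S.filter (fun w => ¬ w ∈ W)).card < l' := by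
        by_contra hge
        push Not at hge
        refine noclique_Z G l a T1 S10 hT1b (S.filter (fun w => ¬ w ∈ W)) ?_ ?_ ?_
        · intro x hx
          obtain ⟨hxS, hxW⟩ := Finset.mem_filter.mp hx
          have h1 : T1 < x := lt_of_le_of_lt (le_max_right _ _) (hSa x hxS).1
          refine ⟨h1, ?_⟩
          by_contra hlt
          push Not at hlt
          exact hxW ⟨h1, hlt⟩
        · rw [hS10c]
          omega
        · intro x hx y hy hne
          exact hSb (Finset.mem_filter.mp hx).1 (Finset.mem_filter.mp hy).1 hne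
      obtain ⟨S0, hS0, hS0c⟩ := Finset.exists_subset_card_eq
        (s := S.filter (fun w => w ∈ W)) (n := L0) (by omega)
      have hS0S : ∀ v ∈ S0, v ∈ S ∧ v ∈ W := fun v hv => Finset.mem_filter.mp (hS0 hv)
      obtain ⟨T2, hT2a, hT2b, hT2c⟩ := hthr S0 (fun v hv => (hSa v (hS0S v hv).1).2)
        (fun A hA hc => hSd A (fun x hx => (hS0S x (hA hx)).1) hc)
      obtain ⟨T3, hT3⟩ := bounded_of_noclique G l' k'
        {w | w ∈ W ∧ T2 < w ∧ a ≤ (rn G S0 w).card}
        (fun K hK hc => noclique_Z G l a T2 S0 hT2b K (fun x hx => (hK x hx).2)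
          (by rw [hS0c]; omega))
        (fun K hK hc => hWno K (fun x hx => (hK x hx).1) hc)
      obtain ⟨K, hKc, hKm, hKcl⟩ := ih (by omega) (max T2 (max T3 T))
      have hfew : ∀ x ∈ K, (rn G S0 x).card < a := by
        intro x hx
        by_contra hge
        push Not at hge
        have h1 := (hKm x hx).1
        have h2 : T2 < x := lt_of_le_of_lt (le_max_left _ _) h1
        have h3 : T3 < x := lt_of_le_of_lt ((le_max_left _ _).trans (le_max_right _ _)) h1
        exact absurd (hT3 x ⟨(hKm x hx).2, h2, hge⟩) (not_le.mpr h3)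
      have hun : (K.biUnion (fun x => rn G S0 x)).card ≤ k * a := by
        calc (K.biUnion (fun x => rn G S0 x)).card ≤ ∑ x ∈ K, (rn G S0 x).card :=
              Finset.card_biUnion_le
          _ ≤ ∑ _x ∈ K, a := Finset.sum_le_sum (fun x hx => (hfew x hx).le)
          _ = k * a := by rw [Finset.sum_const, hKc, smul_eq_mul]
      have hlt : (K.biUnion (fun x => rn G S0 x)).card < S0.card := by
        have : k * a ≤ k' * a := Nat.mul_le_mul_right a (by omega)
        omega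
      obtain ⟨y, hy, hyn⟩ := Finset.exists_mem_notMem_of_card_lt_card hlt
      have hynadj : ∀ x ∈ K, ¬ G.Adj y x := by
        intro x hx hadj
        exact hyn (Finset.mem_biUnion.mpr ⟨x, hx, mem_rn.mpr ⟨hy, hadj⟩⟩)
      have hyT2 : y ≤ T2 := hT2a y hy
      have hyx : ∀ x ∈ K, y < x := fun x hx =>
        lt_of_le_of_lt hyT2 (lt_of_le_of_lt (le_max_left _ _) (hKm x hx).1)
      have hyK : y ∉ K := fun hh => absurd (hyx y hh) (lt_irrefl _)
      refine ⟨insert y K, ?_, ?_, ?_⟩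
      · rw [Finset.card_insert_of_notMem hyK, hKc]
      · intro x hx
        rcases Finset.mem_insert.mp hx with rfl | hx
        · exact ⟨lt_of_le_of_lt (le_max_left _ _) (hSa x (hS0S x hy).1).1, (hS0S x hy).2⟩
        · exact ⟨lt_of_le_of_lt ((le_max_right _ _).trans (le_max_right _ _)) (hKm x hx).1,
            (hKm x hx).2⟩
      · rw [Finset.coe_insert, SimpleGraph.isClique_insert]
        refine ⟨hKcl, fun x hx _ => ?_⟩
        rw [SimpleGraph.compl_adj]
        exact ⟨(hyx x hx).ne, hynadj x hx⟩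
  obtain ⟨K, hKc, hKm, hKcl⟩ := hind k' le_rfl 0
  exact hWno K (fun x hx => (hKm x hx).2) hKc hKcl

end Pool.Agent.RamseyFactor
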