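import Mathlib
import Pool.Agent.Work.MP_8cf4b7_co.Seeds
import Pool.Agent.Work.MP_8cf4b7_co.KST
import Pool.Agent.Work.MP_8cf4b7_co.Optim
import Pool.Agent.Work.MP_8cf4b7_co.Structure
import Pool.Agent.Work.MP_8cf4b7_co.AsympHall

/-!
The window argument.
-/

open Filter
open scoped ENNReal NNReal

namespace Pool.Agent.RamseyFactor

lemma exists_maximal_family (Q : Finset ℕ → Prop) (R : Finset ℕ) :
    ∃ Fm : Finset (Finset ℕ), (∀ S ∈ Fm, S ⊆ R ∧ Q S ∧ S.Nonempty) ∧
      (Fm : Set (Finset ℕ)).PairwiseDisjoint id ∧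
      ∀ S ⊆ R \ Fm.biUnion id, S.Nonempty → ¬ Q S := by
  classical
  induction R using Finset.strongInduction with
  | H R ih =>
    by_cases hex : ∃ S ⊆ R, S.Nonempty ∧ Q S
    · obtain ⟨S, hSR, hne, hQ⟩ := hex
      have hss : R \ S ⊂ R := by
        refine ⟨Finset.sdiff_subset, fun h => ?_⟩
        obtain ⟨x, hx⟩ := hne
        exact (Finset.mem_sdiff.mp (h (hSR hx))).2 hx
      obtain ⟨Fm, h1, h2, h3⟩ := ih (R \ S) hss
      refine ⟨insert S Fm, ?_, ?_, ?_⟩
      · intro S' hS'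
        rcases Finset.mem_insert.mp hS' with rfl | hS'
        · exact ⟨hSR, hQ, hne⟩
        · exact ⟨(h1 S' hS').1.trans Finset.sdiff_subset, (h1 S' hS').2⟩
      · rw [Finset.coe_insert]
        apply h2.insert
        intro S' hS' _
        have := (h1 S' hS').1
        rw [id, id, Finset.disjoint_left]
        intro x hx hx'
        exact (Finset.mem_sdiff.mp (this hx')).2 hx
      · intro S' hS'
        apply h3
        intro x hx
        have := hS' hx
        simp only [Finset.biUnion_insert, id, Finset.mem_sdiff, Finset.mem_union, not_or] at this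
        rw [Finset.mem_sdiff, Finset.mem_sdiff]
        exact ⟨⟨this.1, this.2.1⟩, this.2.2⟩
    · push Not at hex
      refine ⟨∅, by simp, by simp, ?_⟩
      intro S hS hne
      exact hex S (by simpa using hS) hne

/-- Good pairs. -/
def GPair (G : SimpleGraph ℕ) (l a c : ℕ) (A C : Finset ℕ) : Prop :=
  (A.card = a ∧ C.card = c) ∧ G.IsClique (A : Set ℕ) ∧ Good G l A ∧ ∀ x ∈ A, ∀ y ∈ C, G.Adj x y

/-- One colour, one time. -/
theorem half (l a c : ℕ) (ha : 0 < a) (hc : 0 < c) (δ : ℝ) (hδ : 0 < δ) :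
    ∃ n₀ : ℕ, ∀ G : SimpleGraph ℕ, ∃ T₁ : ℕ, ∀ n ≥ n₀, ∀ X Y : Finset ℕ, Disjoint X Y →
      X.card + Y.card ≤ n → (∀ v ∈ X, T₁ < v ∧ ¬ Good Gᶜ l {v}) →
      (∀ S ⊆ X, S.card = l → ¬ Gᶜ.IsClique (S : Set ℕ)) → ∀ d : ℝ, 0 ≤ d →
      (∃ Fm : Finset (Finset ℕ × Finset ℕ), (∀ p ∈ Fm, p.1 ⊆ X ∧ p.2 ⊆ Y ∧ GPair G l a c p.1 p.2) ∧
        ((Fm : Set (Finset ℕ × Finset ℕ)).PairwiseDisjoint (fun p => p.1 ∪ p.2)) ∧
        (Y.card : ℝ) - d - δ * n ≤ c * Fm.card) ∨
      (∃ X' ⊆ X, ∃ Y' ⊆ Y, d ≤ (Y'.card : ℝ) - (c / a : ℝ) * X'.card ∧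
        (ecount G (X \ X') Y' : ℝ) ≤ δ * (n : ℝ) ^ 2) := by
  obtain ⟨η, hη, n₁, H⟩ := asympHall a c ha hc δ hδ
  obtain ⟨L, hL⟩ := claim2 l a
  obtain ⟨M, hM⟩ := ramsey L l
  obtain ⟨n₂, hK⟩ := kst M c η hη
  refine ⟨max n₁ n₂, fun G => ?_⟩
  obtain ⟨T, hT⟩ := hL G
  refine ⟨T, fun n hn X Y hXY hcard hX hnb d hd => ?_⟩
  apply H n ((le_max_left _ _).trans hn) G X Y hXY hcard (GPair G l a c) (fun A C h => h.1) _ d hd
  intro X₀ hX₀ Y₀ hY₀ he
  have hc1 : X₀.card ≤ n := (Finset.card_le_card hX₀).trans (by omega)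
  have hc2 : Y₀.card ≤ n := (Finset.card_le_card hY₀).trans (by omega)
  obtain ⟨A₁, hA₁, hA₁c, C, hC, hCc, hadj⟩ := hK n ((le_max_right _ _).trans hn) G X₀ Y₀ hc1 hc2 he
  rcases hM G A₁ hA₁c.ge with ⟨S, hS, hSc, hcl⟩ | ⟨S, hS, hSc, hcl⟩
  · obtain ⟨A, hA, hAc, hgood⟩ := hT S (fun v hv => hX v (hX₀ (hA₁ (hS hv)))) hcl hSc.ge
    refine ⟨A, hA.trans (hS.trans hA₁), C, hC, ⟨hAc, hCc⟩, ?_, hgood, ?_⟩
    · exact hcl.subset (Finset.coe_subset.mpr hA)
    · intro x hx y hy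
      exact hadj x (hS (hA hx)) y hy
  · exact absurd hcl (hnb S (hS.trans (hA₁.trans hX₀)) hSc)

/-- Covering by seeds. -/
theorem cover {V : Type*} [Fintype V] [Nonempty V] (F : SimpleGraph V) (G : SimpleGraph ℕ)
    {I NI : Finset V} (hI : ∀ u ∈ I, ∀ v ∈ I, ¬ F.Adj u v)
    (hNI : ∀ v, v ∈ NI ↔ ∃ u ∈ I, F.Adj u v)
    (W Bd X : Finset ℕ) (Am : Finset (Finset ℕ)) (Fm : Finset (Finset ℕ × Finset ℕ)) (s : ℕ)
    (hgood : ∀ v ∈ W \ Bd, Good G (Fintype.card V) {v})
    (hAm : ∀ S ∈ Am, S ⊆ Bd ∧ (S.card = Fintype.card V ∧ G.IsClique (S : Set ℕ)) ∧ S.Nonempty)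
    (hAd : (Am : Set (Finset ℕ)).PairwiseDisjoint id)
    (hBd : Bd ⊆ W) (hX : X ⊆ W \ Bd)
    (hFm : ∀ p ∈ Fm, p.1 ⊆ X ∧ p.2 ⊆ (Bd \ Am.biUnion id).filter (· < s) ∧
      GPair G (Fintype.card V) NI.card I.card p.1 p.2)
    (hFd : ((Fm : Set (Finset ℕ × Finset ℕ)).PairwiseDisjoint (fun p => p.1 ∪ p.2))) :
    ∃ Sd : Finset (Finset ℕ), (Sd : Set (Finset ℕ)).PairwiseDisjoint id ∧
      (∀ S ∈ Sd, IsSeed F G S ∧ S ⊆ W) ∧
      ((W.filter (· < s)).card : ℝ) - ((((Bd \ Am.biUnion id).filter (· < s)).card : ℝ) -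
        I.card * Fm.card) ≤ (((Sd.biUnion id) ∩ Finset.range s).card : ℝ) := by
  classical
  set B' := (Bd \ Am.biUnion id).filter (· < s) with hB'
  set U1 : Finset (Finset ℕ) := Fm.image (fun p => p.1 ∪ p.2) with hU1
  set U2 : Finset (Finset ℕ) := ((W \ Bd) \ U1.biUnion id).image (fun v => {v}) with hU2
  have hB'B : B' ⊆ Bd := (Finset.filter_subset _ _).trans Finset.sdiff_subset
  have d1 : (U1 : Set (Finset ℕ)).PairwiseDisjoint id := by
    intro S hS S' hS' hne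
    rw [Finset.mem_coe, hU1, Finset.mem_image] at hS hS'
    obtain ⟨p, hp, rfl⟩ := hS
    obtain ⟨q, hq, rfl⟩ := hS'
    exact hFd hp hq (fun h => hne (by rw [h]))
  have d2 : (U2 : Set (Finset ℕ)).PairwiseDisjoint id := by
    intro S hS S' hS' hne
    rw [Finset.mem_coe, hU2, Finset.mem_image] at hS hS'
    obtain ⟨p, hp, rfl⟩ := hS
    obtain ⟨q, hq, rfl⟩ := hS'
    rw [Function.onFun, id, id, Finset.disjoint_singleton]
    exact fun h => hne (by rw [h])
  have d12 : ∀ S ∈ U1, ∀ S' ∈ U2, Disjoint S S' := by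
    intro S hS S' hS'
    rw [hU2, Finset.mem_image] at hS'
    obtain ⟨q, hq, rfl⟩ := hS'
    rw [Finset.disjoint_singleton_right]
    intro hq'
    exact (Finset.mem_sdiff.mp hq).2 (Finset.mem_biUnion.mpr ⟨S, hS, hq'⟩)
  have hU1sub : ∀ S ∈ U1, ∀ x ∈ S, (x ∈ W \ Bd) ∨ x ∈ Bd \ Am.biUnion id := by
    intro S hS x hx
    rw [hU1, Finset.mem_image] at hS
    obtain ⟨p, hp, rfl⟩ := hS
    rcases Finset.mem_union.mp hx with hx | hx
    · exact Or.inl (hX ((hFm p hp).1 hx))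
    · exact Or.inr (Finset.filter_subset _ _ ((hFm p hp).2.1 hx))
  have d13 : ∀ S ∈ U1, ∀ S' ∈ Am, Disjoint S S' := by
    intro S hS S' hS'
    rw [Finset.disjoint_left]
    intro x hx hx'
    rcases hU1sub S hS x hx with h | h
    · exact (Finset.mem_sdiff.mp h).2 ((hAm S' hS').1 hx')
    · exact (Finset.mem_sdiff.mp h).2 (Finset.mem_biUnion.mpr ⟨S', hS', hx'⟩)
  have d23 : ∀ S ∈ U2, ∀ S' ∈ Am, Disjoint S S' := by
    intro S hS S' hS'
    rw [hU2, Finset.mem_image] at hS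
    obtain ⟨q, hq, rfl⟩ := hS
    rw [Finset.disjoint_singleton_left]
    intro hq'
    exact (Finset.mem_sdiff.mp (Finset.mem_sdiff.mp hq).1).2 ((hAm S' hS').1 hq')
  refine ⟨(U1 ∪ U2) ∪ Am, ?_, ?_, ?_⟩
  · rw [Finset.coe_union, Finset.coe_union]
    apply Set.PairwiseDisjoint.union
    · apply Set.PairwiseDisjoint.union d1 d2
      intro S hS S' hS' _
      exact d12 S hS S' hS'
    · exact hAd
    · intro S hS S' hS' _
      rcases hS with hS | hS
      · exact d13 S hS S' hS'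
      · exact d23 S hS S' hS'
  · intro S hS
    rcases Finset.mem_union.mp hS with hS | hS
    · rcases Finset.mem_union.mp hS with hS | hS
      · rw [hU1, Finset.mem_image] at hS
        obtain ⟨p, hp, rfl⟩ := hS
        obtain ⟨h1, h2, ⟨⟨h3, h4⟩, h5, h6, h7⟩⟩ := hFm p hp
        refine ⟨isSeed_pair F hI hNI h3 h4 h5 h6 h7, ?_⟩
        apply Finset.union_subset
        · exact h1.trans (hX.trans Finset.sdiff_subset)
        · exact h2.trans (hB'B.trans hBd)
      · rw [hU2, Finset.mem_image] at hS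
        obtain ⟨q, hq, rfl⟩ := hS
        have hq' := (Finset.mem_sdiff.mp hq).1
        exact ⟨isSeed_singleton F (hgood q hq'),
          Finset.singleton_subset_iff.mpr (Finset.sdiff_subset hq')⟩
    · obtain ⟨h1, ⟨h2, h3⟩, _⟩ := hAm S hS
      exact ⟨isSeed_clique F h2 h3, h1.trans hBd⟩
  · set Q := Fm.biUnion (fun p => p.2) with hQ
    have hQc : Q.card = Fm.card * I.card := by
      rw [hQ, Finset.card_biUnion, Finset.sum_const_nat (fun p hp => (hFm p hp).2.2.1.2)]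
      intro p hp q hq hne
      exact (hFd hp hq hne).mono Finset.subset_union_right Finset.subset_union_right
    have hQB : Q ⊆ B' := by
      rw [hQ, Finset.biUnion_subset]
      exact fun p hp => (hFm p hp).2.1
    have hcov : W.filter (· < s) ⊆
        ((((U1 ∪ U2) ∪ Am).biUnion id) ∩ Finset.range s) ∪ (B' \ Q) := by
      intro x hx
      rw [Finset.mem_filter] at hx
      by_cases hxB : x ∈ Bd
      · by_cases hxA : x ∈ Am.biUnion id
        · apply Finset.mem_union_left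
          rw [Finset.mem_inter, Finset.mem_range]
          refine ⟨?_, hx.2⟩
          obtain ⟨S, hS, hxS⟩ := Finset.mem_biUnion.mp hxA
          exact Finset.mem_biUnion.mpr ⟨S, Finset.mem_union_right _ hS, hxS⟩
        · have hxB' : x ∈ B' := by
            rw [hB', Finset.mem_filter, Finset.mem_sdiff]
            exact ⟨⟨hxB, hxA⟩, hx.2⟩
          by_cases hxQ : x ∈ Q
          · apply Finset.mem_union_left
            rw [Finset.mem_inter, Finset.mem_range]
            refine ⟨?_, hx.2⟩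
            obtain ⟨p, hp, hxp⟩ := Finset.mem_biUnion.mp hxQ
            refine Finset.mem_biUnion.mpr ⟨p.1 ∪ p.2, ?_, Finset.mem_union_right _ hxp⟩
            apply Finset.mem_union_left
            apply Finset.mem_union_left
            exact Finset.mem_image.mpr ⟨p, hp, rfl⟩
          · apply Finset.mem_union_right
            exact Finset.mem_sdiff.mpr ⟨hxB', hxQ⟩
      · apply Finset.mem_union_left
        rw [Finset.mem_inter, Finset.mem_range]
        refine ⟨?_, hx.2⟩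
        by_cases hxU : x ∈ U1.biUnion id
        · obtain ⟨S, hS, hxS⟩ := Finset.mem_biUnion.mp hxU
          exact Finset.mem_biUnion.mpr ⟨S, Finset.mem_union_left _ (Finset.mem_union_left _ hS), hxS⟩
        · refine Finset.mem_biUnion.mpr ⟨{x}, ?_, Finset.mem_singleton_self _⟩
          apply Finset.mem_union_left
          apply Finset.mem_union_right
          exact Finset.mem_image.mpr
            ⟨x, Finset.mem_sdiff.mpr ⟨Finset.mem_sdiff.mpr ⟨hx.1, hxB⟩, hxU⟩, rfl⟩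
    have h1 := (Finset.card_le_card hcov).trans (Finset.card_union_le _ _)
    rw [Finset.card_sdiff_of_subset hQB, hQc] at h1
    have h2 : Fm.card * I.card ≤ B'.card := by
      rw [← hQc]
      exact Finset.card_le_card hQB
    have h3 : ((W.filter (· < s)).card : ℝ) ≤
        ((((U1 ∪ U2) ∪ Am).biUnion id) ∩ Finset.range s).card +
          ((B'.card : ℝ) - Fm.card * I.card) := by
      have h4 : ((W.filter (· < s)).card : ℝ) ≤
        ((((U1 ∪ U2) ∪ Am).biUnion id) ∩ Finset.range s).card +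
          ((B'.card - Fm.card * I.card : ℕ) : ℝ) := by exact_mod_cast h1
      rwa [Nat.cast_sub h2, Nat.cast_mul] at h4
    have h5 : (I.card : ℝ) * Fm.card = Fm.card * I.card := mul_comm _ _
    rw [h5]
    linarith

end Pool.Agent.RamseyFactor
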