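import Mathlib
import Pool.Agent.Work.MP_8cf4b7_co.Window

/-!
The lower bound.
-/

open Filter
open scoped ENNReal NNReal

namespace Pool.Agent.RamseyFactor

lemma side_step {V : Type*} [Fintype V] [Nonempty V] (F : SimpleGraph V) {I NI : Finset V}
    (hI : ∀ u ∈ I, ∀ v ∈ I, ¬ F.Adj u v) (hNI : ∀ v, v ∈ NI ↔ ∃ u ∈ I, F.Adj u v)
    (κ δ : ℝ) (hκ : 0 < κ) (G : SimpleGraph ℕ) (T T₀ T₁ n s : ℕ) (hTT : T ≤ T₀) (hT₁ : T₁ ≤ T₀)
    (hsn : s ≤ n)
    (H : ∀ X Y : Finset ℕ, Disjoint X Y →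
      X.card + Y.card ≤ n → (∀ v ∈ X, T₁ < v ∧ ¬ Good Gᶜ (Fintype.card V) {v}) →
      (∀ S ⊆ X, S.card = Fintype.card V → ¬ Gᶜ.IsClique (S : Set ℕ)) → ∀ d : ℝ, 0 ≤ d →
      (∃ Fm : Finset (Finset ℕ × Finset ℕ), (∀ p ∈ Fm, p.1 ⊆ X ∧ p.2 ⊆ Y ∧
          GPair G (Fintype.card V) NI.card I.card p.1 p.2) ∧
        ((Fm : Set (Finset ℕ × Finset ℕ)).PairwiseDisjoint (fun p => p.1 ∪ p.2)) ∧
        (Y.card : ℝ) - d - δ * n ≤ I.card * Fm.card) ∨
      (∃ X' ⊆ X, ∃ Y' ⊆ Y, d ≤ (Y'.card : ℝ) - (I.card / NI.card : ℝ) * X'.card ∧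
        (ecount G (X \ X') Y' : ℝ) ≤ δ * (n : ℝ) ^ 2))
    (R B R' : Finset ℕ) (Am : Finset (Finset ℕ)) (hRW : R ⊆ Finset.Ioc T₀ n)
    (hBW : B ⊆ Finset.Ioc T₀ n) (hRB : Disjoint R B)
    (hR : ∀ v ∈ R, ¬ Good Gᶜ (Fintype.card V) {v})
    (hB : ∀ v ∈ Finset.Ioc T₀ n, v ∉ B → Good G (Fintype.card V) {v}) (hR'R : R' ⊆ R)
    (hR' : ∀ S ⊆ R', S.card = Fintype.card V → ¬ Gᶜ.IsClique (S : Set ℕ))
    (hAm : ∀ S ∈ Am, S ⊆ B ∧ (S.card = Fintype.card V ∧ G.IsClique (S : Set ℕ)) ∧ S.Nonempty)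
    (hAd : (Am : Set (Finset ℕ)).PairwiseDisjoint id) :
    (∃ Sd : Finset (Finset ℕ), (Sd : Set (Finset ℕ)).PairwiseDisjoint id ∧
      (∀ S ∈ Sd, IsSeed F G S ∧ ∀ x ∈ S, T < x) ∧
      (s : ℝ) - 1 - T₀ - s / κ - δ * n ≤ (((Sd.biUnion id) ∩ Finset.range s).card : ℝ)) ∨
    (∃ X' ⊆ R', ∃ Y' ⊆ (B \ Am.biUnion id).filter (· < s),
      s / κ ≤ (Y'.card : ℝ) - (I.card / NI.card : ℝ) * X'.card ∧
        (ecount G (R' \ X') Y' : ℝ) ≤ δ * (n : ℝ) ^ 2) := by
  classical
  set B' := (B \ Am.biUnion id).filter (· < s) with hB'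
  have hB'B : B' ⊆ B := (Finset.filter_subset _ _).trans Finset.sdiff_subset
  have hdisj : Disjoint R' B' := hRB.mono hR'R hB'B
  have hcard : R'.card + B'.card ≤ n := by
    rw [← Finset.card_union_of_disjoint hdisj]
    calc (R' ∪ B').card ≤ (Finset.Ioc T₀ n).card :=
          Finset.card_le_card (Finset.union_subset (hR'R.trans hRW) (hB'B.trans hBW))
      _ ≤ n := by rw [Nat.card_Ioc]; omega
  rcases H R' B' hdisj hcard (fun v hv => ⟨hT₁.trans_lt (Finset.mem_Ioc.mp (hRW (hR'R hv))).1,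
    hR v (hR'R hv)⟩) hR' (s / κ) (by positivity) with ⟨Fm, h1, h2, h3⟩ | h
  · left
    obtain ⟨Sd, k1, k2, k3⟩ := cover F G hI hNI (Finset.Ioc T₀ n) B R' Am Fm s
      (fun v hv => hB v (Finset.mem_sdiff.mp hv).1 (Finset.mem_sdiff.mp hv).2) hAm hAd hBW
      (fun v hv => Finset.mem_sdiff.mpr ⟨hRW (hR'R hv), Finset.disjoint_left.mp hRB (hR'R hv)⟩)
      h1 h2
    refine ⟨Sd, k1, fun S hS => ⟨(k2 S hS).1, fun x hx => ?_⟩, ?_⟩
    · exact hTT.trans_lt (Finset.mem_Ioc.mp ((k2 S hS).2 hx)).1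
    · refine le_trans ?_ k3
      have h4 : (s : ℝ) - 1 - T₀ ≤ (((Finset.Ioc T₀ n).filter (· < s)).card : ℝ) := by
        have h5 : Finset.Ioo T₀ s ⊆ (Finset.Ioc T₀ n).filter (· < s) := by
          intro x hx
          rw [Finset.mem_Ioo] at hx
          rw [Finset.mem_filter, Finset.mem_Ioc]
          exact ⟨⟨hx.1, hx.2.le.trans hsn⟩, hx.2⟩
        have h6 := Finset.card_le_card h5
        rw [Nat.card_Ioo] at h6
        have h7 : s ≤ ((Finset.Ioc T₀ n).filter (· < s)).card + 1 + T₀ := by omega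
        have h8 : (s : ℝ) ≤ (((Finset.Ioc T₀ n).filter (· < s)).card : ℝ) + 1 + T₀ := by
          exact_mod_cast h7
        linarith
      linarith
  · right
    exact h

theorem window {V : Type*} [Fintype V] [Nonempty V] (F : SimpleGraph V) {I NI : Finset V}
    (hI : ∀ u ∈ I, ∀ v ∈ I, ¬ F.Adj u v) (hNI : ∀ v, v ∈ NI ↔ ∃ u ∈ I, F.Adj u v)
    (hI0 : 0 < I.card) (hN0 : 0 < NI.card) (κ : ℝ) (hκ : 0 < κ)
    (h : ENNReal.ofReal κ < kfun ((NI.card : ℝ) / I.card)) (ε : ℝ) (hε : 0 < ε)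
    (hpos : 0 < 1 - 1 / κ - ε) (G : SimpleGraph ℕ) (T : ℕ) :
    ∃ t > T, ∃ G' : SimpleGraph ℕ, (G' = G ∨ G' = Gᶜ) ∧ ∃ Sd : Finset (Finset ℕ), Sd.Nonempty ∧
      (Sd : Set (Finset ℕ)).PairwiseDisjoint id ∧ (∀ S ∈ Sd, IsSeed F G' S ∧ ∀ x ∈ S, T < x) ∧
      (1 - 1 / κ - ε) * t ≤ (((Sd.biUnion id) ∩ Finset.range t).card : ℝ) := by
  classical
  have hI0' : (0 : ℝ) < I.card := by exact_mod_cast hI0
  have hN0' : (0 : ℝ) < NI.card := by exact_mod_cast hN0
  set l : ℝ := (NI.card : ℝ) / I.card with hl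
  have hlpos : 0 < l := by positivity
  set m := Fintype.card V with hm
  obtain ⟨K, hK, η, hη, n₁, Hopt⟩ := optim l κ hlpos hκ h
  have hKpos : 0 < K := by linarith
  set δ : ℝ := min (η ^ 2 / 2) (ε / (2 * K)) with hδ
  have hδpos : 0 < δ := lt_min (by positivity) (by positivity)
  obtain ⟨n₂, Hhalf⟩ := half m NI.card I.card hN0 hI0 δ hδpos
  obtain ⟨T₁, H1⟩ := Hhalf G
  obtain ⟨T₂, H2⟩ := Hhalf Gᶜ
  obtain ⟨T₃, hT₃⟩ := claim1 G m
  set T₀ := max (max T T₁) (max T₂ T₃) with hT₀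
  have hTT : T ≤ T₀ := (le_max_left _ _).trans (le_max_left _ _)
  have hTT1 : T₁ ≤ T₀ := (le_max_right _ _).trans (le_max_left _ _)
  have hTT2 : T₂ ≤ T₀ := (le_max_left _ _).trans (le_max_right _ _)
  have hTT3 : T₃ ≤ T₀ := (le_max_right _ _).trans (le_max_right _ _)
  obtain ⟨n₃, hn₃⟩ := exists_nat_ge (K * (1 + T₀) * (1 + 2 / ε))
  set n := max (max n₁ n₂) (max n₃ 1) with hn
  have hnn1 : n₁ ≤ n := (le_max_left _ _).trans (le_max_left _ _)
  have hnn2 : n₂ ≤ n := (le_max_right _ _).trans (le_max_left _ _)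
  have hnn3 : n₃ ≤ n := (le_max_left _ _).trans (le_max_right _ _)
  have hn1 : 1 ≤ n := (le_max_right _ _).trans (le_max_right _ _)
  have hnpos : (0 : ℝ) < n := by exact_mod_cast hn1
  have hT0 : (0 : ℝ) ≤ T₀ := Nat.cast_nonneg _
  have hnbig : (1 + T₀) * (1 + 2 / ε) ≤ (n : ℝ) / K := by
    rw [le_div_iff₀ hKpos]
    calc (1 + (T₀ : ℝ)) * (1 + 2 / ε) * K = K * (1 + T₀) * (1 + 2 / ε) := by ring
      _ ≤ n₃ := hn₃
      _ ≤ n := by exact_mod_cast hnn3
  set R := (Finset.Ioc T₀ n).filter (fun v => ¬ Good Gᶜ m {v}) with hR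
  set B := (Finset.Ioc T₀ n).filter (fun v => ¬ Good G m {v}) with hB
  have hRB : Disjoint R B := by
    rw [Finset.disjoint_left]
    intro v hv hv'
    rw [hR, Finset.mem_filter, Finset.mem_Ioc] at hv
    rw [hB, Finset.mem_filter] at hv'
    rcases hT₃ v (hTT3.trans_lt hv.1.1) with h1 | h1
    · exact hv'.2 h1
    · exact hv.2 h1
  obtain ⟨Rm, hRm1, hRm2, hRm3⟩ := exists_maximal_family
    (fun S => S.card = m ∧ Gᶜ.IsClique (S : Set ℕ)) R
  obtain ⟨Am, hAm1, hAm2, hAm3⟩ := exists_maximal_family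
    (fun S => S.card = m ∧ G.IsClique (S : Set ℕ)) B
  have hmpos : 0 < m := Fintype.card_pos
  set R' := R \ Rm.biUnion id with hR'
  set B' := B \ Am.biUnion id with hB'
  have hR'cl : ∀ S ⊆ R', S.card = m → ¬ Gᶜ.IsClique (S : Set ℕ) := by
    intro S hS hc hcl
    exact hRm3 S hS (by rw [← Finset.card_pos, hc]; exact hmpos) ⟨hc, hcl⟩
  have hB'cl : ∀ S ⊆ B', S.card = m → ¬ G.IsClique (S : Set ℕ) := by
    intro S hS hc hcl
    exact hAm3 S hS (by rw [← Finset.card_pos, hc]; exact hmpos) ⟨hc, hcl⟩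
  by_contra hcon
  push Not at hcon
  -- both colours fail at every time
  have hwin : ∀ s : ℕ, (n : ℝ) / K ≤ s → s ≤ n → ∀ G' : SimpleGraph ℕ, (G' = G ∨ G' = Gᶜ) →
      ¬ ∃ Sd : Finset (Finset ℕ), (Sd : Set (Finset ℕ)).PairwiseDisjoint id ∧
      (∀ S ∈ Sd, IsSeed F G' S ∧ ∀ x ∈ S, T < x) ∧
      (s : ℝ) - 1 - T₀ - s / κ - δ * n ≤ (((Sd.biUnion id) ∩ Finset.range s).card : ℝ) := by
    rintro s hs1 hs2 G' hG' ⟨Sd, k1, k2, k3⟩
    have hspos : (0 : ℝ) < s := lt_of_lt_of_le (by positivity) hs1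
    have hsT : T < s := by
      have h1 : (1 + (T₀ : ℝ)) * 1 ≤ (1 + T₀) * (1 + 2 / ε) := by
        apply mul_le_mul_of_nonneg_left _ (by positivity)
        have : 0 < 2 / ε := by positivity
        linarith
      have h2 : (T₀ : ℝ) < s := by linarith
      have h3 : T₀ < s := by exact_mod_cast h2
      exact hTT.trans_lt h3
    have e1 : (1 + (T₀ : ℝ)) ≤ ε / 2 * s := by
      have h1 : (1 + (T₀ : ℝ)) * (2 / ε) ≤ (1 + T₀) * (1 + 2 / ε) := by
        apply mul_le_mul_of_nonneg_left _ (by positivity)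
        linarith
      have h2 : (1 + (T₀ : ℝ)) * (2 / ε) ≤ s := by linarith
      calc (1 + (T₀ : ℝ)) = ε / 2 * ((1 + T₀) * (2 / ε)) := by field_simp
        _ ≤ ε / 2 * s := mul_le_mul_of_nonneg_left h2 (by positivity)
    have e2 : δ * n ≤ ε / 2 * s := by
      have h1 : (n : ℝ) ≤ K * s := by
        rw [div_le_iff₀ hKpos] at hs1
        linarith
      calc δ * n ≤ ε / (2 * K) * n := mul_le_mul_of_nonneg_right (min_le_right _ _) hnpos.le
        _ ≤ ε / (2 * K) * (K * s) := mul_le_mul_of_nonneg_left h1 (by positivity)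
        _ = ε / 2 * s := by field_simp
    have e3 : (1 - 1 / κ - ε) * s ≤ (((Sd.biUnion id) ∩ Finset.range s).card : ℝ) := by
      have h1 : (1 - 1 / κ - ε) * s = s - s / κ - ε * s := by ring
      rw [h1]
      linarith
    have hne : Sd.Nonempty := by
      by_contra hne
      rw [Finset.not_nonempty_iff_eq_empty] at hne
      rw [hne] at e3
      simp only [Finset.biUnion_empty, Finset.empty_inter, Finset.card_empty, Nat.cast_zero] at e3
      have : 0 < (1 - 1 / κ - ε) * s := mul_pos hpos hspos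
      linarith
    exact absurd e3 (not_le.mpr (hcon s hsT G' hG' Sd hne k1 k2))
  have hred : ∀ s : ℕ, ∃ X' Y' : Finset ℕ, (n : ℝ) / K ≤ s → s ≤ n →
      (X' ⊆ R' ∧ Y' ⊆ B'.filter (· < s) ∧
        s / κ ≤ (Y'.card : ℝ) - (I.card / NI.card : ℝ) * X'.card ∧
        (ecount G (R' \ X') Y' : ℝ) ≤ δ * (n : ℝ) ^ 2) := by
    intro s
    by_cases hs : (n : ℝ) / K ≤ s ∧ s ≤ n
    · rcases side_step F hI hNI κ δ hκ G T T₀ T₁ n s hTT hTT1 hs.2 (H1 n hnn2) R B R' Am
        (Finset.filter_subset _ _) (Finset.filter_subset _ _) hRB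
        (fun v hv => (Finset.mem_filter.mp hv).2)
        (fun v hv hv' => by
          by_contra hg
          exact hv' (Finset.mem_filter.mpr ⟨hv, hg⟩))
        Finset.sdiff_subset hR'cl hAm1 hAm2 with h1 | ⟨X', hX', Y', hY', h1, h2⟩
      · exact absurd h1 (hwin s hs.1 hs.2 G (Or.inl rfl))
      · exact ⟨X', Y', fun _ _ => ⟨hX', hY', h1, h2⟩⟩
    · exact ⟨∅, ∅, fun h1 h2 => absurd ⟨h1, h2⟩ hs⟩
  have hblue : ∀ s : ℕ, ∃ X' Y' : Finset ℕ, (n : ℝ) / K ≤ s → s ≤ n →
      (X' ⊆ B' ∧ Y' ⊆ R'.filter (· < s) ∧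
        s / κ ≤ (Y'.card : ℝ) - (I.card / NI.card : ℝ) * X'.card ∧
        (ecount Gᶜ (B' \ X') Y' : ℝ) ≤ δ * (n : ℝ) ^ 2) := by
    intro s
    by_cases hs : (n : ℝ) / K ≤ s ∧ s ≤ n
    · rcases side_step F hI hNI κ δ hκ Gᶜ T T₀ T₂ n s hTT hTT2 hs.2 (H2 n hnn2) B R B' Rm
        (Finset.filter_subset _ _) (Finset.filter_subset _ _) hRB.symm
        (fun v hv => by
          rw [compl_compl]
          exact (Finset.mem_filter.mp hv).2)
        (fun v hv hv' => by
          by_contra hg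
          exact hv' (Finset.mem_filter.mpr ⟨hv, hg⟩))
        Finset.sdiff_subset (by rw [compl_compl]; exact hB'cl) hRm1 hRm2
        with h1 | ⟨X', hX', Y', hY', h1, h2⟩
      · exact absurd h1 (hwin s hs.1 hs.2 Gᶜ (Or.inr rfl))
      · exact ⟨X', Y', fun _ _ => ⟨hX', hY', h1, h2⟩⟩
    · exact ⟨∅, ∅, fun h1 h2 => absurd ⟨h1, h2⟩ hs⟩
  choose X1 Y1 hX1 using hred
  choose X2 Y2 hX2 using hblue
  have hR'B' : Disjoint R' B' := hRB.mono Finset.sdiff_subset Finset.sdiff_subset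
  have hcl : ∀ x : ℝ, (I.card / NI.card : ℝ) * x = x / l := by
    intro x
    rw [hl]
    field_simp
  apply Hopt n hnn1 (fun s => (X1 s).card) (fun s => (Y1 s).card) (fun s => (Y2 s).card)
    (fun s => (X2 s).card) (fun s => ⟨by positivity, by positivity, by positivity, by positivity⟩)
  · intro s hs1 hs2
    obtain ⟨a1, a2, a3, a4⟩ := hX1 s hs1 hs2
    obtain ⟨b1, b2, b3, b4⟩ := hX2 s hs1 hs2
    refine ⟨?_, ?_, ?_⟩
    · have hd : Disjoint (Y1 s) (Y2 s) :=
        (hR'B'.mono (b2.trans (Finset.filter_subset _ _)) (a2.trans (Finset.filter_subset _ _))).symm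
      have hsub : Y1 s ∪ Y2 s ⊆ Finset.range s := by
        intro x hx
        rw [Finset.mem_range]
        rcases Finset.mem_union.mp hx with hx | hx
        · exact (Finset.mem_filter.mp (a2 hx)).2
        · exact (Finset.mem_filter.mp (b2 hx)).2
      have := Finset.card_le_card hsub
      rw [Finset.card_union_of_disjoint hd, Finset.card_range] at this
      exact_mod_cast this
    · rw [hcl] at a3
      exact a3
    · rw [hcl] at b3
      exact b3
  · intro s t hs1 hs2 ht1 ht2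
    obtain ⟨a1, a2, a3, a4⟩ := hX1 s hs1 hs2
    obtain ⟨b1, b2, b3, b4⟩ := hX2 t ht1 ht2
    set P := Y1 s \ X2 t with hP
    set Q := Y2 t \ X1 s with hQ
    have hPQ : Disjoint P Q :=
      (hR'B'.mono (Finset.sdiff_subset.trans (b2.trans (Finset.filter_subset _ _)))
        (Finset.sdiff_subset.trans (a2.trans (Finset.filter_subset _ _)))).symm
    have hcnt := ecount_add_compl G hPQ
    have c1 : ecount G P Q ≤ ecount G (R' \ X1 s) (Y1 s) := by
      rw [ecount_comm]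
      apply ecount_mono
      · exact Finset.sdiff_subset_sdiff (b2.trans (Finset.filter_subset _ _)) subset_rfl
      · exact Finset.sdiff_subset
    have c2 : ecount Gᶜ P Q ≤ ecount Gᶜ (B' \ X2 t) (Y2 t) := by
      apply ecount_mono
      · exact Finset.sdiff_subset_sdiff (a2.trans (Finset.filter_subset _ _)) subset_rfl
      · exact Finset.sdiff_subset
    have c3 : (P.card : ℝ) * Q.card ≤ (η * n) ^ 2 := by
      have e1 : (P.card : ℝ) * Q.card = ecount G P Q + ecount Gᶜ P Q := by exact_mod_cast hcnt.symm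
      have e2 : (ecount G P Q : ℝ) ≤ ecount G (R' \ X1 s) (Y1 s) := by exact_mod_cast c1
      have e3 : (ecount Gᶜ P Q : ℝ) ≤ ecount Gᶜ (B' \ X2 t) (Y2 t) := by exact_mod_cast c2
      have e4 : δ * (n : ℝ) ^ 2 ≤ η ^ 2 / 2 * (n : ℝ) ^ 2 :=
        mul_le_mul_of_nonneg_right (min_le_left _ _) (by positivity)
      nlinarith
    by_cases hcase : (P.card : ℝ) ≤ η * n
    · left
      have e1 : (Y1 s).card ≤ P.card + (X2 t).card := by
        rw [hP]
        calc (Y1 s).card ≤ (Y1 s \ X2 t ∪ X2 t).card := Finset.card_le_card (by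
              intro x hx
              by_cases h : x ∈ X2 t
              · exact Finset.mem_union_right _ h
              · exact Finset.mem_union_left _ (Finset.mem_sdiff.mpr ⟨hx, h⟩))
          _ ≤ _ := Finset.card_union_le _ _
      have e2 : ((Y1 s).card : ℝ) ≤ P.card + (X2 t).card := by exact_mod_cast e1
      linarith
    · right
      have hQc : (Q.card : ℝ) ≤ η * n := by
        by_contra hcon2
        push Not at hcase hcon2
        have h0 : 0 < η * n := by positivity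
        nlinarith
      have e1 : (Y2 t).card ≤ Q.card + (X1 s).card := by
        rw [hQ]
        calc (Y2 t).card ≤ (Y2 t \ X1 s ∪ X1 s).card := Finset.card_le_card (by
              intro x hx
              by_cases h : x ∈ X1 s
              · exact Finset.mem_union_right _ h
              · exact Finset.mem_union_left _ (Finset.mem_sdiff.mpr ⟨hx, h⟩))
          _ ≤ _ := Finset.card_union_le _ _
      have e2 : ((Y2 t).card : ℝ) ≤ Q.card + (X1 s).card := by exact_mod_cast e1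
      linarith

/-- `kfun l ≥ 2` for `l > 0`. -/
lemma two_le_kfun (l : ℝ) (hl : 0 < l) : 2 ≤ kfun l := by
  have hh : ENNReal.ofReal ((l + 1) / l) ≤ hfun ((l - 1) / (l + 1)) := by
    unfold hfun
    refine le_iInf fun g => le_iInf fun hg => le_iInf fun hg0 => ?_
    have hbd : ∀ x : ℝ≥0, |g x| ≤ x := by
      intro x
      have := hg.dist_le_mul x 0
      rw [hg0, Real.dist_eq, sub_zero, NNReal.dist_eq] at this
      simpa using this
    have key : ∀ t : ℝ, 0 < t → ENNReal.ofReal ((l + 1) / l) ≤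
        (Gam ((l - 1) / (l + 1)) g t + Gam ((l - 1) / (l + 1)) (fun x => - g x) t) /
          ENNReal.ofReal t := by
      intro t ht
      have hl1 : l + 1 ≠ 0 := by positivity
      have hG : ∀ g' : ℝ≥0 → ℝ, (∀ x, |g' x| ≤ x) →
          ENNReal.ofReal (t * ((l + 1) / (2 * l))) ≤ Gam ((l - 1) / (l + 1)) g' t := by
        intro g' hg'
        unfold Gam
        refine le_iInf fun x => le_iInf fun hx => ?_
        rw [← ENNReal.ofReal_coe_nnreal]
        apply ENNReal.ofReal_le_ofReal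
        have h1 : t ≤ (l - 1) / (l + 1) * x + x := hx.trans (by
          have := (le_abs_self _).trans (hg' x)
          linarith)
        have h2 : (l - 1) / (l + 1) * x + x = 2 * l / (l + 1) * (x : ℝ) := by
          field_simp
          ring
        rw [h2] at h1
        calc t * ((l + 1) / (2 * l)) ≤ (2 * l / (l + 1) * (x : ℝ)) * ((l + 1) / (2 * l)) :=
              mul_le_mul_of_nonneg_right h1 (by positivity)
          _ = x := by field_simp
      rw [ENNReal.le_div_iff_mul_le (Or.inl (by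
        rw [Ne, ENNReal.ofReal_eq_zero]; linarith)) (Or.inl ENNReal.ofReal_ne_top),
        ← ENNReal.ofReal_mul (by positivity)]
      calc ENNReal.ofReal ((l + 1) / l * t) =
          ENNReal.ofReal (t * ((l + 1) / (2 * l))) + ENNReal.ofReal (t * ((l + 1) / (2 * l))) := by
            rw [← ENNReal.ofReal_add (by positivity) (by positivity)]
            congr 1
            field_simp
            ring
        _ ≤ _ := add_le_add (hG g hbd) (hG (fun x => - g x) (fun x => by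
            simpa using hbd x))
    refine le_trans ?_ (liminf_le_limsup (by isBoundedDefault) (by isBoundedDefault))
    apply le_liminf_of_le (by isBoundedDefault)
    filter_upwards [eventually_gt_atTop (0 : ℝ)] with t ht
    exact key t ht
  unfold kfun
  calc (2 : ℝ≥0∞) = ENNReal.ofReal (2 * l / (1 + l) ^ 2) * ENNReal.ofReal ((l + 1) / l) +
      ENNReal.ofReal (2 * l / (1 + l)) := by
        rw [← ENNReal.ofReal_mul (by positivity), ← ENNReal.ofReal_add (by positivity)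
          (by positivity)]
        have : 2 * l / (1 + l) ^ 2 * ((l + 1) / l) + 2 * l / (1 + l) = 2 := by
          field_simp
          ring
        rw [this]
        norm_num
    _ ≤ _ := by gcongr

end Pool.Agent.RamseyFactor
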