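import Mathlib
import Pool.Agent.Work.MP_8cf4b7_co.Lower

/-!
The lower bound `f(m(F)) ≤ ρ(ω·F)`.
-/

open Filter
open scoped ENNReal NNReal

namespace Pool.Agent.RamseyFactor

variable {V : Type*} [Fintype V] [Nonempty V]

lemma rho_bddAbove {W : Type*} (H : SimpleGraph W) :
    BddAbove {l : ℝ | ∀ G : SimpleGraph ℕ, ∃ φ : W → ℕ, Function.Injective φ ∧
    ((∀ u v, H.Adj u v → G.Adj (φ u) (φ v)) ∨ (∀ u v, H.Adj u v → Gᶜ.Adj (φ u) (φ v))) ∧
    l ≤ upperDensity (Set.range φ)} := by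
  refine ⟨1, fun l hl => ?_⟩
  obtain ⟨φ, _, _, h⟩ := hl ⊥
  exact h.trans (upperDensity_le_one _)

/-- From finite families in one of the two colours to `ρ`. -/
theorem le_rho_of_families (F : SimpleGraph V) (r : ℝ)
    (h : ∀ G : SimpleGraph ℕ, ∀ T : ℕ, ∃ t > T, ∃ G' : SimpleGraph ℕ, (G' = G ∨ G' = Gᶜ) ∧
      ∃ Sd : Finset (Finset ℕ), Sd.Nonempty ∧
      (Sd : Set (Finset ℕ)).PairwiseDisjoint id ∧ (∀ S ∈ Sd, IsSeed F G' S ∧ ∀ x ∈ S, T < x) ∧
      r * t ≤ (((Sd.biUnion id) ∩ Finset.range t).card : ℝ)) :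
    r ≤ rho (omegaCopies F) := by
  apply le_csSup (rho_bddAbove _)
  intro G
  -- one colour works for all `T`
  have hcol : ∃ G' : SimpleGraph ℕ, (G' = G ∨ G' = Gᶜ) ∧ ∀ T : ℕ, ∃ t > T,
      ∃ Sd : Finset (Finset ℕ), Sd.Nonempty ∧
      (Sd : Set (Finset ℕ)).PairwiseDisjoint id ∧ (∀ S ∈ Sd, IsSeed F G' S ∧ ∀ x ∈ S, T < x) ∧
      r * t ≤ (((Sd.biUnion id) ∩ Finset.range t).card : ℝ) := by
    by_contra hcon
    push Not at hcon
    obtain ⟨T1, h1⟩ := hcon G (Or.inl rfl)
    obtain ⟨T2, h2⟩ := hcon Gᶜ (Or.inr rfl)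
    obtain ⟨t, ht, G', hG', Sd, k1, k2, k3, k4⟩ := h G (max T1 T2)
    rcases hG' with rfl | rfl
    · exact absurd k4 (not_le.mpr (h1 t ((le_max_left _ _).trans_lt ht) Sd k1 k2
        (fun S hS => ⟨(k3 S hS).1, fun x hx => (le_max_left _ _).trans_lt ((k3 S hS).2 x hx)⟩)))
    · exact absurd k4 (not_le.mpr (h2 t ((le_max_right _ _).trans_lt ht) Sd k1 k2
        (fun S hS => ⟨(k3 S hS).1, fun x hx => (le_max_right _ _).trans_lt ((k3 S hS).2 x hx)⟩)))
  obtain ⟨G', hG', hT⟩ := hcol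
  obtain ⟨φ, p1, p2, p3⟩ := assemble F G' r hT
  refine ⟨φ, p1, ?_, p3⟩
  rcases hG' with rfl | rfl
  · exact Or.inl p2
  · exact Or.inr p2

/-- Every value `1 - 1/κ` with `κ < kfun` is at most `ρ`. -/
theorem le_rho_of_lt (F : SimpleGraph V) {I NI : Finset V}
    (hI : ∀ u ∈ I, ∀ v ∈ I, ¬ F.Adj u v) (hNI : ∀ v, v ∈ NI ↔ ∃ u ∈ I, F.Adj u v)
    (hI0 : 0 < I.card) (hN0 : 0 < NI.card) (κ : ℝ) (hκ : 0 < κ)
    (h : ENNReal.ofReal κ < kfun ((NI.card : ℝ) / I.card)) :
    1 - 1 / κ ≤ rho (omegaCopies F) := by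
  have hI0' : (0 : ℝ) < I.card := by exact_mod_cast hI0
  have hN0' : (0 : ℝ) < NI.card := by exact_mod_cast hN0
  set κ' := max κ (3 / 2) with hκ'
  have hκ'pos : 0 < κ' := lt_of_lt_of_le hκ (le_max_left _ _)
  have h32 : 3 / 2 ≤ κ' := le_max_right _ _
  have h' : ENNReal.ofReal κ' < kfun ((NI.card : ℝ) / I.card) := by
    rcases max_cases κ (3 / 2 : ℝ) with ⟨h1, _⟩ | ⟨h1, _⟩
    · rw [hκ', h1]; exact h
    · rw [hκ', h1]
      refine lt_of_lt_of_le ?_ (two_le_kfun _ (by positivity))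
      rw [show (2 : ℝ≥0∞) = ENNReal.ofReal 2 by norm_num]
      rw [ENNReal.ofReal_lt_ofReal_iff (by norm_num)]
      norm_num
  have h1 : 1 / κ' ≤ 2 / 3 := by
    rw [div_le_iff₀ hκ'pos]
    linarith
  have h2 : 1 - 1 / κ ≤ 1 - 1 / κ' := by
    have : 1 / κ' ≤ 1 / κ := one_div_le_one_div_of_le hκ (le_max_left _ _)
    linarith
  refine h2.trans (le_of_forall_pos_lt_add fun ε hε => ?_)
  have hε' : 0 < min (ε / 2) (1 / 6) := lt_min (by linarith) (by norm_num)
  have h3 : 0 < 1 - 1 / κ' - min (ε / 2) (1 / 6) := by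
    have : min (ε / 2) (1 / 6 : ℝ) ≤ 1 / 6 := min_le_right _ _
    linarith
  have h4 := le_rho_of_families F (1 - 1 / κ' - min (ε / 2) (1 / 6))
    (fun G T => window F hI hNI hI0 hN0 κ' hκ'pos h' _ hε' h3 G T)
  have : min (ε / 2) (1 / 6 : ℝ) ≤ ε / 2 := min_le_left _ _
  linarith

/-- If `F` has an isolated vertex then `ρ(ω·F) ≥ 1`. -/
theorem one_le_rho_of_isolated (F : SimpleGraph V) (v0 : V) (hv0 : ∀ v, ¬ F.Adj v0 v) :
    1 ≤ rho (omegaCopies F) := by
  classical
  refine le_of_forall_pos_lt_add fun ε hε => ?_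
  have key : 1 - ε / 2 ≤ rho (omegaCopies F) := by
    apply le_rho_of_families F
    intro G T
    -- far cliques in one colour
    obtain ⟨N, hN⟩ := ramsey (Fintype.card V) (Fintype.card V)
    have hcl : ∃ G' : SimpleGraph ℕ, (G' = G ∨ G' = Gᶜ) ∧ ∀ T : ℕ, ∃ K : Finset ℕ,
        K.card = Fintype.card V ∧ (∀ x ∈ K, T < x) ∧ G'.IsClique (K : Set ℕ) := by
      by_contra hcon
      push Not at hcon
      obtain ⟨T1, h1⟩ := hcon G (Or.inl rfl)
      obtain ⟨T2, h2⟩ := hcon Gᶜ (Or.inr rfl)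
      have hS : ∀ x ∈ Finset.Ioc (max T1 T2) (max T1 T2 + N), max T1 T2 < x := fun x hx =>
        (Finset.mem_Ioc.mp hx).1
      rcases hN G (Finset.Ioc (max T1 T2) (max T1 T2 + N)) (by rw [Nat.card_Ioc]; omega) with
        ⟨K, hK, hc, hcl⟩ | ⟨K, hK, hc, hcl⟩
      · exact h1 K hc (fun x hx => (le_max_left _ _).trans_lt (hS x (hK hx))) hcl
      · exact h2 K hc (fun x hx => (le_max_right _ _).trans_lt (hS x (hK hx))) hcl
    obtain ⟨G', hG', hfar⟩ := hcl
    obtain ⟨t, ht⟩ := exists_nat_ge ((T + 1 : ℝ) * (1 + 2 / ε))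
    have hT0 : (0 : ℝ) ≤ T := Nat.cast_nonneg T
    have e1 : (T + 1 : ℝ) ≤ t := by
      refine le_trans ?_ ht
      have : (0 : ℝ) < 2 / ε := by positivity
      nlinarith
    have e2 : (T + 1 : ℝ) ≤ ε / 2 * t := by
      have h1 : (T + 1 : ℝ) * (2 / ε) ≤ t := by
        refine le_trans ?_ ht
        nlinarith
      calc (T + 1 : ℝ) = ε / 2 * ((T + 1) * (2 / ε)) := by field_simp
        _ ≤ ε / 2 * t := mul_le_mul_of_nonneg_left h1 (by positivity)
    have htT : T < t := by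
      have : T + 1 ≤ t := by exact_mod_cast e1
      omega
    refine ⟨t, htT, G', hG', (Finset.Ioc T t).image (fun x => {x}), ?_, ?_, ?_, ?_⟩
    · rw [Finset.image_nonempty]
      exact ⟨t, Finset.mem_Ioc.mpr ⟨htT, le_rfl⟩⟩
    · intro S hS S' hS' hne
      rw [Finset.mem_coe, Finset.mem_image] at hS hS'
      obtain ⟨p, hp, rfl⟩ := hS
      obtain ⟨q, hq, rfl⟩ := hS'
      rw [Function.onFun, id, id, Finset.disjoint_singleton]
      exact fun h => hne (by rw [h])
    · intro S hS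
      rw [Finset.mem_image] at hS
      obtain ⟨x, hx, rfl⟩ := hS
      refine ⟨?_, fun y hy => by
        rw [Finset.mem_singleton] at hy
        rw [hy]
        exact (Finset.mem_Ioc.mp hx).1⟩
      intro T'
      obtain ⟨K, hK, hKT, hKcl⟩ := hfar (max T' x)
      have e : V ≃ K := Fintype.equivOfCardEq (by rw [Fintype.card_coe, hK])
      have hne : ∀ u, (e u : ℕ) ≠ x := fun u => by
        have := hKT _ (e u).2
        have := le_max_right T' x
        omega
      have hinj : ∀ u w, (e u : ℕ) = e w → u = w := fun u w h => e.injective (Subtype.ext h)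
      refine ⟨fun u => if u = v0 then x else e u, ?_, ?_, ?_, ?_⟩
      · intro u w huw
        simp only at huw
        split_ifs at huw with h1 h2 h2
        · rw [h1, h2]
        · exact absurd huw.symm (hne w)
        · exact absurd huw (hne u)
        · exact hinj u w huw
      · intro u w huw
        have hu : u ≠ v0 := fun h => hv0 w (h ▸ huw)
        have hw : w ≠ v0 := fun h => hv0 u (h ▸ huw.symm)
        simp only [if_neg hu, if_neg hw]
        exact hKcl (e u).2 (e w).2 (fun h => huw.ne (hinj u w h))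
      · intro y hy
        rw [Finset.mem_singleton] at hy
        exact ⟨v0, by simp [hy]⟩
      · intro u
        simp only
        split_ifs with h1
        · exact Or.inl (Finset.mem_singleton_self _)
        · exact Or.inr ((le_max_left T' x).trans_lt (hKT _ (e u).2))
    · have hsub : Finset.Ioo T t ⊆
          ((Finset.Ioc T t).image (fun x => ({x} : Finset ℕ))).biUnion id ∩ Finset.range t := by
        intro x hx
        rw [Finset.mem_Ioo] at hx
        rw [Finset.mem_inter, Finset.mem_range]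
        refine ⟨Finset.mem_biUnion.mpr ⟨{x}, ?_, Finset.mem_singleton_self _⟩, hx.2⟩
        exact Finset.mem_image.mpr ⟨x, Finset.mem_Ioc.mpr ⟨hx.1, hx.2.le⟩, rfl⟩
      have h1 := Finset.card_le_card hsub
      rw [Nat.card_Ioo] at h1
      have h2 : t ≤ (((Finset.Ioc T t).image (fun x => ({x} : Finset ℕ))).biUnion id ∩
        Finset.range t).card + 1 + T := by omega
      have h3 : (t : ℝ) ≤ ((((Finset.Ioc T t).image (fun x => ({x} : Finset ℕ))).biUnion id ∩
        Finset.range t).card : ℝ) + 1 + T := by exact_mod_cast h2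
      have h4 : (1 - ε / 2) * (t : ℝ) = t - ε / 2 * t := by ring
      rw [h4]
      linarith
  linarith

/-- The minimum in `mExp` is attained. -/
lemma exists_minimiser (F : SimpleGraph V) : ∃ I NI : Finset V, 0 < I.card ∧
    (∀ u ∈ I, ∀ v ∈ I, ¬ F.Adj u v) ∧ (∀ v, v ∈ NI ↔ ∃ u ∈ I, F.Adj u v) ∧
    mExp F = (NI.card : ℝ) / I.card := by
  classical
  have hne : {x : ℝ | ∃ I : Set V, I.Nonempty ∧ F.IsIndepSet I ∧
      x = ((nbhd F I).ncard : ℝ) / (I.ncard : ℝ)}.Nonempty := by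
    obtain ⟨v⟩ := ‹Nonempty V›
    exact ⟨_, {v}, Set.singleton_nonempty v, by
      simp [SimpleGraph.IsIndepSet], rfl⟩
  have hfin : {x : ℝ | ∃ I : Set V, I.Nonempty ∧ F.IsIndepSet I ∧
      x = ((nbhd F I).ncard : ℝ) / (I.ncard : ℝ)}.Finite := by
    apply (Set.finite_range (fun I : Set V => ((nbhd F I).ncard : ℝ) / (I.ncard : ℝ))).subset
    rintro x ⟨I, _, _, rfl⟩
    exact ⟨I, rfl⟩
  obtain ⟨I, h1, h2, h3⟩ := hne.csInf_mem hfin
  refine ⟨I.toFinset, (nbhd F I).toFinset, ?_, ?_, ?_, ?_⟩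
  · rw [Finset.card_pos, Set.toFinset_nonempty]
    exact h1
  · intro u hu v hv huv
    rw [Set.mem_toFinset] at hu hv
    exact h2 hu hv huv.ne huv
  · intro v
    rw [Set.mem_toFinset]
    simp only [nbhd, Set.mem_ofPred_eq, Set.mem_toFinset]
  · unfold mExp
    rw [h3, Set.ncard_eq_toFinset_card', Set.ncard_eq_toFinset_card']

/-- The lower bound. -/
theorem lower (F : SimpleGraph V) : ffun (mExp F) ≤ rho (omegaCopies F) := by
  classical
  obtain ⟨I, NI, hI0, hI, hNI, hm⟩ := exists_minimiser F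
  have hI0' : (0 : ℝ) < I.card := by exact_mod_cast hI0
  rcases Nat.eq_zero_or_pos NI.card with h0 | hN0
  · have h1 : mExp F = 0 := by rw [hm, h0]; simp
    rw [h1]
    unfold ffun
    rw [if_pos rfl]
    obtain ⟨v0, hv0⟩ := Finset.card_pos.mp hI0
    apply one_le_rho_of_isolated F v0
    intro v hv
    have : v ∈ NI := (hNI v).mpr ⟨v0, hv0, hv⟩
    rw [Finset.card_eq_zero.mp h0] at this
    exact absurd this (Finset.notMem_empty v)
  · have hN0' : (0 : ℝ) < NI.card := by exact_mod_cast hN0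
    have hlpos : 0 < mExp F := by rw [hm]; positivity
    by_contra hcon
    push Not at hcon
    set l := mExp F with hl
    have hk2 := two_le_kfun l hlpos
    have hkinv : (kfun l)⁻¹ ≠ ⊤ := by
      rw [Ne, ENNReal.inv_eq_top]
      intro h
      rw [h] at hk2
      exact absurd hk2 (by norm_num)
    have hf : ffun l = 1 - ((kfun l)⁻¹).toReal := by
      unfold ffun
      rw [if_neg hlpos.ne']
    have hf1 : ffun l ≤ 1 := by
      rw [hf]
      have : 0 ≤ ((kfun l)⁻¹).toReal := ENNReal.toReal_nonneg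
      linarith
    set r := (rho (omegaCopies F) + ffun l) / 2 with hr
    have hr1 : rho (omegaCopies F) < r := by rw [hr]; linarith
    have hr2 : r < ffun l := by rw [hr]; linarith
    have hr3 : 0 < 1 - r := by linarith
    have hκ : ENNReal.ofReal (1 / (1 - r)) < kfun l := by
      by_contra hcon2
      push Not at hcon2
      have h1 : (ENNReal.ofReal (1 / (1 - r)))⁻¹ ≤ (kfun l)⁻¹ := ENNReal.inv_le_inv.mpr hcon2
      rw [← ENNReal.ofReal_inv_of_pos (by positivity), one_div, inv_inv] at h1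
      have h2 := (ENNReal.ofReal_le_iff_le_toReal hkinv).mp h1
      linarith
    have h3 := le_rho_of_lt F hI hNI hI0 hN0 (1 / (1 - r)) (by positivity) (by rw [← hm]; exact hκ)
    rw [one_div_one_div] at h3
    linarith

end Pool.Agent.RamseyFactor
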