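import Mathlib
import Pool.Agent.Work.MP_8cf4b7_co.Ramsey

/-!
The upper bound: the Ramsey upper density of infinitely many copies of `F` is at most `f (m F)`.
-/

open Filter Topology
open scoped ENNReal NNReal

namespace Pool.Agent.RamseyFactor

namespace UpperAux

theorem upperDensity_le_of (S : Set ℕ) (c C : ℝ) (s0 : ℕ)
    (h : ∀ t ≥ s0, ((S ∩ Set.Iio t).ncard : ℝ) ≤ c * t + C) : upperDensity S ≤ c := by
  unfold upperDensity
  have hlim : Tendsto (fun t : ℕ => c + C / (t : ℝ)) atTop (𝓝 c) := by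
    have h1 : Tendsto (fun t : ℕ => C / (t : ℝ)) atTop (𝓝 0) :=
      tendsto_const_div_atTop_nhds_zero_nat C
    simpa using h1.const_add c
  calc limsup (fun t : ℕ => ((S ∩ Set.Iio t).ncard : ℝ) / t) atTop
      ≤ limsup (fun t : ℕ => c + C / (t : ℝ)) atTop := by
        apply limsup_le_limsup
        · filter_upwards [eventually_ge_atTop (max s0 1)] with t ht
          have ht1 : 1 ≤ t := le_trans (le_max_right _ _) ht
          have ht0 : (0 : ℝ) < t := by exact_mod_cast ht1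
          have h2 := h t (le_trans (le_max_left _ _) ht)
          rw [div_le_iff₀ ht0]
          have h3 : (c + C / (t : ℝ)) * t = c * t + C := by
            field_simp
          linarith
        · exact isCoboundedUnder_le_of_le _ (x := 0) (fun t => by positivity)
        · exact hlim.isBoundedUnder_le
    _ = c := hlim.limsup_eq

theorem upperDensity_le_one (S : Set ℕ) : upperDensity S ≤ 1 := by
  apply upperDensity_le_of S 1 0 0
  intro t _
  have h1 : (S ∩ Set.Iio t).ncard ≤ (Set.Iio t).ncard :=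
    Set.ncard_le_ncard Set.inter_subset_right (Set.finite_Iio t)
  have h2 : (Set.Iio t).ncard = t := by
    rw [← Finset.coe_range, Set.ncard_coe_finset, Finset.card_range]
  rw [h2] at h1
  have h3 : ((S ∩ Set.Iio t).ncard : ℝ) ≤ t := by exact_mod_cast h1
  linarith

theorem mExp_mul_le {V : Type*} [Fintype V] (F : SimpleGraph V) (J : Set V) (hJ : J.Nonempty)
    (hI : F.IsIndepSet J) : mExp F * (J.ncard : ℝ) ≤ ((nbhd F J).ncard : ℝ) := by
  have hpos : (0 : ℝ) < J.ncard := by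
    have := (Set.ncard_pos (Set.toFinite J)).mpr hJ
    exact_mod_cast this
  rw [← le_div_iff₀ hpos]
  unfold mExp
  apply csInf_le
  · exact ⟨0, by rintro x ⟨I, -, -, rfl⟩; positivity⟩
  · exact ⟨J, hJ, hI, rfl⟩

theorem mExp_nonneg {V : Type*} (F : SimpleGraph V) : 0 ≤ mExp F := by
  unfold mExp
  apply Real.sInf_nonneg
  rintro x ⟨I, -, -, rfl⟩
  positivity

theorem count_le {V : Type*} [Fintype V] (F : SimpleGraph V) (φ : ℕ × V → ℕ)
    (hφ : Function.Injective φ) (M : Finset ℕ) (P : Set ℕ) (idx : ℕ → ℕ)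
    (hidx : Set.InjOn idx P) (N : ℕ) (hN : ∀ s ∈ P, idx s < N)
    (h1 : ∀ n u v, F.Adj u v → φ (n, u) ∈ M → φ (n, v) ∉ M)
    (h2 : ∀ n u v, F.Adj u v → φ (n, u) ∈ M → φ (n, v) ∈ P) (A : Finset ℕ)
    (hA : ∀ s ∈ A, s ∈ M ∧ s ∈ Set.range φ) :
    mExp F * (A.card : ℝ) ≤ N := by
  classical
  set S : Finset (ℕ × V) := A.preimage φ (hφ.injOn) with hS
  have hSA : S.card = A.card := by
    have h3 : S.image φ = A := by
      ext s
      simp only [hS, Finset.mem_image, Finset.mem_preimage]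
      constructor
      · rintro ⟨q, hq, rfl⟩; exact hq
      · intro hs
        obtain ⟨q, rfl⟩ := (hA s hs).2
        exact ⟨q, hs, rfl⟩
    rw [← h3, Finset.card_image_of_injective _ hφ]
  set N0 : Finset ℕ := S.image Prod.fst with hN0
  let J : ℕ → Finset V := fun n => Finset.univ.filter (fun v => (n, v) ∈ S)
  have hJS : ∀ n v, v ∈ J n ↔ (n, v) ∈ S := by intro n v; simp [J]
  have hJM : ∀ n v, v ∈ J n → φ (n, v) ∈ M := by
    intro n v hv
    rw [hJS, hS, Finset.mem_preimage] at hv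
    exact (hA _ hv).1
  have hScard : S.card = ∑ n ∈ N0, (J n).card := by
    have h4 : S = (N0.sigma J).image (fun p => ((p.1, p.2) : ℕ × V)) := by
      ext ⟨n, v⟩
      simp only [Finset.mem_image, Finset.mem_sigma, hJS]
      constructor
      · intro h
        exact ⟨⟨n, v⟩, ⟨Finset.mem_image.mpr ⟨(n, v), h, rfl⟩, h⟩, rfl⟩
      · rintro ⟨⟨n', v'⟩, ⟨-, h⟩, h5⟩
        simp only [Prod.mk.injEq] at h5
        obtain ⟨rfl, rfl⟩ := h5
        exact h
    rw [h4, Finset.card_image_of_injective, Finset.card_sigma]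
    rintro ⟨n, v⟩ ⟨n', v'⟩ h5
    simp only [Prod.mk.injEq] at h5
    obtain ⟨rfl, rfl⟩ := h5
    rfl
  let NJ : ℕ → Finset V := fun n => Finset.univ.filter (fun v => v ∈ nbhd F (J n : Set V))
  have hNJm : ∀ n v, v ∈ NJ n → ∃ u, u ∈ J n ∧ F.Adj u v := by
    intro n v hv
    have h0 : v ∈ nbhd F (J n : Set V) := by simpa [NJ] using hv
    obtain ⟨u, hu, hadj⟩ := h0
    exact ⟨u, by simpa using hu, hadj⟩
  have hNJ : ∀ n, mExp F * ((J n).card : ℝ) ≤ (NJ n).card := by
    intro n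
    by_cases hne : (J n).Nonempty
    · have h5 := mExp_mul_le F (J n : Set V) (by exact_mod_cast hne) (by
        intro u hu v hv _ hadj
        exact h1 n u v hadj (hJM n u hu) (hJM n v hv))
      rw [Set.ncard_coe_finset] at h5
      have h6 : (nbhd F (J n : Set V)) = ((NJ n : Finset V) : Set V) := by
        ext v; simp [NJ]
      rw [h6, Set.ncard_coe_finset] at h5
      exact h5
    · rw [Finset.not_nonempty_iff_eq_empty] at hne
      rw [hne]
      simp
  have hQ : (∑ n ∈ N0, (NJ n).card) ≤ N := by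
    rw [← Finset.card_sigma, ← Finset.card_range N]
    apply Finset.card_le_card_of_injOn (fun p => idx (φ (p.1, p.2)))
    · rintro ⟨n, v⟩ hp
      simp only [Finset.coe_sigma, Set.mem_sigma_iff, Finset.mem_coe] at hp
      obtain ⟨hn, hv⟩ := hp
      obtain ⟨u, hu, hadj⟩ := hNJm _ _ hv
      simp only [Finset.coe_range, Set.mem_Iio]
      exact hN _ (h2 n u v hadj (hJM n u hu))
    · rintro ⟨n, v⟩ hp ⟨n', v'⟩ hp' heq
      simp only [Finset.coe_sigma, Set.mem_sigma_iff, Finset.mem_coe] at hp hp'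
      obtain ⟨hn, hv⟩ := hp
      obtain ⟨hn', hv'⟩ := hp'
      obtain ⟨u, hu, hadj⟩ := hNJm _ _ hv
      obtain ⟨u', hu', hadj'⟩ := hNJm _ _ hv'
      have h7 := hidx (h2 n u v hadj (hJM n u hu)) (h2 n' u' v' hadj' (hJM n' u' hu')) heq
      have h8 := hφ h7
      simp only [Prod.mk.injEq] at h8
      obtain ⟨rfl, rfl⟩ := h8
      rfl
  calc mExp F * (A.card : ℝ) = ∑ n ∈ N0, mExp F * ((J n).card : ℝ) := by
        rw [← hSA, hScard]; push_cast; rw [Finset.mul_sum]
    _ ≤ ∑ n ∈ N0, ((NJ n).card : ℝ) := Finset.sum_le_sum (fun n _ => hNJ n)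
    _ ≤ N := by exact_mod_cast hQ

/-- Unit step functions. -/
def Step (R : ℕ → ℕ) : Prop := R 0 = 0 ∧ ∀ t, R (t + 1) = R t ∨ R (t + 1) = R t + 1

/-- The positions of the steps. -/
def Up (R : ℕ → ℕ) (s : ℕ) : Prop := R (s + 1) = R s + 1

theorem Step.mono {R : ℕ → ℕ} (h : Step R) : Monotone R :=
  monotone_nat_of_le_succ (fun n => by rcases h.2 n with h | h <;> omega)

theorem Step.le_self {R : ℕ → ℕ} (h : Step R) (t : ℕ) : R t ≤ t := by
  induction t with
  | zero => rw [h.1]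
  | succ t ih => rcases h.2 t with h | h <;> omega

theorem Step.compl {R : ℕ → ℕ} (h : Step R) : Step (fun t => t - R t) := by
  refine ⟨by simp, fun t => ?_⟩
  have := h.le_self t
  rcases h.2 t with h | h <;> simp only [h] <;> omega

theorem Step.up_compl {R : ℕ → ℕ} (h : Step R) (s : ℕ) : Up (fun t => t - R t) s ↔ ¬ Up R s := by
  have h1 := h.le_self s
  have h2 := h.le_self (s + 1)
  unfold Up
  show (s + 1 - R (s + 1) = s - R s + 1) ↔ ¬ (R (s + 1) = R s + 1)
  rcases h.2 s with h | h <;> omega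

theorem Step.injOn {R : ℕ → ℕ} (h : Step R) : Set.InjOn R {s | Up R s} := by
  intro s hs s' hs' heq
  by_contra hne
  rcases lt_or_gt_of_ne hne with hlt | hlt
  · have h1 : R (s + 1) ≤ R s' := h.mono hlt
    have h2 : R (s + 1) = R s + 1 := hs
    omega
  · have h1 : R (s' + 1) ≤ R s := h.mono hlt
    have h2 : R (s' + 1) = R s' + 1 := hs'
    omega

theorem Step.card {R : ℕ → ℕ} (h : Step R) (k t : ℕ) (hk : k ≤ R t) :
    ∃ M : Finset ℕ, M.card = k ∧ ∀ s, s ∈ M ↔ (Up R s ∧ R s < k) := by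
  classical
  refine ⟨(Finset.range t).filter (fun s => Up R s ∧ R s < k), ?_, ?_⟩
  · have himg : ((Finset.range t).filter (fun s => Up R s ∧ R s < k)).image R
        = Finset.range k := by
      ext j
      simp only [Finset.mem_image, Finset.mem_filter, Finset.mem_range]
      constructor
      · rintro ⟨s, ⟨-, -, hs⟩, rfl⟩; exact hs
      · intro hj
        have hex : ∃ s, j < R s := ⟨t, lt_of_lt_of_le hj hk⟩
        have hf := Nat.find_spec hex
        have hmin := fun m hm => Nat.find_min (H := hex) (m := m) hm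
        have hle : Nat.find hex ≤ t := Nat.find_min' hex (lt_of_lt_of_le hj hk)
        rcases hcase : Nat.find hex with _ | s
        · rw [hcase, h.1] at hf; omega
        · rw [hcase] at hf hmin hle
          have h1 := hmin s (Nat.lt_succ_self s)
          refine ⟨s, ⟨by omega, ?_, ?_⟩, ?_⟩
          · unfold Up; rcases h.2 s with h | h <;> omega
          · rcases h.2 s with h | h <;> omega
          · rcases h.2 s with h | h <;> omega
    have hcard := Finset.card_image_of_injOn (s := (Finset.range t).filter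
      (fun s => Up R s ∧ R s < k)) (f := R) (by
        intro s hs s' hs' heq
        simp only [Finset.coe_filter, Set.mem_ofPred_eq] at hs hs'
        exact h.injOn hs.2.1 hs'.2.1 heq)
    rw [← hcard, himg, Finset.card_range]
  · intro s
    simp only [Finset.mem_filter, Finset.mem_range]
    constructor
    · rintro ⟨-, h1⟩; exact h1
    · intro h1
      refine ⟨?_, h1⟩
      by_contra hst
      have h2 : R t ≤ R s := h.mono (not_lt.mp hst)
      omega

/-- The colouring: two reds are joined by a red edge, two blues by a blue edge, and the edge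
between the `i`-th red and the `j`-th blue vertex is red iff `Rd i j`. -/
def colG (R : ℕ → ℕ) (Rd : ℕ → ℕ → Prop) : SimpleGraph ℕ where
  Adj s t := s ≠ t ∧ ((Up R s ∧ Up R t) ∨ (Up R s ∧ ¬ Up R t ∧ Rd (R s + 1) (t - R t + 1)) ∨
    (¬ Up R s ∧ Up R t ∧ Rd (R t + 1) (s - R s + 1)))
  symm := ⟨by
    rintro s t ⟨hne, h | h | h⟩
    · exact ⟨hne.symm, Or.inl ⟨h.2, h.1⟩⟩
    · exact ⟨hne.symm, Or.inr (Or.inr ⟨h.2.1, h.1, h.2.2⟩)⟩
    · exact ⟨hne.symm, Or.inr (Or.inl ⟨h.2.1, h.1, h.2.2⟩)⟩⟩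
  loopless := ⟨fun s h => h.1 rfl⟩

theorem ncard_range_inter_le {S : Set ℕ} {t : ℕ} {M : Finset ℕ} (hM : ∀ s ∈ M, s < t) (c : ℝ)
    (hc : ∀ A : Finset ℕ, (∀ s ∈ A, s ∈ M ∧ s ∈ S) → (A.card : ℝ) ≤ c) :
    ((S ∩ Set.Iio t).ncard : ℝ) ≤ t - M.card + c := by
  classical
  have h1 : ((M.filter (fun s => s ∈ S)).card : ℝ) ≤ c := by
    apply hc
    intro s hs
    rw [Finset.mem_filter] at hs
    exact hs
  have h2 : (S ∩ Set.Iio t) ⊆ (((Finset.range t \ M) ∪ M.filter (fun s => s ∈ S) : Finset ℕ) :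
      Set ℕ) := by
    intro s hs
    simp only [Finset.coe_union, Finset.coe_sdiff, Finset.coe_range, Finset.coe_filter,
      Set.mem_union, Set.mem_sdiff, Set.mem_Iio, Finset.mem_coe, Set.mem_ofPred_eq]
    by_cases hsM : s ∈ M
    · right; exact ⟨hsM, hs.1⟩
    · left; exact ⟨hs.2, hsM⟩
  have h3 := Set.ncard_le_ncard h2 (Finset.finite_toSet _)
  rw [Set.ncard_coe_finset] at h3
  have h4 : (Finset.range t \ M).card + M.card = t := by
    rw [Finset.card_sdiff_add_card_eq_card, Finset.card_range]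
    intro s hs
    exact Finset.mem_range.mpr (hM s hs)
  have h5 := Finset.card_union_le (Finset.range t \ M) (M.filter (fun s => s ∈ S))
  have h6 : ((S ∩ Set.Iio t).ncard : ℝ) ≤ ((Finset.range t \ M).card : ℝ)
      + ((M.filter (fun s => s ∈ S)).card : ℝ) := by
    exact_mod_cast h3.trans h5
  have h7 : ((Finset.range t \ M).card : ℝ) + (M.card : ℝ) = t := by exact_mod_cast h4
  linarith

theorem exists_step (bI : ℕ → ℕ) (hmono : Monotone bI) (hle : ∀ t, bI t ≤ t) :
    ∃ R : ℕ → ℕ, Step R ∧ (∀ t, bI t ≤ t - R t) ∧ (∀ t, ∃ s, t ≤ s ∧ R t = s - bI s) := by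
  classical
  let R : ℕ → ℕ := fun t => sInf ((fun s => s - bI s) '' Set.Ici t)
  have hmem : ∀ t, ∃ s, t ≤ s ∧ R t = s - bI s := by
    intro t
    have h1 : R t ∈ ((fun s => s - bI s) '' Set.Ici t) :=
      Nat.sInf_mem ⟨_, t, Set.mem_Ici.mpr le_rfl, rfl⟩
    obtain ⟨s, hs, h2⟩ := h1
    exact ⟨s, hs, h2.symm⟩
  have hRle : ∀ t s, t ≤ s → R t ≤ s - bI s := by
    intro t s hs
    exact Nat.sInf_le ⟨s, hs, rfl⟩
  refine ⟨R, ⟨?_, ?_⟩, ?_, hmem⟩
  · have := hRle 0 0 le_rfl
    omega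
  · intro t
    have h1 : R t ≤ R (t + 1) := by
      obtain ⟨s, hs, h2⟩ := hmem (t + 1)
      rw [h2]
      exact hRle t s (by omega)
    have h2 : R (t + 1) ≤ R t + 1 := by
      obtain ⟨s, hs, h2⟩ := hmem t
      rcases Nat.eq_or_lt_of_le hs with h3 | h3
      · subst h3
        have h4 := hRle (t + 1) (t + 1) le_rfl
        have h5 := hmono (Nat.le_succ t)
        have h6 := hle t
        simp only [Nat.succ_eq_add_one] at h5
        omega
      · have h4 := hRle (t + 1) s h3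
        omega
    omega
  · intro t
    have h1 := hRle t t le_rfl
    have h2 := hle t
    omega

/-- The number of red vertices seen at time `x`. -/
noncomputable def rr (g : ℝ≥0 → ℝ) (x : ℝ≥0) : ℝ := ((x : ℝ) + g x) / 2

theorem lip_abs {g : ℝ≥0 → ℝ} (hg : LipschitzWith 1 g) {x y : ℝ≥0} (hxy : x ≤ y) :
    |g y - g x| ≤ (y : ℝ) - x := by
  have h1 := hg.dist_le_mul y x
  rw [Real.dist_eq, NNReal.dist_eq] at h1
  have h2 : (x : ℝ) ≤ y := by exact_mod_cast hxy
  rw [abs_of_nonneg (by linarith : (0 : ℝ) ≤ (y : ℝ) - x)] at h1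
  simpa using h1

theorem rr_mono {g : ℝ≥0 → ℝ} (hg : LipschitzWith 1 g) : Monotone (rr g) := by
  intro x y hxy
  have h1 := lip_abs hg hxy
  rw [abs_le] at h1
  unfold rr
  linarith [h1.1]

theorem rr_nonneg {g : ℝ≥0 → ℝ} (hg : LipschitzWith 1 g) (g0 : g 0 = 0) (x : ℝ≥0) :
    0 ≤ rr g x := by
  have h1 : rr g 0 ≤ rr g x := rr_mono hg zero_le
  have h2 : rr g 0 = 0 := by simp [rr, g0]
  linarith

theorem exists_min {γ : ℝ} (hγ : |γ| ≤ 1) {g : ℝ≥0 → ℝ} (hg : LipschitzWith 1 g) (g0 : g 0 = 0)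
    {τ : ℝ} (hτ : 0 < τ) (hfin : Gam γ g τ ≠ ⊤) :
    ∃ x : ℝ≥0, (x : ℝ≥0∞) ≤ Gam γ g τ ∧ γ * x + g x = τ ∧ ∀ y : ℝ≥0, τ ≤ γ * y + g y → x ≤ y := by
  set S : Set ℝ≥0 := {x | τ ≤ γ * x + g x} with hS
  have hne : S.Nonempty := by
    by_contra hempty
    rw [Set.not_nonempty_iff_eq_empty] at hempty
    apply hfin
    unfold Gam
    simp only [iInf_eq_top]
    intro x hx
    have : x ∈ S := hx
    rw [hempty] at this
    exact absurd this (Set.notMem_empty _)
  have hcl : IsClosed S := by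
    apply isClosed_le continuous_const
    exact (continuous_const.mul NNReal.continuous_coe).add hg.continuous
  have hbdd : BddBelow S := ⟨0, fun x _ => zero_le⟩
  have hmem : sInf S ∈ S := hcl.csInf_mem hne hbdd
  refine ⟨sInf S, ?_, ?_, ?_⟩
  · unfold Gam
    refine le_iInf₂ (fun x hx => ?_)
    exact_mod_cast csInf_le hbdd hx
  · set x := sInf S with hx
    have h1 : τ ≤ γ * x + g x := hmem
    by_contra hne'
    have h2 : τ < γ * x + g x := lt_of_le_of_ne h1 (Ne.symm hne')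
    set ε : ℝ := γ * x + g x - τ with hε
    have hεpos : 0 < ε := by linarith
    have h3 : |g x - g 0| ≤ (x : ℝ) - (0 : ℝ≥0) := lip_abs hg zero_le
    rw [g0] at h3
    simp only [sub_zero, NNReal.coe_zero] at h3
    have hx0 : (0 : ℝ) ≤ x := x.coe_nonneg
    have h4 : γ * x ≤ x := by
      have := (abs_le.mp hγ).2
      nlinarith
    have h5 : g x ≤ x := (abs_le.mp h3).2
    have h6 : ε / 2 ≤ x := by linarith
    let y : ℝ≥0 := ⟨x - ε / 2, by linarith⟩
    have hy : (y : ℝ) = x - ε / 2 := rfl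
    have hyx : y ≤ x := by
      rw [← NNReal.coe_le_coe, hy]
      linarith
    have h7 : |g x - g y| ≤ (x : ℝ) - y := lip_abs hg hyx
    have h8 : y ∈ S := by
      show τ ≤ γ * y + g y
      have h9 := (abs_le.mp h7).2
      have h10 : γ * (x : ℝ) - γ * y ≤ ε / 2 := by
        have h11 : γ * (x : ℝ) - γ * y = γ * (ε / 2) := by rw [hy]; ring
        rw [h11]
        have := (abs_le.mp hγ).2
        nlinarith
      rw [hy] at h9
      linarith
    have h9 : x ≤ y := csInf_le hbdd h8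
    rw [← NNReal.coe_le_coe, hy] at h9
    linarith
  · intro y hy
    exact csInf_le hbdd hy

theorem construction (lam kap : ℝ) (hlam : 0 < lam) (hkap : 0 < kap) (g : ℝ≥0 → ℝ)
    (hg : LipschitzWith 1 g) (g0 : g 0 = 0) (τ0 : ℝ)
    (hτ : ∀ τ : ℝ, τ0 ≤ τ → 0 < τ →
      Gam ((lam - 1) / (lam + 1)) g τ + Gam ((lam - 1) / (lam + 1)) (fun x => - g x) τ
        ≤ ENNReal.ofReal (((1 + lam) * kap - 2 * lam) * (1 + lam) / (2 * lam) * τ)) :
    ∃ (R : ℕ → ℕ) (s0 : ℕ), Step R ∧ ∀ t : ℕ, s0 ≤ t → ∃ xp xm : ℝ≥0,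
      (t : ℝ) / kap ≤ rr g xp - rr (fun x => - g x) xp / lam ∧
      (t : ℝ) / kap ≤ rr (fun x => - g x) xm - rr g xm / lam ∧
      rr g xp ≤ R t ∧ ⌊rr (fun x => - g x) xm⌋₊ ≤ t - R t := by
  classical
  set γ : ℝ := (lam - 1) / (lam + 1) with hγ
  set θ : ℝ := ((1 + lam) * kap - 2 * lam) * (1 + lam) / (2 * lam) with hθ
  have hlam1 : 0 < lam + 1 := by linarith
  have hγ1 : |γ| ≤ 1 := by
    rw [hγ, abs_le]
    constructor
    · rw [le_div_iff₀ hlam1]; linarith
    · rw [div_le_iff₀ hlam1]; linarith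
  have hg' : LipschitzWith 1 (fun x => - g x) := hg.neg
  have g0' : (fun x => - g x) 0 = 0 := by simp [g0]
  -- the scale
  set c : ℝ := 2 * lam / ((1 + lam) * kap) with hc
  have hcpos : 0 < c := by positivity
  obtain ⟨s0, hs0⟩ := exists_nat_gt (max (τ0 / c) 0)
  have hs0' : ∀ t : ℕ, s0 ≤ t → τ0 ≤ c * t ∧ 0 < c * t := by
    intro t ht
    have h1 : (s0 : ℝ) ≤ t := by exact_mod_cast ht
    have h2 : τ0 / c < t := lt_of_le_of_lt (le_max_left _ _) (lt_of_lt_of_le hs0 h1)
    have h3 : (0 : ℝ) < t := lt_of_le_of_lt (le_max_right _ _) (lt_of_lt_of_le hs0 h1)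
    rw [div_lt_iff₀ hcpos] at h2
    exact ⟨by linarith, by positivity⟩
  have hfin : ∀ t : ℕ, s0 ≤ t → Gam γ g (c * t) ≠ ⊤ ∧ Gam γ (fun x => - g x) (c * t) ≠ ⊤ := by
    intro t ht
    have h1 := hτ (c * t) (hs0' t ht).1 (hs0' t ht).2
    have h2 := ne_top_of_le_ne_top ENNReal.ofReal_ne_top h1
    rw [ENNReal.add_ne_top] at h2
    exact h2
  have hp : ∀ t : ℕ, ∃ x : ℝ≥0, s0 ≤ t → ((x : ℝ≥0∞) ≤ Gam γ g (c * t) ∧ γ * x + g x = c * t ∧
      ∀ y : ℝ≥0, c * t ≤ γ * y + g y → x ≤ y) := by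
    intro t
    by_cases ht : s0 ≤ t
    · obtain ⟨x, hx⟩ := exists_min hγ1 hg g0 (hs0' t ht).2 (hfin t ht).1
      exact ⟨x, fun _ => hx⟩
    · exact ⟨0, fun h => absurd h ht⟩
  have hm : ∀ t : ℕ, ∃ x : ℝ≥0, s0 ≤ t → ((x : ℝ≥0∞) ≤ Gam γ (fun x => - g x) (c * t) ∧
      γ * x + (- g x) = c * t ∧ ∀ y : ℝ≥0, c * t ≤ γ * y + (- g y) → x ≤ y) := by
    intro t
    by_cases ht : s0 ≤ t
    · obtain ⟨x, hx⟩ := exists_min hγ1 hg' g0' (hs0' t ht).2 (hfin t ht).2
      exact ⟨x, fun _ => hx⟩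
    · exact ⟨0, fun h => absurd h ht⟩
  choose xp hxp using hp
  choose xm hxm using hm
  have hsum : ∀ t : ℕ, s0 ≤ t → (xp t : ℝ) + xm t ≤ θ * (c * t) := by
    intro t ht
    have h1 := hτ (c * t) (hs0' t ht).1 (hs0' t ht).2
    have h2 := (add_le_add (hxp t ht).1 (hxm t ht).1).trans h1
    by_cases hneg : θ * (c * t) ≤ 0
    · rw [ENNReal.ofReal_of_nonpos hneg] at h2
      have h3 : (xp t : ℝ≥0∞) + xm t = 0 := le_antisymm h2 zero_le
      rw [add_eq_zero] at h3
      have h4 : xp t = 0 := by exact_mod_cast h3.1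
      have h5 := (hxp t ht).2.1
      rw [h4, g0] at h5
      have h6 := (hs0' t ht).2
      simp only [NNReal.coe_zero, mul_zero, zero_add] at h5
      linarith
    · have h3 : ENNReal.ofReal ((xp t : ℝ) + xm t) ≤ ENNReal.ofReal (θ * (c * t)) := by
        rw [ENNReal.ofReal_add (xp t).coe_nonneg (xm t).coe_nonneg, ENNReal.ofReal_coe_nnreal,
          ENNReal.ofReal_coe_nnreal]
        exact h2
      exact (ENNReal.ofReal_le_ofReal_iff (by linarith)).mp h3
  -- the identity for the sum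
  have hrb : ∀ t : ℕ, s0 ≤ t → rr g (xp t) + rr (fun x => - g x) (xm t) ≤ t := by
    intro t ht
    have h1 := (hxp t ht).2.1
    have h2 := (hxm t ht).2.1
    have h3 := hsum t ht
    unfold rr
    have h4 : g (xp t) = c * t - γ * xp t := by linarith
    have h5 : - g (xm t) = c * t - γ * xm t := by linarith
    show ((xp t : ℝ) + g (xp t)) / 2 + ((xm t : ℝ) + - g (xm t)) / 2 ≤ t
    rw [h4, h5]
    have h6 : (1 - γ) / 2 = 1 / (1 + lam) := by
      rw [hγ]; field_simp; ring
    have h7 : ((xp t : ℝ) + (c * t - γ * xp t)) / 2 + ((xm t : ℝ) + (c * t - γ * xm t)) / 2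
        = (1 - γ) / 2 * ((xp t : ℝ) + xm t) + c * t := by ring
    rw [h7, h6]
    have h8 : 1 / (1 + lam) * ((xp t : ℝ) + xm t) ≤ 1 / (1 + lam) * (θ * (c * t)) :=
      mul_le_mul_of_nonneg_left h3 (by positivity)
    have h9 : 1 / (1 + lam) * (θ * (c * t)) + c * t = t := by
      rw [hθ, hc]; field_simp; ring
    linarith
  have hbmono : ∀ s t : ℕ, s0 ≤ s → s ≤ t → xm s ≤ xm t := by
    intro s t hs hst
    apply (hxm s hs).2.2
    rw [(hxm t (hs.trans hst)).2.1]
    have : (s : ℝ) ≤ t := by exact_mod_cast hst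
    exact mul_le_mul_of_nonneg_left this hcpos.le
  have hpmono : ∀ s t : ℕ, s0 ≤ s → s ≤ t → xp s ≤ xp t := by
    intro s t hs hst
    apply (hxp s hs).2.2
    rw [(hxp t (hs.trans hst)).2.1]
    have : (s : ℝ) ≤ t := by exact_mod_cast hst
    exact mul_le_mul_of_nonneg_left this hcpos.le
  let bI : ℕ → ℕ := fun t => if t < s0 then 0 else ⌊rr (fun x => - g x) (xm t)⌋₊
  have hbI : ∀ t, s0 ≤ t → bI t = ⌊rr (fun x => - g x) (xm t)⌋₊ := by
    intro t ht
    simp only [bI, if_neg (not_lt.mpr ht)]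
  have hmono : Monotone bI := by
    intro s t hst
    by_cases hs : s < s0
    · simp only [bI, if_pos hs]; exact Nat.zero_le _
    · rw [hbI s (not_lt.mp hs), hbI t ((not_lt.mp hs).trans hst)]
      exact Nat.floor_mono (rr_mono hg' (hbmono s t (not_lt.mp hs) hst))
  have hle : ∀ t, bI t ≤ t := by
    intro t
    by_cases ht : t < s0
    · simp only [bI, if_pos ht]; exact Nat.zero_le _
    · rw [hbI t (not_lt.mp ht)]
      have h1 := hrb t (not_lt.mp ht)
      have h2 := rr_nonneg hg g0 (xp t)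
      have h3 : rr (fun x => - g x) (xm t) ≤ t := by linarith
      exact Nat.floor_le_of_le h3
  obtain ⟨R, hR, hR1, hR2⟩ := exists_step bI hmono hle
  refine ⟨R, s0, hR, fun t ht => ⟨xp t, xm t, ?_, ?_, ?_, ?_⟩⟩
  · have h1 := (hxp t ht).2.1
    have h2 : rr g (xp t) - rr (fun x => - g x) (xp t) / lam
        = (1 + lam) / (2 * lam) * (γ * xp t + g (xp t)) := by
      unfold rr; rw [hγ]; field_simp; ring
    rw [h2, h1, hc]
    apply le_of_eq
    field_simp
  · have h1 := (hxm t ht).2.1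
    have h2 : rr (fun x => - g x) (xm t) - rr g (xm t) / lam
        = (1 + lam) / (2 * lam) * (γ * xm t + (- g (xm t))) := by
      unfold rr; rw [hγ]; field_simp; ring
    rw [h2, h1, hc]
    apply le_of_eq
    field_simp
  · obtain ⟨s, hs, h1⟩ := hR2 t
    rw [h1]
    have hss : s0 ≤ s := ht.trans hs
    have h2 : rr g (xp t) ≤ rr g (xp s) := rr_mono hg (hpmono t s ht hs)
    have h3 := hrb s hss
    have h4 : ((s - bI s : ℕ) : ℝ) = s - bI s := by
      rw [Nat.cast_sub (hle s)]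
    rw [h4, hbI s hss]
    have h5 : (⌊rr (fun x => - g x) (xm s)⌋₊ : ℝ) ≤ rr (fun x => - g x) (xm s) :=
      Nat.floor_le (rr_nonneg hg' g0' _)
    linarith
  · rw [← hbI t ht]
    exact hR1 t

/-- The relation which decides the colour of the edge between a red and a blue vertex. -/
def RdOf (g : ℝ≥0 → ℝ) (i j : ℕ) : Prop :=
  ∀ x : ℝ≥0, (j : ℝ) ≤ rr (fun x => - g x) x → (i : ℝ) ≤ rr g x

theorem range_bound {V : Type*} [Fintype V] (F : SimpleGraph V) (hF : 0 < mExp F) {g : ℝ≥0 → ℝ}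
    (hg : LipschitzWith 1 g) (g0 : g 0 = 0) {R : ℕ → ℕ} (hR : Step R) (t : ℕ) (D : ℝ)
    (xp xm : ℝ≥0) (h1 : D ≤ rr g xp - rr (fun x => - g x) xp / mExp F)
    (h2 : D ≤ rr (fun x => - g x) xm - rr g xm / mExp F) (h3 : rr g xp ≤ R t)
    (h4 : ⌊rr (fun x => - g x) xm⌋₊ ≤ t - R t) (φ : ℕ × V → ℕ) (hφ : Function.Injective φ)
    (hcol : (∀ u v, (omegaCopies F).Adj u v → (colG R (RdOf g)).Adj (φ u) (φ v)) ∨
      (∀ u v, (omegaCopies F).Adj u v → (colG R (RdOf g))ᶜ.Adj (φ u) (φ v))) :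
    ((Set.range φ ∩ Set.Iio t).ncard : ℝ) ≤ t - D + 1 := by
  have hg' : LipschitzWith 1 (fun x => - g x) := hg.neg
  have g0' : (fun x => - g x) 0 = 0 := by simp [g0]
  have hcR := hR.compl
  rcases hcol with hcol | hcol
  · -- red copies
    obtain ⟨M, hMc, hM⟩ := hcR.card _ t h4
    have hA : ∀ A : Finset ℕ, (∀ s ∈ A, s ∈ M ∧ s ∈ Set.range φ) →
        (A.card : ℝ) ≤ rr g xm / mExp F := by
      intro A hA
      have h5 := count_le F φ hφ M {s | Up R s ∧ ((R s + 1 : ℕ) : ℝ) ≤ rr g xm} R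
        (hR.injOn.mono (fun s hs => hs.1)) ⌊rr g xm⌋₊ (by
          intro s hs
          have h6 : R s + 1 ≤ ⌊rr g xm⌋₊ := Nat.le_floor hs.2
          omega) (by
          intro n u v hadj hu hv
          rw [hM, hR.up_compl] at hu hv
          have h7 := hcol (n, u) (n, v) ⟨rfl, hadj⟩
          obtain ⟨-, h8 | h8 | h8⟩ := h7
          · exact hu.1 h8.1
          · exact hu.1 h8.1
          · exact hv.1 h8.2.1) (by
          intro n u v hadj hu
          rw [hM, hR.up_compl] at hu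
          have h7 := hcol (n, u) (n, v) ⟨rfl, hadj⟩
          obtain ⟨-, h8 | h8 | h8⟩ := h7
          · exact absurd h8.1 hu.1
          · exact absurd h8.1 hu.1
          · refine ⟨h8.2.1, h8.2.2 xm ?_⟩
            have h9 : φ (n, u) - R (φ (n, u)) + 1 ≤ ⌊rr (fun x => - g x) xm⌋₊ := hu.2
            calc ((φ (n, u) - R (φ (n, u)) + 1 : ℕ) : ℝ) ≤ (⌊rr (fun x => - g x) xm⌋₊ : ℝ) := by
                  exact_mod_cast h9
              _ ≤ _ := Nat.floor_le (rr_nonneg hg' g0' _)) A hA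
      rw [le_div_iff₀ hF]
      have h6 : (⌊rr g xm⌋₊ : ℝ) ≤ rr g xm := Nat.floor_le (rr_nonneg hg g0 _)
      linarith
    have h5 := ncard_range_inter_le (S := Set.range φ) (t := t) (M := M) (by
      intro s hs
      rw [hM] at hs
      by_contra hst
      have h6 : t - R t ≤ s - R s := hcR.mono (not_lt.mp hst)
      have h7 := hs.2
      omega) _ hA
    rw [hMc] at h5
    have h6 := Nat.lt_floor_add_one (rr (fun x => - g x) xm)
    linarith
  · -- blue copies
    have h4' : ⌊rr g xp⌋₊ ≤ R t := by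
      exact Nat.floor_le_of_le h3
    obtain ⟨M, hMc, hM⟩ := hR.card _ t h4'
    have hA : ∀ A : Finset ℕ, (∀ s ∈ A, s ∈ M ∧ s ∈ Set.range φ) →
        (A.card : ℝ) ≤ rr (fun x => - g x) xp / mExp F := by
      intro A hA
      have h5 := count_le F φ hφ M
        {s | ¬ Up R s ∧ ((s - R s + 1 : ℕ) : ℝ) ≤ rr (fun x => - g x) xp} (fun s => s - R s)
        (hcR.injOn.mono (fun s hs => (hR.up_compl s).mpr hs.1)) ⌊rr (fun x => - g x) xp⌋₊ (by
          intro s hs
          have h6 : s - R s + 1 ≤ ⌊rr (fun x => - g x) xp⌋₊ := Nat.le_floor hs.2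
          show s - R s < _
          omega) (by
          intro n u v hadj hu hv
          rw [hM] at hu hv
          have h7 := hcol (n, u) (n, v) ⟨rfl, hadj⟩
          rw [SimpleGraph.compl_adj] at h7
          exact h7.2 ⟨h7.1, Or.inl ⟨hu.1, hv.1⟩⟩) (by
          intro n u v hadj hu
          rw [hM] at hu
          have h7 := hcol (n, u) (n, v) ⟨rfl, hadj⟩
          rw [SimpleGraph.compl_adj] at h7
          have h8 : ¬ Up R (φ (n, v)) := fun h => h7.2 ⟨h7.1, Or.inl ⟨hu.1, h⟩⟩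
          refine ⟨h8, ?_⟩
          have h9 : ¬ RdOf g (R (φ (n, u)) + 1) (φ (n, v) - R (φ (n, v)) + 1) :=
            fun h => h7.2 ⟨h7.1, Or.inr (Or.inl ⟨hu.1, h8, h⟩)⟩
          unfold RdOf at h9
          push Not at h9
          obtain ⟨x, hx1, hx2⟩ := h9
          have h10 : R (φ (n, u)) + 1 ≤ ⌊rr g xp⌋₊ := hu.2
          have h11 : ((R (φ (n, u)) + 1 : ℕ) : ℝ) ≤ rr g xp := by
            calc ((R (φ (n, u)) + 1 : ℕ) : ℝ) ≤ (⌊rr g xp⌋₊ : ℝ) := by exact_mod_cast h10
              _ ≤ _ := Nat.floor_le (rr_nonneg hg g0 _)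
          have h12 : x ≤ xp := by
            by_contra hlt
            have := rr_mono hg (not_le.mp hlt).le
            linarith
          exact hx1.trans (rr_mono hg' h12)) A hA
      rw [le_div_iff₀ hF]
      have h6 : (⌊rr (fun x => - g x) xp⌋₊ : ℝ) ≤ rr (fun x => - g x) xp :=
        Nat.floor_le (rr_nonneg hg' g0' _)
      linarith
    have h5 := ncard_range_inter_le (S := Set.range φ) (t := t) (M := M) (by
      intro s hs
      rw [hM] at hs
      by_contra hst
      have h6 := hR.mono (not_lt.mp hst)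
      omega) _ hA
    rw [hMc] at h5
    have h6 := Nat.lt_floor_add_one (rr g xp)
    linarith

end UpperAux

namespace UpperAux

/-- The basic lower bound for `Γ`. -/
theorem Gam_lower {γ : ℝ} (hγ : 0 < γ + 1) {g : ℝ≥0 → ℝ} (hg : LipschitzWith 1 g) (g0 : g 0 = 0)
    (τ : ℝ) : ENNReal.ofReal (τ / (γ + 1)) ≤ Gam γ g τ := by
  unfold Gam
  refine le_iInf₂ (fun x hx => ?_)
  have h1 := lip_abs hg (x := 0) (y := x) zero_le
  rw [g0] at h1
  simp only [sub_zero, NNReal.coe_zero] at h1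
  have h2 := (abs_le.mp h1).2
  rw [← ENNReal.ofReal_coe_nnreal]
  apply ENNReal.ofReal_le_ofReal
  rw [div_le_iff₀ hγ]
  nlinarith

theorem one_le_kfun {lam : ℝ} (hlam : 0 < lam) : 1 ≤ kfun lam := by
  have hlam1 : 0 < lam + 1 := by linarith
  set γ : ℝ := (lam - 1) / (lam + 1) with hγ
  have hγ1 : γ + 1 = 2 * lam / (1 + lam) := by rw [hγ]; field_simp; ring
  have hγ0 : 0 < γ + 1 := by rw [hγ1]; positivity
  have h1 : ENNReal.ofReal (2 / (γ + 1)) ≤ hfun γ := by
    unfold hfun
    refine le_iInf fun g => le_iInf₂ fun hg g0 => ?_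
    have hg' : LipschitzWith 1 (fun x => - g x) := hg.neg
    have g0' : (fun x => - g x) 0 = 0 := by simp [g0]
    calc ENNReal.ofReal (2 / (γ + 1))
        = limsup (fun _ : ℝ => ENNReal.ofReal (2 / (γ + 1))) atTop := by
          rw [limsup_const]
      _ ≤ _ := by
          refine limsup_le_limsup ?_ (by isBoundedDefault) (by isBoundedDefault)
          filter_upwards [eventually_gt_atTop (0 : ℝ)] with t ht
          rw [ENNReal.le_div_iff_mul_le (Or.inl (by simpa using ht)) (Or.inl ENNReal.ofReal_ne_top)]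
          have h2 := add_le_add (Gam_lower hγ0 hg g0 t) (Gam_lower hγ0 hg' g0' t)
          refine le_trans ?_ h2
          rw [← ENNReal.ofReal_mul (by positivity), ← ENNReal.ofReal_add (by positivity)
            (by positivity)]
          apply ENNReal.ofReal_le_ofReal
          apply le_of_eq
          ring
  unfold kfun
  calc (1 : ℝ≥0∞) ≤ ENNReal.ofReal (2 / (1 + lam)) + ENNReal.ofReal (2 * lam / (1 + lam)) := by
        rw [← ENNReal.ofReal_add (by positivity) (by positivity)]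
        have h3 : 2 / (1 + lam) + 2 * lam / (1 + lam) = 2 := by field_simp
        rw [h3]
        norm_num
    _ ≤ _ := by
        gcongr
        calc ENNReal.ofReal (2 / (1 + lam))
            = ENNReal.ofReal (2 * lam / (1 + lam) ^ 2) * ENNReal.ofReal (2 / (γ + 1)) := by
              rw [← ENNReal.ofReal_mul (by positivity), hγ1]
              congr 1
              field_simp
          _ ≤ _ := by gcongr

theorem bound_of_kap {V : Type*} [Fintype V] (F : SimpleGraph V) (hF : 0 < mExp F) {l : ℝ}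
    (hl : ∀ G : SimpleGraph ℕ, ∃ φ : ℕ × V → ℕ, Function.Injective φ ∧
      ((∀ u v, (omegaCopies F).Adj u v → G.Adj (φ u) (φ v)) ∨
        (∀ u v, (omegaCopies F).Adj u v → Gᶜ.Adj (φ u) (φ v))) ∧
      l ≤ upperDensity (Set.range φ)) {kap : ℝ} (hkap : kfun (mExp F) < ENNReal.ofReal kap) :
    l ≤ 1 - 1 / kap := by
  set lam := mExp F with hlam
  have hkap0 : 0 < kap := by
    by_contra h
    rw [ENNReal.ofReal_of_nonpos (not_lt.mp h)] at hkap
    exact absurd hkap (not_lt.mpr zero_le)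
  set γ : ℝ := (lam - 1) / (lam + 1) with hγ
  set θ : ℝ := ((1 + lam) * kap - 2 * lam) * (1 + lam) / (2 * lam) with hθ
  have h1 : hfun γ < ENNReal.ofReal θ := by
    by_contra hcon
    have h2 : ENNReal.ofReal θ ≤ hfun γ := not_lt.mp hcon
    have h3 : ENNReal.ofReal kap ≤ kfun lam := by
      unfold kfun
      calc ENNReal.ofReal kap
          ≤ ENNReal.ofReal (2 * lam / (1 + lam) ^ 2 * θ) + ENNReal.ofReal (2 * lam / (1 + lam)) := by
            have h4 : kap = 2 * lam / (1 + lam) ^ 2 * θ + 2 * lam / (1 + lam) := by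
              rw [hθ]; field_simp; ring
            conv_lhs => rw [h4]
            exact ENNReal.ofReal_add_le
        _ ≤ _ := by
            rw [ENNReal.ofReal_mul (by positivity)]
            gcongr
    exact absurd hkap (not_lt.mpr h3)
  unfold hfun at h1
  simp only [iInf_lt_iff] at h1
  obtain ⟨g, hg, g0, h2⟩ := h1
  have h3 := Filter.eventually_lt_of_limsup_lt h2
  rw [eventually_atTop] at h3
  obtain ⟨τ0, hτ0⟩ := h3
  obtain ⟨R, s0, hR, hmain⟩ := construction lam kap hF hkap0 g hg g0 τ0 (by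
    intro τ hτ hτpos
    have h4 := (hτ0 τ hτ).le
    rw [ENNReal.div_le_iff (by simpa using hτpos) ENNReal.ofReal_ne_top] at h4
    rw [ENNReal.ofReal_mul' hτpos.le]
    exact h4)
  obtain ⟨φ, hφ, hcol, hd⟩ := hl (colG R (RdOf g))
  refine hd.trans (upperDensity_le_of _ _ 1 s0 (fun t ht => ?_))
  obtain ⟨xp, xm, h5, h6, h7, h8⟩ := hmain t ht
  have h9 := range_bound F hF hg g0 hR t _ xp xm h5 h6 h7 h8 φ hφ hcol
  have h10 : (1 - 1 / kap) * (t : ℝ) = t - t / kap := by ring
  rw [h10]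
  exact h9

end UpperAux

open UpperAux in
theorem upper {V : Type*} [Fintype V] [Nonempty V] (F : SimpleGraph V) :
    rho (omegaCopies F) ≤ ffun (mExp F) := by
  have hmain : ∀ l : ℝ, (∀ G : SimpleGraph ℕ, ∃ φ : ℕ × V → ℕ, Function.Injective φ ∧
      ((∀ u v, (omegaCopies F).Adj u v → G.Adj (φ u) (φ v)) ∨
        (∀ u v, (omegaCopies F).Adj u v → Gᶜ.Adj (φ u) (φ v))) ∧
      l ≤ upperDensity (Set.range φ)) → l ≤ 1 := by
    intro l hl
    obtain ⟨φ, -, -, hd⟩ := hl ⊥
    exact hd.trans (upperDensity_le_one _)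
  unfold ffun
  by_cases h0 : mExp F = 0
  · rw [if_pos h0]
    exact Real.sSup_le hmain zero_le_one
  · rw [if_neg h0]
    have hF : 0 < mExp F := lt_of_le_of_ne (mExp_nonneg F) (Ne.symm h0)
    have hk1 := one_le_kfun hF
    have hinv : ((kfun (mExp F))⁻¹).toReal ≤ 1 := by
      have h2 : (kfun (mExp F))⁻¹ ≤ 1 := ENNReal.inv_le_one.mpr hk1
      exact ENNReal.toReal_le_of_le_ofReal zero_le_one (by simpa using h2)
    apply Real.sSup_le _ (by linarith)
    intro l hl
    by_cases htop : kfun (mExp F) = ⊤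
    · rw [htop]
      simpa using hmain l hl
    · set K : ℝ := (kfun (mExp F)).toReal with hK
      have hK1 : 1 ≤ K := by
        rw [hK, ← ENNReal.toReal_one]
        exact (ENNReal.toReal_le_toReal ENNReal.one_ne_top htop).mpr hk1
      have hKe : kfun (mExp F) = ENNReal.ofReal K := (ENNReal.ofReal_toReal htop).symm
      rw [ENNReal.toReal_inv, ← hK]
      have h3 : ∀ kap : ℝ, K < kap → l ≤ 1 - 1 / kap := by
        intro kap hkap
        apply bound_of_kap F hF hl
        rw [hKe]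
        exact (ENNReal.ofReal_lt_ofReal_iff (by linarith)).mpr hkap
      have h4 : ∀ kap : ℝ, K < kap → 1 ≤ kap * (1 - l) := by
        intro kap hkap
        have h5 := h3 kap hkap
        have h6 : (0 : ℝ) < kap := by linarith
        have h7 : 1 / kap ≤ 1 - l := by linarith
        rw [div_le_iff₀ h6] at h7
        linarith
      have h5 : 1 ≤ K * (1 - l) := by
        by_contra hcon
        push Not at hcon
        have hl1 : 0 < 1 - l := by
          have := h4 (K + 1) (by linarith)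
          nlinarith
        set e : ℝ := (1 - K * (1 - l)) / (2 * (1 - l)) with he
        have he0 : 0 < e := by
          apply div_pos <;> linarith
        have h6 := h4 (K + e) (by linarith)
        have h7 : e * (1 - l) = (1 - K * (1 - l)) / 2 := by
          rw [he]; field_simp
        nlinarith
      have h6 : (0 : ℝ) < K := by linarith
      have h7 : K⁻¹ ≤ 1 - l := by
        rw [inv_eq_one_div, div_le_iff₀ h6]
        linarith
      linarith

end Pool.Agent.RamseyFactor
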